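import Pool.Agent.Lib.MP_107652_al.Odd.Spec

set_option autoImplicit false

open Finset

namespace WGOdd

open WGirth WGTwin WGOne WGEven WGBar

private theorem AllBr_le {T : Type} (Λ : LGraph T) (s t : T)
    (h : ∀ φ ∈ Phi Λ (fun _ => True) {s(s, t)}, φ s = φ t) :
    Phi Λ (fun _ => True) {s(s, t)} ≤ Phi Λ (fun _ => True) ∅ := by
  intro φ hφ
  have h1 := h φ hφ
  rw [mem_Phi] at hφ ⊢
  refine ⟨hφ.1, fun u v huv hu hv _ => ?_⟩
  by_cases he : s(u, v) = s(s, t)
  · rw [Sym2.eq_iff] at he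
    rcases he with ⟨rfl, rfl⟩ | ⟨rfl, rfl⟩
    · exact h1
    · exact h1.symm
  · exact hφ.2 u v huv hu hv fun h2 => he (Set.mem_singleton_iff.1 h2)

theorem allBr : PhiIns → AllBr := by
  intro hP T _ Λ E hE s t hst
  by_contra hcon
  push Not at hcon
  have h1 := Submodule.finrank_mono (AllBr_le Λ s t hcon)
  have h2 := (hP T Λ (fun _ => True)).2.1 {s(s, t)} (E \ {s(s, t)})
  rw [Set.singleton_union, Set.insert_sdiff_singleton, Set.insert_eq_of_mem hst] at h2
  have h3 : (E \ {s(s, t)}).ncard + 1 = E.ncard :=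
    Set.ncard_sdiff_singleton_add_one hst (Set.toFinite _)
  omega

end WGOdd
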