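import Pool.Agent.Lib.MP_107652_al.Bar.Spec
import Pool.Agent.Lib.MP_107652_al.Bar.SpecW
import Pool.Agent.Lib.MP_107652_al.One.BaseC

/-!
# MP_107652_al, THEOREM F (one graph without odd edges on cycles). Definitions

THEOREM F: if no odd edge of `Γ` lies on a cycle and the Artin groups of `Γ` and `Λ` are isomorphic, then no
odd edge of `Λ` lies on a cycle. `NoOdd` (Bar/SpecW.lean): no odd edge lies on a cycle.
-/

set_option autoImplicit false
set_option linter.unusedSectionVars false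

open Finset

namespace WGOdd

open WGirth WGTwin WGOne WGEven WGBar

/-- the component `v` contains an odd edge -/
def Mt {S V : Type} (Γ : LGraph S) (c : S → V) (v : V) : Prop :=
  ∃ s t, (oddGraph Γ).Adj s t ∧ c s = v

/-- the data of an isomorphism, with a nonzero diagonal -/
structure TDO {S T V : Type} [Fintype S] [Fintype T] [Fintype V] [DecidableEq V] (Γ : LGraph S)
    (Λ : LGraph T) (cΓ : S → V) (cΛ : T → V) (M N : V → V → ℤ) : Prop where
  tdr : TDR Γ Λ cΓ cΛ M N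
  dg : ∀ v, M v v ≠ 0

/-- the columns of `w` of both matrices have only one nonzero entry, on the diagonal -/
structure Mono {V : Type} (M N : V → V → ℤ) (w : V) : Prop where
  m0 : ∀ j, j ≠ w → M j w = 0
  n0 : ∀ j, j ≠ w → N j w = 0
  one : M w w * N w w = 1

/-- Functions on the vertices with `Q` (zero elsewhere) which are constant along all edges except those
in `E`. -/
def Phi {S : Type} (Λ : LGraph S) (Q : S → Prop) (E : Set (Sym2 S)) : Submodule ℂ (S → ℂ) where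
  carrier := {φ | (∀ s, ¬ Q s → φ s = 0) ∧
    ∀ s t, Λ.graph.Adj s t → Q s → Q t → s(s, t) ∉ E → φ s = φ t}
  add_mem' := by
    rintro φ ψ ⟨h1, h2⟩ ⟨h3, h4⟩
    refine ⟨fun s hs => ?_, fun s t hst hs ht he => ?_⟩
    · rw [Pi.add_apply, h1 s hs, h3 s hs, add_zero]
    · rw [Pi.add_apply, Pi.add_apply, h2 s t hst hs ht he, h4 s t hst hs ht he]
  zero_mem' := ⟨fun _ _ => rfl, fun _ _ _ _ _ _ => rfl⟩
  smul_mem' := by
    rintro a φ ⟨h1, h2⟩
    refine ⟨fun s hs => ?_, fun s t hst hs ht he => ?_⟩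
    · rw [Pi.smul_apply, h1 s hs, smul_zero]
    · rw [Pi.smul_apply, Pi.smul_apply, h2 s t hst hs ht he]

theorem mem_Phi {S : Type} {Λ : LGraph S} {Q : S → Prop} {E : Set (Sym2 S)} {φ : S → ℂ} :
    φ ∈ Phi Λ Q E ↔ (∀ s, ¬ Q s → φ s = 0) ∧
      ∀ s t, Λ.graph.Adj s t → Q s → Q t → s(s, t) ∉ E → φ s = φ t := Iff.rfl

/-- the odd edges in the component `w` whose label is divisible by `d` -/
def oe {S V : Type} (Λ : LGraph S) (c : S → V) (w : V) (d : ℕ) : Set (Sym2 S) :=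
  {e | e ∈ Λ.graph.edgeSet ∧ ¬ Even (Λ.label e) ∧ d ∣ Λ.label e ∧ ∀ s ∈ e, c s = w}

/-- the degenerate edges of a character -/
def DgE {S V : Type} (Λ : LGraph S) (c : S → V) (z : V → ℂˣ) : Set (Sym2 S) :=
  {e | ∃ s t, s(s, t) = e ∧ Λ.graph.Adj s t ∧ Dg (Λ.label e) (z (c s)) (z (c t))}

/-- generic numbers: the absolute values are multiplicatively independent -/
def Gq {V : Type} [Fintype V] (q : V → ℂˣ) : Prop :=
  ∀ b : V → ℤ, ∏ v, ‖(q v : ℂ)‖ ^ (b v) = 1 → ∀ v, b v = 0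

/-- the character with the value `ζ` at `w` and generic values elsewhere -/
def gz {V : Type} [DecidableEq V] (w : V) (ζ : ℂˣ) (q : V → ℂˣ) : V → ℂˣ :=
  fun v => if v = w then ζ else q v

/-- `ω` has the odd order `d ≥ 3` -/
structure Od (d : ℕ) (ω : ℂˣ) : Prop where
  odd : ¬ Even d
  three : 3 ≤ d
  ord : orderOf ω = d

/-- cocycles which are constant on the component `w` -/
def SolW {S V : Type} (Γ : LGraph S) (c : S → V) (y : V → ℂˣ) (w : V) : Submodule ℂ (S → ℂ) where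
  carrier := {b | b ∈ Sol Γ (fun s => y (c s)) ∧ ∀ s t, c s = w → c t = w → b s = b t}
  add_mem' := by
    rintro b b' ⟨h1, h2⟩ ⟨h3, h4⟩
    refine ⟨Submodule.add_mem _ h1 h3, fun s t hs ht => ?_⟩
    rw [Pi.add_apply, Pi.add_apply, h2 s t hs ht, h4 s t hs ht]
  zero_mem' := ⟨Submodule.zero_mem _, fun _ _ _ _ => rfl⟩
  smul_mem' := by
    rintro a b ⟨h1, h2⟩
    refine ⟨Submodule.smul_mem _ a h1, fun s t hs ht => ?_⟩
    rw [Pi.smul_apply, Pi.smul_apply, h2 s t hs ht]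

theorem mem_SolW {S V : Type} {Γ : LGraph S} {c : S → V} {y : V → ℂˣ} {w : V} {b : S → ℂ} :
    b ∈ SolW Γ c y w ↔ b ∈ Sol Γ (fun s => y (c s)) ∧ ∀ s t, c s = w → c t = w → b s = b t :=
  Iff.rfl

/-- No component except `w` can be split by the character `y`: it is one vertex, or the value is `1`, or
the absolute value is not `1`. -/
def Usp {S V : Type} (c : S → V) (y : V → ℂˣ) (w : V) : Prop :=
  ∀ v, v ≠ w → (∀ s t, c s = v → c t = v → s = t) ∨ y v = 1 ∨ ‖(y v : ℂ)‖ ≠ 1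

/-- even edges join different components -/
def Ev {S V : Type} (Γ : LGraph S) (c : S → V) : Prop :=
  ∀ s t, Γ.graph.Adj s t → Even (Γ.label s(s, t)) → c s ≠ c t

/-- The local situation: `w` is adjacent to all other components. -/
structure CD {S T V : Type} [Fintype S] [Fintype T] [Fintype V] [DecidableEq V] (Γ : LGraph S)
    (Λ : LGraph T) (cΓ : S → V) (cΛ : T → V) (M N : V → V → ℤ) (w : V) : Prop where
  cmΓ : CMap Γ cΓ
  cmΛ : CMap Λ cΛ
  evΓ : Ev Γ cΓ
  nice : Nice Λ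
  gr : (bar Λ cΛ).graph = (bar Γ cΓ).graph
  cone : ∀ v, v ≠ w → (bar Γ cΓ).graph.Adj w v
  nm : ∀ v u, ∑ i, N v i * M i u = if v = u then 1 else 0
  mn : ∀ i j, ∑ v, M i v * N v j = if i = j then 1 else 0
  mono : Mono M N w
  usp : ∀ v, v ≠ w → ((∀ s t, cΓ s = v → cΓ t = v → s = t) ∧
    ∀ s t, cΛ s = v → cΛ t = v → s = t) ∨ Mono M N v
  chr : ∀ z : V → ℂˣ, Module.finrank ℂ (Sol Γ (fun s => pz M z (cΓ s))) =
    Module.finrank ℂ (Sol Λ (fun t => z (cΛ t)))

end WGOdd
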