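import Pool.Agent.Lib.MP_107652_al.Odd.Spec
import Pool.Agent.Lib.MP_107652_al.One.Blk

set_option autoImplicit false

open Finset

namespace WGOdd

open WGirth WGTwin WGOne WGEven WGBar

private theorem BlkO_two {V : Type} (Γ : LGraph V) (w : V) (X : V → V → ℤ)
    (hX : ∀ c r, X r c ≠ 0 → Dom Γ c r) (h0 : ∀ j, j ≠ w → X j w = 0) (c r : V)
    (hc : InU Γ w c) (hr : InG Γ w r) : X r c = 0 := by
  rcases hc.1 with h | h
  · subst h
    exact h0 r hr.1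
  · by_contra hne
    rcases hX c r hne w h with h' | h'
    · exact hr.1 h'.symm
    · exact hr.2 h'.symm

theorem blkO : BlkO := by
  intro S T V _ _ _ _ Γ Λ cΓ cΛ M N h w hw
  have hM : ∀ c r, M r c ≠ 0 → Dom (bar Γ cΓ) c r := fun c r => h.td.domM c r
  have hN : ∀ c r, N r c ≠ 0 → Dom (bar Γ cΓ) c r := fun c r => h.td.domN r c
  refine ⟨fun c r h1 h2 h3 => ⟨?_, ?_⟩, fun c r h1 h2 => ⟨?_, ?_⟩⟩
  · exact (blk V (bar Γ cΓ) w M hM).1 c r h1 h2 h3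
  · exact (blk V (bar Γ cΓ) w N hN).1 c r h1 h2 h3
  · exact BlkO_two (bar Γ cΓ) w M hM hw.m0 c r h1 h2
  · exact BlkO_two (bar Γ cΓ) w N hN hw.n0 c r h1 h2

end WGOdd
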