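import Pool.Agent.Lib.MP_107652_al.Odd.Spec

/-!
# MP_107652_al, THEOREM F: assembly from the parts
-/

set_option autoImplicit false

open Finset

namespace WGOdd

open WGirth WGTwin WGOne WGEven WGBar

/-- `Λ` is nice if its Artin group is the Artin group of a graph without odd edges on cycles. -/
def NiceF : Prop := ∀ (S T : Type) [Fintype S] [DecidableEq S] [Fintype T] [DecidableEq T]
  (Γ : LGraph S) (Λ : LGraph T), NoOdd Γ → ∀ (_ : Artin Γ ≃* Artin Λ), Nice Λ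

theorem fin_of : TDOEx → NiceF → MonoEx → CntL → LocIneq → SingL → AllBr → NoOddOf →
    TheoremF := by
  intro h1 hN h2 h3 h4 h5 h6 h7 S T _ _ _ _ Γ Λ hΓ e
  obtain ⟨V, iF, iD, cΓ, cΛ, M, N, hT⟩ := h1 S T Γ Λ e
  have hNice := hN S T Γ Λ hΓ e
  have hM : ∀ w, Mt Γ cΓ w → Mono M N w := h2 S T V Γ Λ cΓ cΛ M N hT hΓ
  refine h7 T Λ fun s t hst => ?_
  have hst' : cΛ s = cΛ t := (hT.tdr.cmΛ.iff s t).2 hst.reachable
  by_cases hm : Mt Γ cΓ (cΛ s)
  · have h2' := Λ.two_le s(s, t) ((SimpleGraph.mem_edgeSet _).2 hst.1)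
    have hodd : ¬ Even (Λ.label s(s, t)) := hst.2
    have h3' : 3 ≤ Λ.label s(s, t) := by
      rcases Nat.eq_or_lt_of_le h2' with h | h
      · exact absurd (by rw [← h]; exact even_two) hodd
      · exact h
    have a := h3 S T V Γ Λ cΓ cΛ M N hT hΓ hNice (cΛ s) (hM _ hm) _ hodd h3'
    have b := h4 S T V Γ Λ cΓ cΛ M N hT hΓ hNice hM (cΛ s) hm _ hodd h3'
    refine h6 T Λ (oe Λ cΛ (cΛ s) (Λ.label s(s, t))) (by rw [a]; omega) s t
      ⟨(SimpleGraph.mem_edgeSet _).2 hst.1, hodd, dvd_rfl, fun x hx => ?_⟩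
    rcases Sym2.mem_iff.mp hx with rfl | rfl
    · rfl
    · exact hst'.symm
  · exact absurd (h5 S T V Γ Λ cΓ cΛ M N hT hΓ hNice hM s t hst' hm) hst.1.ne

end WGOdd
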