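import Pool.Agent.Lib.MP_107652_al.Odd.Spec
import Pool.Agent.Lib.MP_107652_al.Odd.Fin
import Pool.Agent.Lib.MP_107652_al.Tree.NiceN

/-!
# MP_107652_al, THEOREM F: an odd edge which lies on no cycle is a bridge
-/

set_option autoImplicit false

open Finset

namespace WGOdd

open WGirth WGTwin WGOne WGEven WGBar

theorem brFun : BrFun := by
  intro S Γ ho s t hst
  obtain ⟨col, ha, hb, hcol⟩ := WGTree.bridge_col ho s t hst.1 hst.2
  refine ⟨fun v => if col v = true then 1 else 0, ⟨fun v hv => absurd trivial hv, ?_⟩, ?_⟩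
  · intro a b hab _ _ hne
    have h1 : col a = col b := hcol a b hab fun h => hne h
    simp only [h1]
  · simp only [ha, hb]
    simp

theorem niceF : NiceF := by
  classical
  intro S T _ _ _ _ Γ Λ hΓ e
  obtain ⟨iF⟩ : Nonempty (Fintype (oddGraph Γ).ConnectedComponent) :=
    ⟨Fintype.ofFinite _⟩
  exact WGTree.niceExN S T (oddGraph Γ).ConnectedComponent Γ Λ (oddGraph Γ).connectedComponentMk
    ⟨fun c => Quot.exists_rep c, fun _ _ => SimpleGraph.ConnectedComponent.eq⟩ hΓ e

end WGOdd
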