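import Pool.Agent.Lib.MP_107652_al.Odd.Spec
import Pool.Agent.Lib.MP_107652_al.One.SolSplit
import Pool.Agent.Lib.MP_107652_al.One.SolGen
import Pool.Agent.Lib.MP_107652_al.One.Kill
import Pool.Agent.Lib.MP_107652_al.One.NrmE
import Pool.Agent.Lib.MP_107652_al.One.GenNum
import Pool.Agent.Lib.MP_107652_al.One.Blk
import Pool.Agent.Lib.MP_107652_al.Bar.CstBar

/-! MP_107652_al, Odd/ChrU: reduction to the star of a component. -/

set_option autoImplicit false

open Finset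

namespace WGOdd

open WGirth WGTwin WGOne WGEven WGBar

private theorem ChrU_sum {V : Type} [Fintype V] (p : V → Prop) [Fintype {v // p v}] (f : V → ℤ)
    (h : ∀ v, ¬ p v → f v = 0) : ∑ v : {v // p v}, f v.1 = ∑ v, f v := by
  classical
  rw [← Finset.sum_subset (Finset.subset_univ (univ.filter p)) (by
    intro v _ hv
    exact h v fun hp => hv (mem_filter.2 ⟨mem_univ v, hp⟩))]
  exact (Finset.sum_subtype _ (by simp) f).symm

private theorem ChrU_prod {V : Type} [Fintype V] (p : V → Prop) [Fintype {v // p v}] (f : V → ℂˣ)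
    (h : ∀ v, ¬ p v → f v = 1) : ∏ v : {v // p v}, f v.1 = ∏ v, f v := by
  classical
  rw [← Finset.prod_subset (Finset.subset_univ (univ.filter p)) (by
    intro v _ hv
    exact h v fun hp => hv (mem_filter.2 ⟨mem_univ v, hp⟩))]
  exact (Finset.prod_subtype _ (by simp) f).symm

/-- the real number `exp r` as a unit -/
private noncomputable def ChrU_e (r : ℝ) : ℂˣ := Units.mk0 (Complex.exp r) (Complex.exp_ne_zero _)

private theorem ChrU_e_norm (r : ℝ) : ‖(ChrU_e r : ℂ)‖ = Real.exp r := by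
  show ‖Complex.exp r‖ = _
  rw [Complex.norm_exp, Complex.ofReal_re]

private theorem ChrU_log {V : Type} [Fintype V] (M : V → V → ℤ) (z : V → ℂˣ) (v : V) :
    Real.log ‖(pz M z v : ℂ)‖ = ∑ i, (M i v : ℝ) * Real.log ‖(z i : ℂ)‖ := by
  unfold pz
  rw [Units.coe_prod, norm_prod, Real.log_prod]
  · refine Finset.sum_congr rfl fun i _ => ?_
    rw [Units.val_zpow_eq_zpow_val, norm_zpow, Real.log_zpow]
  · intro i _
    rw [norm_ne_zero_iff]
    exact Units.ne_zero _

private theorem ChrU_norm_ne {x : ℂˣ} (h : Real.log ‖(x : ℂ)‖ ≠ 0) : ‖(x : ℂ)‖ ≠ 1 := by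
  intro h1
  rw [h1, Real.log_one] at h
  exact h rfl

private theorem ChrU_norm_mul {x y : ℂˣ} (h : Real.log ‖(x : ℂ)‖ + Real.log ‖(y : ℂ)‖ ≠ 0) :
    ‖(x : ℂ)‖ * ‖(y : ℂ)‖ ≠ 1 := by
  intro h1
  apply h
  rw [← Real.log_mul (norm_ne_zero_iff.2 (Units.ne_zero x)) (norm_ne_zero_iff.2 (Units.ne_zero y)),
    h1, Real.log_one]

/-- one side of the comparison: the cocycles split into those on the star of `w` and the locally
constant functions far from `w` -/
private theorem ChrU_side (S V : Type) [Fintype S] (B : LGraph V) (Γ : LGraph S) (c : S → V)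
    (hc : CMap Γ c)
    (hadj : ∀ v u, B.graph.Adj v u ↔ v ≠ u ∧ ∃ s t, c s = v ∧ c t = u ∧ Γ.graph.Adj s t)
    (w : V) (y : V → ℂˣ) (hyR : ∀ v, ¬ InU B w v → ¬ InG B w v → y v = 1)
    (hyG : ∀ v u, InG B w v → InG B w u → Real.log ‖(y v : ℂ)‖ + Real.log ‖(y u : ℂ)‖ ≠ 0) :
    Module.finrank ℂ (Sol Γ (fun s => y (c s))) =
      Module.finrank ℂ (Sol (sub Γ (fun s => InU B w (c s))) (fun s => y (c s.1))) +
      Module.finrank ℂ (Cst (sub Γ (fun s => InG B w (c s)))) := by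
  classical
  obtain ⟨-, -, b3, b4⟩ := blk V B w (fun _ _ => 0) (fun _ _ h => absurd rfl h)
  have hyG1 : ∀ v, InG B w v → Real.log ‖(y v : ℂ)‖ ≠ 0 := by
    intro v hv h
    exact hyG v v hv hv (by rw [h, add_zero])
  have hodd : ∀ s t, (oddGraph Γ).Adj s t → c s = c t := fun s t h => (hc.iff s t).2 h.reachable
  have h1 : Module.finrank ℂ (Sol Γ (fun s => y (c s))) =
      Module.finrank ℂ (Sol (sub Γ (fun s => InU B w (c s))) (fun s => y (c s.1))) +
      Module.finrank ℂ (Sol (sub Γ (fun s => InG B w (c s))) (fun s => y (c s.1))) := by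
    refine solSplit S Γ (fun s => y (c s)) (fun s => InU B w (c s)) (fun s => InG B w (c s))
      ?_ ?_ ?_ ?_ ?_
    · intro s h
      exact not_UG B w _ h
    · intro s t h1 h2 h3
      refine b4 _ _ h1 h2 ((hadj _ _).2 ⟨?_, s, t, rfl, rfl, h3⟩)
      intro h4
      rw [h4] at h1
      exact not_UG B w _ ⟨h1, h2⟩
    · intro s t h
      rw [hodd s t h]
      exact ⟨Iff.rfl, Iff.rfl⟩
    · intro s h1 h2
      exact hyR _ h1 h2
    · intro b hb s h1 h2
      obtain ⟨-, g, hg1, hg2⟩ := b3 _ h1 h2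
      obtain ⟨hne, s1, t1, hs1, ht1', hst⟩ := (hadj _ _).1 hg1
      obtain ⟨k1, k2⟩ := kill nrmE S Γ (fun s => y (c s)) b hb
      have hev : Even (Γ.label s(s1, t1)) := by
        by_contra hev
        exact hne (by rw [← hs1, ← ht1']; exact hodd s1 t1 ⟨hst, hev⟩)
      have h3 : b s1 = 0 := by
        refine k1 s1 t1 hst hev ?_ ?_
        · show y (c s1) = 1
          rw [hs1]
          exact hyR _ h1 h2
        · show ‖(y (c t1) : ℂ)‖ ≠ 1
          rw [ht1']
          exact ChrU_norm_ne (hyG1 g hg2)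
      rw [← h3]
      refine (k2 s1 s ((hc.iff s1 s).1 hs1) ?_).symm
      intro t' ht'
      show y (c t') = 1
      rw [← (hc.iff s1 t').2 ht', hs1]
      exact hyR _ h1 h2
  have hn : ∀ s : {s // InG B w (c s)}, ‖(y (c s.1) : ℂ)‖ ≠ 1 := fun s =>
    ChrU_norm_ne (hyG1 _ s.2)
  have h2 : Module.finrank ℂ (Sol (sub Γ (fun s => InG B w (c s))) (fun s => y (c s.1))) =
      Module.finrank ℂ (Cst (sub Γ (fun s => InG B w (c s)))) := by
    refine solGen nrmE {s // InG B w (c s)} (sub Γ (fun s => InG B w (c s)))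
      (fun s => y (c s.1)) ?_ ?_ ?_
    · intro s h
      apply hn s
      rw [h]
      simp
    · intro s t h
      have h1 : (oddGraph Γ).Adj s.1 t.1 := ⟨h.1, h.2⟩
      exact ⟨by show y (c s.1) = y (c t.1); rw [hodd _ _ h1], hn s⟩
    · intro s t _ _
      exact ChrU_norm_mul (hyG _ _ s.2 t.2)
  rw [h1, h2]

theorem chrU : BlkO → ChrU := by
  intro hBlk S T V _ _ _ _ Γ Λ cΓ cΛ M N h w hw _
  classical
  obtain ⟨b1, b2⟩ := hBlk S T V Γ Λ cΓ cΛ M N h w hw
  have hUG : ∀ v, InU (bar Γ cΓ) w v → ¬ InG (bar Γ cΓ) w v :=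
    fun v h1 h2 => not_UG (bar Γ cΓ) w v ⟨h1, h2⟩
  have hMN : ∀ i j, ∑ v, M i v * N v j = if i = j then 1 else 0 := h.td.pre.mn
  have hNM : ∀ i j, ∑ v, N i v * M v j = if i = j then 1 else 0 := h.td.pre.nm
  refine ⟨?_, ?_, fun z => ?_⟩
  · intro v u
    rw [ChrU_sum (InU (bar Γ cΓ) w) (fun i => N v.1 i * M i u.1), hNM]
    intro i hi
    by_cases hg : InG (bar Γ cΓ) w i
    · rw [(b2 u.1 i u.2 hg).1, mul_zero]
    · rw [(b1 i v.1 hi hg (Or.inl v.2)).2, zero_mul]
  · intro i j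
    rw [ChrU_sum (InU (bar Γ cΓ) w) (fun v => M i.1 v * N v j.1), hMN]
    intro v hv
    by_cases hg : InG (bar Γ cΓ) w v
    · rw [(b2 j.1 v j.2 hg).2, mul_zero]
    · rw [(b1 v i.1 hv hg (Or.inl i.2)).1, zero_mul]
  -- generic numbers
  let κ : V → ℝ := fun v =>
    ∑ i, if h : InU (bar Γ cΓ) w i then (M i v : ℝ) * Real.log ‖(z ⟨i, h⟩ : ℂ)‖ else 0
  let J := {p : V × V // InG (bar Γ cΓ) w p.1 ∧ InG (bar Γ cΓ) w p.2}
  obtain ⟨t, ht⟩ := genNum V (J ⊕ J)
    (Sum.elim (fun p i => (if i = p.1.1 then 1 else 0) + (if i = p.1.2 then 1 else 0))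
      (fun p i => if InG (bar Γ cΓ) w i then M i p.1.1 + M i p.1.2 else 0))
    (Sum.elim (fun _ => 0) (fun p => κ p.1.1 + κ p.1.2)) (by
      rintro (p | p)
      · intro h
        have h1 := congrFun h p.1.1
        simp only [Sum.elim_inl, Pi.zero_apply, if_true] at h1
        split_ifs at h1 <;> norm_num at h1
      · intro h
        have h1 : ∑ i, N p.1.1 i * (M i p.1.1 + M i p.1.2) = 0 := by
          refine Finset.sum_eq_zero fun i _ => ?_
          by_cases hg : InG (bar Γ cΓ) w i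
          · have h2 := congrFun h i
            simp only [Sum.elim_inr, Pi.zero_apply, if_pos hg] at h2
            rw [h2, mul_zero]
          · by_cases hu : InU (bar Γ cΓ) w i
            · rw [(b2 i p.1.1 hu p.2.1).2, zero_mul]
            · rw [(b1 i p.1.1 hu hg (Or.inr p.2.1)).2, zero_mul]
        simp only [mul_add, Finset.sum_add_distrib] at h1
        rw [hNM, hNM, if_pos rfl] at h1
        split_ifs at h1 <;> norm_num at h1)
  have ht1 : ∀ i j, InG (bar Γ cΓ) w i → InG (bar Γ cΓ) w j → t i + t j ≠ 0 := by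
    intro i j hi hj
    have h := ht (Sum.inl ⟨(i, j), hi, hj⟩)
    simp only [Sum.elim_inl, Int.cast_add, Int.cast_ite, Int.cast_one, Int.cast_zero, add_mul,
      ite_mul, one_mul, zero_mul, Finset.sum_add_distrib, Finset.sum_ite_eq', Finset.mem_univ,
      if_true, add_zero] at h
    exact h
  -- the character
  let z' : V → ℂˣ := fun i =>
    if h : InU (bar Γ cΓ) w i then z ⟨i, h⟩ else if InG (bar Γ cΓ) w i then ChrU_e (t i) else 1
  have zU : ∀ i (h : InU (bar Γ cΓ) w i), z' i = z ⟨i, h⟩ := fun i h => dif_pos h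
  have zG : ∀ i, InG (bar Γ cΓ) w i → z' i = ChrU_e (t i) := by
    intro i h
    have h1 : ¬ InU (bar Γ cΓ) w i := fun h2 => hUG i h2 h
    show (if h : InU (bar Γ cΓ) w i then z ⟨i, h⟩ else
      if InG (bar Γ cΓ) w i then ChrU_e (t i) else 1) = _
    rw [dif_neg h1, if_pos h]
  have zR : ∀ i, ¬ InU (bar Γ cΓ) w i → ¬ InG (bar Γ cΓ) w i → z' i = 1 := by
    intro i h1 h2
    show (if h : InU (bar Γ cΓ) w i then z ⟨i, h⟩ else
      if InG (bar Γ cΓ) w i then ChrU_e (t i) else 1) = _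
    rw [dif_neg h1, if_neg h2]
  have lG : ∀ i, InG (bar Γ cΓ) w i → Real.log ‖(z' i : ℂ)‖ = t i := by
    intro i h
    rw [zG i h, ChrU_e_norm, Real.log_exp]
  have hlog : ∀ v, Real.log ‖(pz M z' v : ℂ)‖ =
      ∑ i, ((if InG (bar Γ cΓ) w i then M i v else 0 : ℤ) : ℝ) * t i + κ v := by
    intro v
    rw [ChrU_log, ← Finset.sum_add_distrib]
    refine Finset.sum_congr rfl fun i _ => ?_
    by_cases hu : InU (bar Γ cΓ) w i
    · rw [if_neg (hUG i hu), dif_pos hu, zU i hu]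
      simp
    · rw [dif_neg hu]
      by_cases hg : InG (bar Γ cΓ) w i
      · rw [if_pos hg, lG i hg, add_zero]
      · rw [if_neg hg, zR i hu hg]
        simp
  have hyy : ∀ v u, InG (bar Γ cΓ) w v → InG (bar Γ cΓ) w u →
      Real.log ‖(pz M z' v : ℂ)‖ + Real.log ‖(pz M z' u : ℂ)‖ ≠ 0 := by
    intro v u hv hu
    have h := ht (Sum.inr ⟨(v, u), hv, hu⟩)
    simp only [Sum.elim_inr] at h
    rw [hlog, hlog]
    intro h1
    apply h
    rw [← h1]
    have h2 : ∀ i, (((if InG (bar Γ cΓ) w i then M i v + M i u else 0 : ℤ)) : ℝ) * t i =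
        ((if InG (bar Γ cΓ) w i then M i v else 0 : ℤ) : ℝ) * t i +
          ((if InG (bar Γ cΓ) w i then M i u else 0 : ℤ) : ℝ) * t i := by
      intro i
      split_ifs
      · push_cast
        ring
      · simp
    simp only [h2, Finset.sum_add_distrib]
    ring
  have hyR : ∀ v, ¬ InU (bar Γ cΓ) w v → ¬ InG (bar Γ cΓ) w v → pz M z' v = 1 := by
    intro v h1 h2
    unfold pz
    refine Finset.prod_eq_one fun i _ => ?_
    by_cases hu : InU (bar Γ cΓ) w i
    · rw [(b1 v i h1 h2 (Or.inl hu)).1, zpow_zero]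
    · by_cases hg : InG (bar Γ cΓ) w i
      · rw [(b1 v i h1 h2 (Or.inr hg)).1, zpow_zero]
      · rw [zR i hu hg, one_zpow]
  -- the two sides
  have hL := ChrU_side T V (bar Γ cΓ) Λ cΛ h.cmΛ
    (fun v u => (h.td.adj v u).trans (bar_adj Λ cΛ v u)) w z' zR
    (fun v u hv hu => by rw [lG v hv, lG u hu]; exact ht1 v u hv hu)
  have hR := ChrU_side S V (bar Γ cΓ) Γ cΓ h.cmΓ (fun v u => bar_adj Γ cΓ v u) w (pz M z') hyR hyy
  have hC := cstBar S T V Γ Λ cΓ cΛ M N h (InG (bar Γ cΓ) w)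
  have hchr := h.chrM z'
  rw [hL, hR, hC] at hchr
  have e1 : (fun s : {t // InU (bar Γ cΓ) w (cΛ t)} => z' (cΛ s.1)) =
      fun t => z ⟨cΛ t.1, t.2⟩ := by
    funext s
    exact zU _ s.2
  have e2 : (fun s : {s // InU (bar Γ cΓ) w (cΓ s)} => pz M z' (cΓ s.1)) =
      fun s => pz (fun i v : {v // InU (bar Γ cΓ) w v} => M i.1 v.1) z ⟨cΓ s.1, s.2⟩ := by
    funext s
    unfold pz
    rw [← ChrU_prod (InU (bar Γ cΓ) w) (fun i => z' i ^ M i (cΓ s.1))]
    · refine Finset.prod_congr rfl fun i _ => ?_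
      rw [zU i.1 i.2]
    · intro i hu
      by_cases hg : InG (bar Γ cΓ) w i
      · rw [(b2 (cΓ s.1) i s.2 hg).1, zpow_zero]
      · rw [zR i hu hg, one_zpow]
  rw [e1, e2] at hchr
  omega

end WGOdd
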