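import Pool.Agent.Lib.MP_107652_al.Odd.Spec
import Pool.Agent.Lib.MP_107652_al.Bar.W0
import Pool.Agent.Lib.MP_107652_al.Bar.W1

set_option autoImplicit false

open Finset

namespace WGOdd

open WGirth WGTwin WGOne WGEven WGBar

theorem CntG_pow {x : ℂˣ} {n : ℕ} (hn : n ≠ 0) (h : x ^ n = 1) : ‖(x : ℂ)‖ = 1 := by
  have h1 : (x : ℂ) ^ n = 1 := by
    rw [← Units.val_pow_eq_pow_val, h, Units.val_one]
  have h2 : ‖(x : ℂ)‖ ^ n = 1 := by rw [← norm_pow, h1, norm_one]
  exact (pow_eq_one_iff_of_nonneg (norm_nonneg _) hn).1 h2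

theorem CntG_ne {V : Type} [Fintype V] [DecidableEq V] {q : V → ℂˣ} (hq : Gq q) (v : V) :
    ‖(q v : ℂ)‖ ≠ 1 := by
  intro h
  have := hq (Pi.single v 1) (by
    rw [Finset.prod_eq_single v]
    · rw [Pi.single_eq_same, zpow_one, h]
    · intro u _ hu
      rw [Pi.single_eq_of_ne hu, zpow_zero]
    · intro hv
      exact absurd (mem_univ v) hv) v
  rw [Pi.single_eq_same] at this
  exact one_ne_zero this

theorem CntG_ne2 {V : Type} [Fintype V] [DecidableEq V] {q : V → ℂˣ} (hq : Gq q) {u v : V}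
    (huv : u ≠ v) : ‖(q u : ℂ)‖ * ‖(q v : ℂ)‖ ≠ 1 := by
  intro h
  have := hq (Pi.single u 1 + Pi.single v 1) (by
    rw [Fintype.prod_eq_mul u v huv]
    · rw [Pi.add_apply, Pi.add_apply, Pi.single_eq_same, Pi.single_eq_of_ne huv,
        Pi.single_eq_same, Pi.single_eq_of_ne huv.symm, add_zero, zero_add, zpow_one, zpow_one, h]
    · intro x hx
      rw [Pi.add_apply, Pi.single_eq_of_ne hx.1, Pi.single_eq_of_ne hx.2, add_zero, zpow_zero]) u
  rw [Pi.add_apply, Pi.single_eq_same, Pi.single_eq_of_ne huv, add_zero] at this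
  exact one_ne_zero this

/-- degenerate edges of the character `gz w ζ q` -/
theorem CntG_dg {S V : Type} [Fintype S] [Fintype V] [DecidableEq V] {Γ : LGraph S}
    {cΓ : S → V} (hc : CMap Γ cΓ) (hno : NoOdd Γ) {w : V} {q : V → ℂˣ} (hq : Gq q) {ζ : ℂˣ}
    (hζ : ‖(ζ : ℂ)‖ = 1) {s t : S} (hst : Γ.graph.Adj s t) :
    Dg (Γ.label s(s, t)) (gz w ζ q (cΓ s)) (gz w ζ q (cΓ t)) ↔
      (¬ Even (Γ.label s(s, t)) ∧ cΓ s = w ∧ cΓ t = w ∧ ζ ≠ -1 ∧
        (-ζ) ^ (Γ.label s(s, t)) = 1) := by
  have h2 : 2 ≤ Γ.label s(s, t) := Γ.two_le _ ((SimpleGraph.mem_edgeSet _).2 hst)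
  constructor
  · intro h
    rcases h with ⟨he, _, hp⟩ | ⟨ho, hn, hp⟩
    · exfalso
      have hne : cΓ s ≠ cΓ t := (pW1 pW0).1 S V Γ cΓ hc hno s t hst he
      have hk : Γ.label s(s, t) / 2 ≠ 0 := by omega
      have h3 := CntG_pow hk hp
      rw [Units.val_mul, norm_mul] at h3
      unfold gz at h3
      by_cases h4 : cΓ s = w
      · have h5 : cΓ t ≠ w := fun h => hne (h4.trans h.symm)
        rw [if_pos h4, if_neg h5, hζ, one_mul] at h3
        exact CntG_ne hq _ h3
      · by_cases h5 : cΓ t = w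
        · rw [if_neg h4, if_pos h5, hζ, mul_one] at h3
          exact CntG_ne hq _ h3
        · rw [if_neg h4, if_neg h5] at h3
          exact CntG_ne2 hq hne h3
    · have hc' := comp_eq_of_odd hc hst ho
      by_cases h4 : cΓ s = w
      · unfold gz at hn hp
        rw [if_pos h4] at hn hp
        exact ⟨ho, h4, hc' ▸ h4, hn, hp⟩
      · exfalso
        unfold gz at hp
        rw [if_neg h4] at hp
        have h3 := CntG_pow (by omega : Γ.label s(s, t) ≠ 0) hp
        rw [Units.val_neg, norm_neg] at h3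
        exact CntG_ne hq _ h3
  · rintro ⟨ho, h4, _, hn, hp⟩
    refine Or.inr ⟨ho, ?_, ?_⟩
    · unfold gz
      rw [if_pos h4]
      exact hn
    · unfold gz
      rw [if_pos h4]
      exact hp

theorem cntG : SolPhi → PhiBr → BrFun → CntG := by
  intro hS hP hB S V _ _ _ Γ cΓ hc hno w q hq d ω hω
  have hω1 : ‖(ω : ℂ)‖ = 1 := by
    refine CntG_pow (n := d) (by have := hω.three; omega) ?_
    rw [← hω.ord]
    exact pow_orderOf_eq_one ω
  have hval : ∀ ζ : ℂˣ, ζ ≠ 1 → ∀ v, gz w ζ q v ≠ 1 := by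
    intro ζ hζ v h
    unfold gz at h
    split_ifs at h with hv
    · exact hζ h
    · refine CntG_ne hq v ?_
      rw [h, Units.val_one, norm_one]
  have hone : ω ≠ -1 := by
    intro h
    have h3 := hω.three
    have h1 : ω ^ 2 = 1 := by rw [h]; simp
    have h2 := orderOf_dvd_of_pow_eq_one h1
    rw [hω.ord] at h2
    have := Nat.le_of_dvd (by norm_num) h2
    omega
  have hone' : ω ≠ 1 := by
    intro h
    have h3 := hω.three
    have h1 : ω ^ 1 = 1 := by rw [h]; simp
    have h2 := orderOf_dvd_of_pow_eq_one h1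
    rw [hω.ord] at h2
    have := Nat.le_of_dvd (by norm_num) h2
    omega
  constructor
  · have hne : -ω ≠ 1 := fun h => hone (by rw [← h, neg_neg])
    rw [hS S V Γ cΓ hc (gz w (-ω) q) (hval _ hne)]
    have hE : DgE Γ cΓ (gz w (-ω) q) = oe Γ cΓ w d := by
      ext e
      constructor
      · rintro ⟨s, t, rfl, hst, hD⟩
        obtain ⟨ho, h4, h5, _, h6⟩ := (CntG_dg hc hno hq (by
          rw [Units.val_neg, norm_neg]; exact hω1) hst).1 hD
        rw [neg_neg] at h6
        refine ⟨(SimpleGraph.mem_edgeSet _).2 hst, ho, ?_, ?_⟩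
        · rw [← hω.ord]
          exact orderOf_dvd_of_pow_eq_one h6
        · intro x hx
          rcases Sym2.mem_iff.1 hx with rfl | rfl
          · exact h4
          · exact h5
      · induction e using Sym2.ind with
        | _ s t =>
          rintro ⟨hst, ho, hd, hw⟩
          have hst' := (SimpleGraph.mem_edgeSet _).1 hst
          refine ⟨s, t, rfl, hst', (CntG_dg hc hno hq (by
            rw [Units.val_neg, norm_neg]; exact hω1) hst').2
            ⟨ho, hw s (Sym2.mem_mk_left _ _), hw t (Sym2.mem_mk_right _ _), ?_, ?_⟩⟩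
          · intro h
            exact hone' (neg_injective h)
          · rw [neg_neg]
            rw [← hω.ord] at hd
            exact orderOf_dvd_iff_pow_eq_one.1 hd
    rw [hE]
    refine hP S Γ (fun _ => True) (oe Γ cΓ w d) ?_
    intro e
    induction e using Sym2.ind with
    | _ s t =>
      rintro ⟨hst, ho, _, _⟩
      have hst' := (SimpleGraph.mem_edgeSet _).1 hst
      obtain ⟨φ, h1, h2⟩ := hB S Γ hno s t ⟨hst', ho⟩
      exact ⟨s, t, rfl, hst', trivial, trivial, φ, h1, h2⟩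
  · have hne : (-1 : ℂˣ) ≠ 1 := by
      intro h
      have h1 := congrArg (fun x : ℂˣ => (x : ℂ)) h
      simp only [Units.val_neg, Units.val_one] at h1
      norm_num at h1
    rw [hS S V Γ cΓ hc (gz w (-1) q) (hval _ hne)]
    have hE : DgE Γ cΓ (gz w (-1) q) = ∅ := by
      ext e
      constructor
      · rintro ⟨s, t, rfl, hst, hD⟩
        obtain ⟨_, _, _, h6, _⟩ := (CntG_dg hc hno hq (by
          rw [Units.val_neg, norm_neg, Units.val_one, norm_one]) hst).1 hD
        exact (h6 rfl).elim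
      · intro h
        exact h.elim
    rw [hE]

end WGOdd
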