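import Pool.Agent.Lib.MP_107652_al.Odd.Spec

/-!
# MP_107652_al, THEOREM F: dimension of the cocycles of `Λ` at a matched component
-/

set_option autoImplicit false

open Finset

namespace WGOdd

open WGirth WGTwin WGOne WGEven WGBar

private theorem CntL_ex (d : ℕ) (h1 : ¬ Even d) (h3 : 3 ≤ d) : ∃ ω : ℂˣ, Od d ω := by
  have hd : d ≠ 0 := by omega
  have hp := Complex.isPrimitiveRoot_exp d hd
  refine ⟨Units.mk0 (Complex.exp (2 * Real.pi * Complex.I / d)) (Complex.exp_ne_zero _), h1, h3, ?_⟩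
  rw [← orderOf_units, Units.val_mk0]
  exact hp.eq_orderOf.symm

private theorem CntL_normOm {d : ℕ} {ω : ℂˣ} (h : Od d ω) : ‖(ω : ℂ)‖ = 1 := by
  have h1 : ω ^ d = 1 := by rw [← h.ord]; exact pow_orderOf_eq_one ω
  have h2 : (ω : ℂ) ^ d = 1 := by
    have := congrArg Units.val h1
    simpa using this
  exact Complex.norm_eq_one_of_pow_eq_one h2 (by have := h.three; omega)

private theorem CntL_norm {V : Type} [Fintype V] [DecidableEq V] (N : V → V → ℤ) (w : V)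
    (ζ : ℂˣ) (hζ : ‖(ζ : ℂ)‖ = 1) (q : V → ℂˣ) (i : V) :
    ‖((pz N (gz w ζ q) i : ℂˣ) : ℂ)‖ = ∏ v, ‖(q v : ℂ)‖ ^ (if v = w then 0 else N v i) := by
  unfold pz
  rw [Units.coe_prod, norm_prod]
  refine Finset.prod_congr rfl fun v _ => ?_
  rw [Units.val_zpow_eq_zpow_val, norm_zpow]
  unfold gz
  split_ifs with h
  · rw [hζ, one_zpow, zpow_zero]
  · rfl

private theorem CntL_one {V : Type} [Fintype V] [DecidableEq V] (N : V → V → ℤ) (w : V)
    (ζ : ℂˣ) (hζ : ‖(ζ : ℂ)‖ = 1) (q : V → ℂˣ) (hq : Gq q) (i : V)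
    (h : ‖((pz N (gz w ζ q) i : ℂˣ) : ℂ)‖ = 1) : ∀ v, v ≠ w → N v i = 0 := by
  intro v hv
  rw [CntL_norm N w ζ hζ q i] at h
  have h1 := hq _ h v
  rwa [if_neg hv] at h1

private theorem CntL_two {V : Type} [Fintype V] [DecidableEq V] (N : V → V → ℤ) (w : V)
    (ζ : ℂˣ) (hζ : ‖(ζ : ℂ)‖ = 1) (q : V → ℂˣ) (hq : Gq q) (i j : V)
    (h : ‖((pz N (gz w ζ q) i : ℂˣ) : ℂ)‖ * ‖((pz N (gz w ζ q) j : ℂˣ) : ℂ)‖ = 1) :
    ∀ v, v ≠ w → N v i + N v j = 0 := by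
  intro v hv
  rw [CntL_norm N w ζ hζ q i, CntL_norm N w ζ hζ q j, ← Finset.prod_mul_distrib] at h
  have h0 : ∏ v, ‖(q v : ℂ)‖ ^ ((if v = w then 0 else N v i) + (if v = w then 0 else N v j)) = 1 := by
    rw [← h]
    refine Finset.prod_congr rfl fun u _ => ?_
    rw [zpow_add₀ (norm_ne_zero_iff.2 (q u).ne_zero)]
  have h1 := hq _ h0 v
  rwa [if_neg hv, if_neg hv] at h1

/-- for `i ≠ w` the value does not have norm 1 -/
private theorem CntL_ne {V : Type} [Fintype V] [DecidableEq V] {M N : V → V → ℤ} {w : V}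
    (hmn : ∀ i j, ∑ v, M i v * N v j = if i = j then 1 else 0) (hm : Mono M N w)
    (ζ : ℂˣ) (hζ : ‖(ζ : ℂ)‖ = 1) (q : V → ℂˣ) (hq : Gq q) (i : V) (hi : i ≠ w) :
    ‖((pz N (gz w ζ q) i : ℂˣ) : ℂ)‖ ≠ 1 := by
  intro h
  have h1 := CntL_one N w ζ hζ q hq i h
  have h2 := hmn i i
  rw [if_pos rfl, Finset.sum_eq_zero] at h2
  · exact zero_ne_one h2
  · intro v _
    by_cases hv : v = w
    · rw [hv, hm.m0 i hi, zero_mul]
    · rw [h1 v hv, mul_zero]

private theorem CntL_w {V : Type} [Fintype V] [DecidableEq V] {M N : V → V → ℤ} {w : V}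
    (hm : Mono M N w) (ζ : ℂˣ) (q : V → ℂˣ) : pz N (gz w ζ q) w = ζ ∨ pz N (gz w ζ q) w = ζ⁻¹ := by
  have h1 : pz N (gz w ζ q) w = ζ ^ N w w := by
    unfold pz
    rw [Finset.prod_eq_single w]
    · unfold gz
      rw [if_pos rfl]
    · intro v _ hv
      rw [hm.n0 v hv, zpow_zero]
    · intro h
      exact absurd (Finset.mem_univ w) h
  rw [h1]
  have h2 : N w w * M w w = 1 := by rw [mul_comm]; exact hm.one
  rcases Int.eq_one_or_neg_one_of_mul_eq_one h2 with h | h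
  · left; rw [h, zpow_one]
  · right; rw [h, zpow_neg, zpow_one]

/-- a degenerate edge is an odd edge in `w` -/
private theorem CntL_dg {T V : Type} [Fintype V] [DecidableEq V] {Λ : LGraph T} {cΛ : T → V}
    {M N : V → V → ℤ} {w : V} (hc : CMap Λ cΛ) (hN : Nice Λ)
    (hmn : ∀ i j, ∑ v, M i v * N v j = if i = j then 1 else 0) (hm : Mono M N w)
    (ζ : ℂˣ) (hζ : ‖(ζ : ℂ)‖ = 1) (q : V → ℂˣ) (hq : Gq q) (s t : T) (hst : Λ.graph.Adj s t)
    (hd : Dg (Λ.label s(s, t)) (pz N (gz w ζ q) (cΛ s)) (pz N (gz w ζ q) (cΛ t))) :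
    ¬ Even (Λ.label s(s, t)) ∧ cΛ s = w ∧ cΛ t = w := by
  have h2 := Λ.two_le s(s, t) ((SimpleGraph.mem_edgeSet _).2 hst)
  have hnrm : ‖((pz N (gz w ζ q) (cΛ s) : ℂˣ) : ℂ)‖ * ‖((pz N (gz w ζ q) (cΛ t) : ℂˣ) : ℂ)‖ = 1 :=
    hd.norm h2 fun ho => by rw [comp_eq_of_odd hc hst ho]
  by_cases he : Even (Λ.label s(s, t))
  · exfalso
    have hne : cΛ s ≠ cΛ t := fun h => hN.ev s t hst he ((hc.iff s t).1 h)
    have h3 := CntL_two N w ζ hζ q hq _ _ hnrm
    have h4 : ∀ l, l ≠ w → ((if l = cΛ s then 1 else 0) + (if l = cΛ t then 1 else 0) : ℤ) = 0 := by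
      intro l hl
      rw [← hmn l (cΛ s), ← hmn l (cΛ t), ← Finset.sum_add_distrib]
      refine Finset.sum_eq_zero fun v _ => ?_
      rw [← mul_add]
      by_cases hv : v = w
      · rw [hv, hm.m0 l hl, zero_mul]
      · rw [h3 v hv, mul_zero]
    by_cases hs : cΛ s = w
    · have ht : cΛ t ≠ w := fun h => hne (hs.trans h.symm)
      have h5 := h4 (cΛ t) ht
      rw [if_pos rfl] at h5
      split_ifs at h5 <;> omega
    · have h5 := h4 (cΛ s) hs
      rw [if_pos rfl] at h5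
      split_ifs at h5 <;> omega
  · have h3 : cΛ s = cΛ t := comp_eq_of_odd hc hst he
    have h4 : cΛ s = w := by
      by_contra hne
      rw [← h3] at hnrm
      have h5 : ‖((pz N (gz w ζ q) (cΛ s) : ℂˣ) : ℂ)‖ = 1 := by
        have h6 := norm_nonneg ((pz N (gz w ζ q) (cΛ s) : ℂˣ) : ℂ)
        nlinarith
      exact CntL_ne hmn hm ζ hζ q hq _ hne h5
    exact ⟨he, h4, h3 ▸ h4⟩

theorem cntL : GqEx → SolPhi → CntG → CntL := by
  intro hG hS hC S T V _ _ _ _ Γ Λ cΓ cΛ M N hT hΓ hN w hm d hd h3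
  obtain ⟨q, hq⟩ := hG V
  obtain ⟨ω, hω⟩ := CntL_ex d hd h3
  have hmn := hT.tdr.td.pre.mn
  have hc := hT.tdr.cmΛ
  obtain ⟨c1, c2⟩ := hC S V Γ cΓ hT.tdr.cmΓ hΓ w q hq d ω hω
  have hn1 : ‖((-ω : ℂˣ) : ℂ)‖ = 1 := by rw [Units.val_neg, norm_neg, CntL_normOm hω]
  have hn2 : ‖((-1 : ℂˣ) : ℂ)‖ = 1 := by simp
  have hω1 : ω ≠ 1 := by
    intro h
    have := hω.ord
    rw [h, orderOf_one] at this
    omega
  have hpow : ∀ m : ℕ, ω ^ m = 1 ↔ d ∣ m := fun m => by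
    rw [← orderOf_dvd_iff_pow_eq_one, hω.ord]
  have hneg1 : (-1 : ℂˣ) ≠ 1 := by
    intro h
    have := congrArg Units.val h
    norm_num at this
  have hnegω : (-ω : ℂˣ) ≠ 1 := by
    intro h
    have h1 : ω = -1 := by rw [← h, neg_neg]
    have h4 : ω ^ 2 = 1 := by rw [h1]; simp
    have h5 := Nat.le_of_dvd (by norm_num) ((hpow 2).1 h4)
    omega
  -- the values are not 1
  have hv : ∀ ζ : ℂˣ, ‖(ζ : ℂ)‖ = 1 → ζ ≠ 1 → ∀ v, pz N (gz w ζ q) v ≠ 1 := by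
    intro ζ hζ hζ1 v hv
    by_cases hvw : v = w
    · rw [hvw] at hv
      rcases CntL_w hm ζ q with h | h
      · exact hζ1 (h.symm.trans hv)
      · exact hζ1 (inv_eq_one.1 (h.symm.trans hv))
    · refine CntL_ne hmn hm ζ hζ q hq v hvw ?_
      rw [hv]
      simp
  have e1 : DgE Λ cΛ (pz N (gz w (-ω) q)) = oe Λ cΛ w d := by
    have hw : ∀ m, ¬ Even m → ∀ b, (Dg m (pz N (gz w (-ω) q) w) b ↔ d ∣ m) := by
      intro m hmo b
      unfold Dg
      rcases CntL_w hm (-ω) q with h | h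
      · rw [h, neg_neg, hpow]
        constructor
        · rintro (⟨h1, -⟩ | ⟨-, -, h1⟩)
          · exact absurd h1 hmo
          · exact h1
        · intro h1
          exact Or.inr ⟨hmo, fun h2 => hω1 (neg_injective h2), h1⟩
      · have hh : (-ω : ℂˣ)⁻¹ = -ω⁻¹ := inv_neg
        rw [h, hh, neg_neg, inv_pow, inv_eq_one, hpow]
        constructor
        · rintro (⟨h1, -⟩ | ⟨-, -, h1⟩)
          · exact absurd h1 hmo
          · exact h1
        · intro h1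
          exact Or.inr ⟨hmo, fun h2 => hω1 (inv_eq_one.1 (neg_injective h2)), h1⟩
    ext e
    constructor
    · rintro ⟨s, t, rfl, hst, hdg⟩
      obtain ⟨h1, h2, h4⟩ := CntL_dg hc hN hmn hm (-ω) hn1 q hq s t hst hdg
      refine ⟨(SimpleGraph.mem_edgeSet _).2 hst, h1, ?_, fun x hx => ?_⟩
      · rw [h2] at hdg
        exact (hw _ h1 _).1 hdg
      · rcases Sym2.mem_iff.mp hx with rfl | rfl
        · exact h2
        · exact h4
    · intro he
      induction e using Sym2.ind with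
      | _ s t =>
        obtain ⟨h1, h2, h4, h5⟩ := he
        have hs := h5 s (Sym2.mem_mk_left s t)
        refine ⟨s, t, rfl, (SimpleGraph.mem_edgeSet _).1 h1, ?_⟩
        rw [hs]
        exact (hw _ h2 _).2 h4
  have e2 : DgE Λ cΛ (pz N (gz w (-1) q)) = ∅ := by
    ext e
    simp only [Set.mem_empty_iff_false, iff_false]
    rintro ⟨s, t, rfl, hst, hdg⟩
    obtain ⟨h1, h2, h4⟩ := CntL_dg hc hN hmn hm (-1) hn2 q hq s t hst hdg
    rw [h2] at hdg
    rcases hdg with ⟨h5, -⟩ | ⟨-, h5, -⟩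
    · exact h1 h5
    · refine h5 ?_
      rcases CntL_w hm (-1) q with h | h
      · exact h
      · rw [h]; simp
  have s1 := hS T V Λ cΛ hc _ (hv (-ω) hn1 hnegω)
  have s2 := hS T V Λ cΛ hc _ (hv (-1) hn2 hneg1)
  rw [e1, hT.tdr.chrN, c1] at s1
  rw [e2, hT.tdr.chrN, c2] at s2
  rw [← s1, ← s2]

end WGOdd
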