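import Pool.Agent.Lib.MP_107652_al.Odd.Spec

/-!
# MP_107652_al, THEOREM F: dimension of the functions on one component
-/

set_option autoImplicit false

open Finset

namespace WGOdd

open WGirth WGTwin WGOne WGEven WGBar

/-- Functions constant along the edges of the component are constant on the component. -/
private theorem CompDim_const {T V : Type} {Λ : LGraph T} {c : T → V} (hc : CMap Λ c) {w : V}
    {φ : T → ℂ} (hφ : ∀ s t, Λ.graph.Adj s t → c s = w → c t = w → φ s = φ t) {s t : T}
    (hs : c s = w) (h : SameC Λ s t) : φ s = φ t := by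
  have key : ∀ {a b : T}, (oddGraph Λ).Walk a b → c a = w → c b = w ∧ φ a = φ b := by
    intro a b p
    induction p with
    | nil => exact fun h => ⟨h, rfl⟩
    | cons hadj p ih =>
      intro ha
      rename_i u v x
      have hv : c v = w := by
        rw [← ha]
        exact ((hc.iff u v).2 (SimpleGraph.Adj.reachable hadj)).symm
      obtain ⟨h1, h2⟩ := ih hv
      exact ⟨h1, (hφ u v hadj.1 ha hv).trans h2⟩
  obtain ⟨p⟩ := h
  exact (key p hs).2

open Classical in
/-- The functions on one component which are constant along all edges. -/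
private theorem CompDim_one {T V : Type} (Λ : LGraph T) (c : T → V) (hc : CMap Λ c) (w : V) :
    Module.finrank ℂ (Phi Λ (fun t => c t = w) ∅) = 1 := by
  obtain ⟨t0, ht0⟩ := hc.surj w
  have hne : (fun t => if c t = w then (1 : ℂ) else 0) ≠ 0 := by
    intro h
    have := congrFun h t0
    simp [ht0] at this
  have hspan : Phi Λ (fun t => c t = w) ∅ =
      Submodule.span ℂ {(fun t => if c t = w then (1 : ℂ) else 0)} := by
    apply le_antisymm
    · intro φ hφ
      obtain ⟨h1, h2⟩ := mem_Phi.1 hφ
      rw [Submodule.mem_span_singleton]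
      refine ⟨φ t0, ?_⟩
      funext t
      rw [Pi.smul_apply, smul_eq_mul]
      by_cases ht : c t = w
      · rw [if_pos ht, mul_one]
        exact CompDim_const hc
          (fun a b hab ha hb => h2 a b hab ha hb (Set.notMem_empty _)) ht0
          ((hc.iff t0 t).1 (ht0.trans ht.symm))
      · rw [if_neg ht, mul_zero, h1 t ht]
    · rw [Submodule.span_singleton_le_iff_mem, mem_Phi]
      refine ⟨fun s hs => if_neg hs, fun s t _ hs ht _ => ?_⟩
      rw [if_pos hs, if_pos ht]
  rw [hspan]
  exact finrank_span_singleton hne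

open Classical in
theorem compDim : PhiBr → CompDim := by
  intro hPhiBr T V _ _ _ Λ c hc hN w d
  have h := hPhiBr T Λ (fun t => c t = w) (oe Λ c w d) ?_
  · rw [h, CompDim_one Λ c hc w]
  intro e he
  obtain ⟨he1, he2, _, he4⟩ := he
  induction e using Sym2.ind with
  | _ s0 t0 =>
    have hadj : Λ.graph.Adj s0 t0 := he1
    have hs0 : c s0 = w := he4 s0 (Sym2.mem_mk_left s0 t0)
    have ht0 : c t0 = w := he4 t0 (Sym2.mem_mk_right s0 t0)
    obtain ⟨col, hcol, hcol2⟩ := hN.br s0 t0 ⟨hadj, he2⟩
    refine ⟨s0, t0, rfl, hadj, hs0, ht0,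
      fun t => if c t = w ∧ col t = col s0 then (1 : ℂ) else 0, ?_, ?_⟩
    · rw [mem_Phi]
      refine ⟨fun s hs => if_neg fun h => hs h.1, fun s t hst hs ht hne => ?_⟩
      have hodd : ¬ Even (Λ.label s(s, t)) := fun hev =>
        hN.ev s t hst hev ((hc.iff s t).1 ((hs : c s = w).trans (ht : c t = w).symm))
      have hc' : col s = col t := hcol2 s t ⟨hst, hodd⟩ fun h => hne h
      change (if c s = w ∧ col s = col s0 then (1 : ℂ) else 0) =
        if c t = w ∧ col t = col s0 then (1 : ℂ) else 0
      rw [hc', show c s = w from hs, show c t = w from ht]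
    · change (if c s0 = w ∧ col s0 = col s0 then (1 : ℂ) else 0) ≠
        if c t0 = w ∧ col t0 = col s0 then (1 : ℂ) else 0
      rw [if_pos ⟨hs0, rfl⟩, if_neg fun h => hcol h.2.symm]
      exact one_ne_zero

end WGOdd
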