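import Pool.Agent.Lib.MP_107652_al.Odd.Spec
import Pool.Agent.Lib.MP_107652_al.One.Kill
import Pool.Agent.Lib.MP_107652_al.One.NrmE

/-!
# MP_107652_al, THEOREM F, module Desc: a cocycle which is constant on all components
-/

set_option autoImplicit false

open Finset

namespace WGOdd

open WGirth WGTwin WGOne WGEven WGBar

private theorem Desc_walk {S V : Type} (Γ : LGraph S) (c : S → V) (hc : CMap Γ c)
    (y : V → ℂˣ) (b : S → ℂ) (hb : b ∈ Sol Γ (fun s => y (c s))) (u v : S)
    (p : (oddGraph Γ).Walk u v) : ‖(y (c u) : ℂ)‖ ≠ 1 → b u = b v := by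
  induction p with
  | nil => intro _; rfl
  | @cons u u' v h p ih =>
    intro hn
    have hcc : c u = c u' := (hc.iff u u').2 h.reachable
    have hrel : RelE (Γ.label s(u, u')) (y (c u)) (y (c u')) (b u) (b u') := hb u u' h.1
    unfold RelE at hrel
    rw [if_neg h.2] at hrel
    have hm : 1 ≤ Γ.label s(u, u') :=
      le_trans (by norm_num) (Γ.two_le s(u, u') h.1)
    have hne := nrmE.2 (y (c u)) (Γ.label s(u, u')) hm hn
    have h0 := (mul_eq_zero.1 hrel).resolve_left hne
    rw [sub_eq_zero.1 h0]
    exact ih (by rw [← hcc]; exact hn)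

/-- Module Desc. -/
theorem desc : Desc := by
  intro S V _ _ _ Γ c hc y w hu b hb
  rw [mem_SolW] at hb
  have key : ∀ s t, c s = c t → b s = b t := by
    intro s t hst
    by_cases hw : c s = w
    · exact hb.2 s t hw (hst ▸ hw)
    · rcases hu (c s) hw with h | h | h
      · rw [h s t rfl hst.symm]
      · refine (kill nrmE S Γ _ b hb.1).2 s t ((hc.iff s t).1 hst) fun u hu' => ?_
        show y (c u) = 1
        rw [← (hc.iff s u).2 hu', h]
      · obtain ⟨p⟩ := (hc.iff s t).1 hst
        exact Desc_walk Γ c hc y b hb.1 s t p h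
  refine ⟨fun v => b (Function.surjInv hc.surj v), ?_⟩
  funext s
  exact key s _ (Function.surjInv_eq hc.surj (c s)).symm

end WGOdd
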