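import Pool.Agent.Lib.MP_107652_al.Odd.Spec
import Pool.Agent.Lib.MP_107652_al.One.SpecB

/-!
# MP_107652_al, THEOREM F: the data of an isomorphism with an even graph imply evenness
-/

set_option autoImplicit false

open Finset

namespace WGOdd

open WGirth WGTwin WGOne WGEven WGBar

theorem evenDat : ConeEx → ConeThm → EvenDat := by
  classical
  intro hCone hThm V S _ _ _ _ Γ Λ comp M N hD
  by_contra hne
  have hex : ∃ s t, (oddGraph Λ).Adj s t := by
    by_contra hcon
    push Not at hcon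
    refine hne fun s t hst => ?_
    by_contra hodd
    exact hcon s t ⟨hst, hodd⟩
  obtain ⟨s1, t1, h1⟩ := hex
  obtain ⟨p, hp, hmin⟩ := Finset.exists_min_image
    (univ.filter fun p : S × S => (oddGraph Λ).Adj p.1 p.2)
    (fun p => Nat.card {w // w = comp p.1 ∨ Γ.graph.Adj (comp p.1) w})
    ⟨(s1, t1), mem_filter.2 ⟨mem_univ _, h1⟩⟩
  have hp' : (oddGraph Λ).Adj p.1 p.2 := (mem_filter.1 hp).2
  obtain ⟨comp', M', N', C', hC⟩ := hCone V S Γ Λ comp M N hD p.1 p.2 hp'
    fun s t hst => hmin (s, t) (mem_filter.2 ⟨mem_univ _, hst⟩)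
  exact hThm _ _ _ _ comp' M' N' C' hC

end WGOdd
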