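import Pool.Agent.Lib.MP_107652_al.Odd.Spec
import Pool.Agent.Lib.MP_107652_al.One.NrmE
import Pool.Agent.Lib.MP_107652_al.One.Kill

/-!
# MP_107652_al, THEOREM F: characters which are 1 on some components
-/

set_option autoImplicit false

open Finset

namespace WGOdd

open WGirth WGTwin WGOne WGEven WGBar

private theorem ExtOne_left {m : ℕ} (hm : Even m) (a x y : ℂ) :
    RelE m 1 a x y ↔ (1 - a ^ (m / 2)) * x = 0 := by
  unfold RelE
  rw [if_pos hm]
  have h1 := geom_sum_mul a (m / 2)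
  have h2 : (∑ i ∈ range (m / 2), (1 * a) ^ i) * ((1 - a) * x - (1 - 1) * y) =
      (1 - a ^ (m / 2)) * x := by
    simp only [one_mul]
    linear_combination (-x) * h1
  rw [h2]

private theorem ExtOne_right {m : ℕ} (hm : Even m) (a x y : ℂ) :
    RelE m a 1 x y ↔ (1 - a ^ (m / 2)) * y = 0 := by
  unfold RelE
  rw [if_pos hm]
  have h1 := geom_sum_mul a (m / 2)
  have h2 : (∑ i ∈ range (m / 2), (a * 1) ^ i) * ((1 - 1) * x - (1 - a) * y) =
      -((1 - a ^ (m / 2)) * y) := by
    simp only [mul_one]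
    linear_combination y * h1
  rw [h2, neg_eq_zero]

/-- the set of the components which are not killed -/
private def ExtOne_X {T V : Type} [Fintype T] (Λ : LGraph T) (c : T → V) (z : V → ℂˣ)
    (P : V → Prop) : Set V :=
  {w | P w ∧ ∀ v, ¬ P v → (bar Λ c).graph.Adj w v → z v ^ half (bar Λ c) w v = 1}

private theorem ExtOne_kill {T V : Type} [Fintype T] {Λ : LGraph T} {c : T → V}
    (hc : CMap Λ c) {z : V → ℂˣ} {P : V → Prop} (hP : ∀ v, P v → z v = 1) {b : T → ℂ}
    (hb : b ∈ Sol Λ (fun t => z (c t))) {t : T} (ht : P (c t)) (hX : c t ∉ ExtOne_X Λ c z P) :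
    b t = 0 := by
  have hconst : ∀ s, c t = c s → b t = b s := fun s hs =>
    (kill nrmE T Λ _ b hb).2 t s ((hc.iff t s).1 hs) fun u hu => by
      rw [← (hc.iff t u).2 hu]
      exact hP _ ht
  have h1 : ∃ v, ¬ P v ∧ (bar Λ c).graph.Adj (c t) v ∧ z v ^ half (bar Λ c) (c t) v ≠ 1 := by
    by_contra hcon
    push Not at hcon
    exact hX ⟨ht, fun v hv hadj => hcon v hv hadj⟩
  obtain ⟨v, hv, hadj, hne⟩ := h1
  have h2 : ∃ s u, c s = c t ∧ c u = v ∧ Λ.graph.Adj s u ∧ z v ^ (Λ.label s(s, u) / 2) ≠ 1 := by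
    by_contra hcon
    push Not at hcon
    refine hne (orderOf_dvd_iff_pow_eq_one.1 (dvd_bar_half Λ c (c t) v _ fun s u hs hu hsu => ?_))
    exact orderOf_dvd_iff_pow_eq_one.2 (hcon s u hs hu hsu)
  obtain ⟨s, u, hs, hu, hsu, hne'⟩ := h2
  have he : Even (Λ.label s(s, u)) := by
    by_contra ho
    have h3 := comp_eq_of_odd hc hsu ho
    exact hv (by rw [← hu, ← h3, hs]; exact ht)
  have h4 := hb s u hsu
  simp only at h4
  rw [hs, hP _ ht, Units.val_one, ExtOne_left he, hu] at h4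
  rcases mul_eq_zero.1 h4 with h5 | h5
  · exfalso
    refine hne' (Units.ext ?_)
    rw [Units.val_pow_eq_pow_val, Units.val_one]
    exact (sub_eq_zero.1 h5).symm
  · rw [hconst s hs.symm, h5]

private theorem ExtOne_mem {T V : Type} [Fintype T] {Λ : LGraph T} {c : T → V}
    (hc : CMap Λ c) {z : V → ℂˣ} {P : V → Prop} (hP : ∀ v, P v → z v = 1) {b : T → ℂ}
    (h1 : ∀ s t, Λ.graph.Adj s t → ¬ P (c s) → ¬ P (c t) →
      RelE (Λ.label s(s, t)) (z (c s)) (z (c t)) (b s) (b t))
    (h2 : ∀ s t, c s = c t → P (c s) → b s = b t)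
    (h3 : ∀ s, P (c s) → c s ∉ ExtOne_X Λ c z P → b s = 0) :
    b ∈ Sol Λ (fun t => z (c t)) := by
  have hmix : ∀ s t, Λ.graph.Adj s t → P (c s) → ¬ P (c t) → Even (Λ.label s(s, t)) ∧
      (1 - (z (c t) : ℂ) ^ (Λ.label s(s, t) / 2)) * b s = 0 := by
    intro s t hst hs ht
    have he : Even (Λ.label s(s, t)) := by
      by_contra ho
      exact ht (comp_eq_of_odd hc hst ho ▸ hs)
    refine ⟨he, ?_⟩
    by_cases hX : c s ∈ ExtOne_X Λ c z P
    · have hadj : (bar Λ c).graph.Adj (c s) (c t) :=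
        (bar_adj Λ c _ _).2 ⟨fun h => ht (h ▸ hs), s, t, rfl, rfl, hst⟩
      have h4 := hX.2 (c t) ht hadj
      obtain ⟨n, hn⟩ := bar_half_dvd Λ c hst
      have h5 : (z (c t) : ℂ) ^ (Λ.label s(s, t) / 2) = 1 := by
        rw [hn, pow_mul]
        have := congrArg Units.val h4
        rw [Units.val_pow_eq_pow_val, Units.val_one] at this
        rw [this, one_pow]
      rw [h5, sub_self, zero_mul]
    · rw [h3 s hs hX, mul_zero]
  intro s t hst
  simp only
  by_cases hs : P (c s)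
  · by_cases ht : P (c t)
    · rw [hP _ hs, hP _ ht, Units.val_one]
      by_cases he : Even (Λ.label s(s, t))
      · rw [ExtOne_left he, one_pow, sub_self, zero_mul]
      · unfold RelE
        rw [if_neg he, h2 s t (comp_eq_of_odd hc hst he) hs, sub_self, mul_zero]
    · obtain ⟨he, h4⟩ := hmix s t hst hs ht
      rw [hP _ hs, Units.val_one, ExtOne_left he]
      exact h4
  · by_cases ht : P (c t)
    · obtain ⟨he, h4⟩ := hmix t s hst.symm ht hs
      rw [Sym2.eq_swap] at he h4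
      rw [hP _ ht, Units.val_one, ExtOne_right he]
      exact h4
    · exact h1 s t hst hs ht

theorem extOne : ExtOne := by
  classical
  intro T V _ _ _ Λ c hc z P hP
  have hr : ∀ v, ∃ t, c t = v := hc.surj
  choose r hr using hr
  show _ = _ + (ExtOne_X Λ c z P).ncard
  obtain ⟨f, hf⟩ : ∃ f : Sol Λ (fun t => z (c t)) →ₗ[ℂ]
      (Sol (sub Λ (fun t => ¬ P (c t))) (fun t => z (c t.1))) × (ExtOne_X Λ c z P → ℂ),
      ∀ b, (∀ t : {t // ¬ P (c t)}, (f b).1.1 t = b.1 t.1) ∧ ∀ w, (f b).2 w = b.1 (r w.1) := by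
    refine ⟨LinearMap.prod
      { toFun := fun b => ⟨fun t => b.1 t.1, fun s t hst => b.2 s.1 t.1 hst⟩
        map_add' := fun b b' => rfl
        map_smul' := fun a b => rfl }
      { toFun := fun b w => b.1 (r w.1)
        map_add' := fun b b' => rfl
        map_smul' := fun a b => rfl }, fun b => ⟨fun t => rfl, fun w => rfl⟩⟩
  have hconst : ∀ b ∈ Sol Λ (fun t => z (c t)), ∀ t s, P (c t) → c t = c s → b t = b s :=
    fun b hb t s ht hs => (kill nrmE T Λ _ b hb).2 t s ((hc.iff t s).1 hs) fun u hu => by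
      rw [← (hc.iff t u).2 hu]
      exact hP _ ht
  have hinj : Function.Injective f := by
    rw [injective_iff_map_eq_zero]
    intro b hb
    ext t
    show b.1 t = 0
    by_cases ht : P (c t)
    · by_cases hX : c t ∈ ExtOne_X Λ c z P
      · have h1 := (hf b).2 ⟨c t, hX⟩
        rw [hb] at h1
        rw [hconst b.1 b.2 t (r (c t)) ht (hr (c t)).symm, ← h1]
        rfl
      · exact ExtOne_kill hc hP b.2 ht hX
    · have h1 := (hf b).1 ⟨t, ht⟩
      rw [hb] at h1
      rw [← h1]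
      rfl
  have hsurj : Function.Surjective f := by
    rintro ⟨b', g⟩
    obtain ⟨b, hb⟩ : ∃ b : T → ℂ, b = fun t => if h : P (c t) then
      (if hX : c t ∈ ExtOne_X Λ c z P then g ⟨c t, hX⟩ else 0) else b'.1 ⟨t, h⟩ := ⟨_, rfl⟩
    have hmem : b ∈ Sol Λ (fun t => z (c t)) := by
      refine ExtOne_mem hc hP ?_ ?_ ?_
      · intro s t hst hs ht
        rw [hb]
        simp only [dif_neg hs, dif_neg ht]
        exact b'.2 ⟨s, hs⟩ ⟨t, ht⟩ hst
      · intro s t hst hs
        rw [hb]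
        simp only [dif_pos hs, dif_pos (hst ▸ hs : P (c t)), hst]
      · intro s hs hX
        rw [hb]
        simp only [dif_pos hs, dif_neg hX]
    refine ⟨⟨b, hmem⟩, ?_⟩
    obtain ⟨h1, h2⟩ := hf ⟨b, hmem⟩
    refine Prod.ext (Subtype.ext (funext fun t => ?_)) (funext fun w => ?_)
    · rw [h1 t]
      show b t.1 = _
      rw [hb]
      simp only [dif_neg t.2]
    · rw [h2 w]
      show b (r w.1) = _
      rw [hb]
      have h3 : c (r w.1) = w.1 := hr w.1
      have h4 : P (c (r w.1)) := by rw [h3]; exact w.2.1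
      have h5 : c (r w.1) ∈ ExtOne_X Λ c z P := by rw [h3]; exact w.2
      simp only [dif_pos h4, dif_pos h5]
      congr 1
      exact Subtype.ext h3
  have e := LinearEquiv.ofBijective f ⟨hinj, hsurj⟩
  rw [e.finrank_eq, Module.finrank_prod, Module.finrank_fintype_fun_eq_card,
    Set.ncard_eq_toFinset_card', Set.toFinset_card]

end WGOdd
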