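import Pool.Agent.Lib.MP_107652_al.Odd.Spec

/-!
# MP_107652_al, THEOREM F: a second cocycle for a modified character, second case
-/

set_option autoImplicit false

open Finset

namespace WGOdd

open WGirth WGTwin WGOne WGEven WGBar

/-- Two elements with a nonzero determinant. -/
private theorem GamAlpha_two {S : Type} [Fintype S] (W : Submodule ℂ (S → ℂ)) {b b' : S → ℂ}
    (hb : b ∈ W) (hb' : b' ∈ W) {s t : S} (hdet : b s * b' t - b t * b' s ≠ 0) :
    2 ≤ Module.finrank ℂ W := by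
  have hli : LinearIndependent ℂ ![(⟨b, hb⟩ : W), ⟨b', hb'⟩] := by
    rw [LinearIndependent.pair_iff]
    intro a a' h
    have h1 : a • b + a' • b' = 0 := congrArg Subtype.val h
    have hs := congrFun h1 s
    have ht := congrFun h1 t
    simp only [Pi.add_apply, Pi.smul_apply, smul_eq_mul, Pi.zero_apply] at hs ht
    constructor
    · have h2 : a * (b s * b' t - b t * b' s) = 0 := by
        linear_combination b' t * hs - b' s * ht
      exact (mul_eq_zero.mp h2).resolve_right hdet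
    · have h2 : a' * (b s * b' t - b t * b' s) = 0 := by
        linear_combination b s * ht - b t * hs
      exact (mul_eq_zero.mp h2).resolve_right hdet
  have := hli.fintype_card_le_finrank
  simpa using this

/-- The coboundary cut off to a set `Z` of components. -/
private theorem GamAlpha_cut {S V : Type} {Γ : LGraph S} {c : S → V} (hc : CMap Γ c)
    (y : V → ℂˣ) (Z : V → Prop) [DecidablePred Z]
    (h : ∀ s t, Γ.graph.Adj s t → Z (c s) → ¬ Z (c t) → Even (Γ.label s(s, t)) →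
      (y (c s) : ℂ) = 1 ∨ (y (c t) : ℂ) = 1 ∨
        ∑ i ∈ range (Γ.label s(s, t) / 2), ((y (c s) : ℂ) * y (c t)) ^ i = 0) :
    (fun s => if Z (c s) then 1 - (y (c s) : ℂ) else 0) ∈ Sol Γ (fun s => y (c s)) := by
  rw [mem_Sol]
  intro s t hst
  unfold RelE
  by_cases hm : Even (Γ.label s(s, t))
  · rw [if_pos hm]
    by_cases h1 : Z (c s) <;> by_cases h2 : Z (c t)
    · simp only [h1, h2, if_true]
      ring
    · simp only [h1, h2, if_true, if_false]
      rcases h s t hst h1 h2 hm with h3 | h3 | h3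
      · rw [h3]; ring
      · rw [h3]; ring
      · rw [h3]; ring
    · simp only [h1, h2, if_true, if_false]
      have hm' : Even (Γ.label s(t, s)) := by rw [Sym2.eq_swap]; exact hm
      rcases h t s hst.symm h2 h1 hm' with h3 | h3 | h3
      · rw [h3]; ring
      · rw [h3]; ring
      · rw [Sym2.eq_swap] at h3
        rw [mul_comm (y (c s) : ℂ), h3]
        ring
    · simp only [h1, h2, if_false]
      ring
  · rw [if_neg hm, comp_eq_of_odd hc hst hm]
    ring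

private theorem GamAlpha_two_ne {e : ℤ} {x : ℂ} (hx : ‖x‖ = (3 : ℝ) ^ e) {d : ℤ} (hd : d ≠ 0) :
    x * ((u2 ^ d : ℂˣ) : ℂ) ≠ 1 := by
  intro h
  have h1 := congrArg norm h
  rw [norm_mul, hx, norm_u2, norm_one, mul_comm] at h1
  exact hd (two_three h1).1

theorem gamAlpha : GamAlpha := by
  classical
  intro S V _ _ _ Γ c hc hev y w hcone hnorm hyw β hβ hβ0 hκ
  have hyw' : (1 : ℂ) - (y w : ℂ) ≠ 0 := by
    intro h
    exact hyw (Units.ext (by rw [Units.val_one]; linear_combination -h))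
  obtain ⟨κ, hκd⟩ : ∃ κ : ℂ, κ * (1 - (y w : ℂ)) = β w :=
    ⟨β w / (1 - (y w : ℂ)), div_mul_cancel₀ _ hyw'⟩
  obtain ⟨S2, hS2⟩ : ∃ S2 : V → Prop, S2 = fun v => y v ≠ 1 ∧ β v ≠ κ * (1 - (y v : ℂ)) :=
    ⟨_, rfl⟩
  have hS2i : ∀ v, S2 v ↔ y v ≠ 1 ∧ β v ≠ κ * (1 - (y v : ℂ)) := fun v => by rw [hS2]
  have hex : ∃ v, S2 v := by
    obtain ⟨v, hv⟩ := hκ κ
    refine ⟨v, (hS2i v).mpr ⟨fun h => hv ?_, hv⟩⟩
    rw [hβ0 v h, h, Units.val_one]
    ring
  have hwS : ¬ S2 w := fun h => ((hS2i w).mp h).2 hκd.symm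
  obtain ⟨d', hd'⟩ : ∃ d' : V → ℤ, d' = fun v => if S2 v then -1 else
    if y v ≠ 1 ∧ ∃ j, S2 j ∧ (bar Γ c).graph.Adj v j then 1 else 0 := ⟨_, rfl⟩
  have hdS : ∀ v, S2 v → d' v = -1 := by
    intro v h
    rw [hd']
    simp only [h, if_true]
  have hd1 : ∀ v, ¬ S2 v → y v ≠ 1 → (∃ j, S2 j ∧ (bar Γ c).graph.Adj v j) → d' v = 1 := by
    intro v h1 h2 h3
    rw [hd']
    simp only [h1, if_false]
    rw [if_pos ⟨h2, h3⟩]
  have hd0 : ∀ v, y v = 1 → d' v = 0 := by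
    intro v h1
    have h2 : ¬ S2 v := fun h => ((hS2i v).mp h).1 h1
    rw [hd']
    simp only [h2, if_false]
    rw [if_neg (fun h => h.1 h1)]
  obtain ⟨j0, hj0⟩ := hex
  have hjw : j0 ≠ w := fun h => hwS (h ▸ hj0)
  have hdw : d' w = 1 := hd1 w hwS hyw ⟨j0, hj0, hcone j0 hjw⟩
  refine ⟨d', Or.inl hdw, ?_⟩
  have hval : ∀ v, ((zr y u2 d' v : ℂˣ) : ℂ) = (y v : ℂ) * ((u2 ^ d' v : ℂˣ) : ℂ) := fun v => by
    unfold zr
    rw [Units.val_mul]
  have hu2 : ((u2 : ℂˣ) : ℂ) = 2 := rfl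
  have hy'1 : ∀ v, y v = 1 → ((zr y u2 d' v : ℂˣ) : ℂ) = 1 := by
    intro v h2
    rw [hval, hd0 v h2, h2, zpow_zero, Units.val_one, one_mul]
  have hy'n : ∀ v, d' v ≠ 0 → ((zr y u2 d' v : ℂˣ) : ℂ) ≠ 1 := by
    intro v hv
    obtain ⟨e, he⟩ := hnorm v
    rw [hval]
    exact GamAlpha_two_ne he hv
  have hy'w := hy'n w (by rw [hdw]; norm_num)
  have hy'j := hy'n j0 (by rw [hdS j0 hj0]; norm_num)
  -- the geometric sums
  have hsum : ∀ s t, Γ.graph.Adj s t → S2 (c s) → ¬ S2 (c t) → y (c t) ≠ 1 →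
      Even (Γ.label s(s, t)) →
      ∑ i ∈ range (Γ.label s(s, t) / 2),
        (((zr y u2 d' (c s) : ℂˣ) : ℂ) * ((zr y u2 d' (c t) : ℂˣ) : ℂ)) ^ i = 0 := by
    intro s t hst h1 h2 h3 hm
    have hne : c t ≠ c s := fun h => h2 (h ▸ h1)
    have hadj' : (bar Γ c).graph.Adj (c t) (c s) :=
      (bar_adj Γ c (c t) (c s)).mpr ⟨hne, t, s, rfl, rfl, hst.symm⟩
    have hprod : ((zr y u2 d' (c s) : ℂˣ) : ℂ) * ((zr y u2 d' (c t) : ℂˣ) : ℂ) =
        (y (c s) : ℂ) * (y (c t) : ℂ) := by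
      rw [hval, hval, hdS (c s) h1, hd1 (c t) h2 h3 ⟨c s, h1, hadj'⟩, zpow_neg, zpow_one,
        Units.val_inv_eq_inv_val, hu2]
      ring
    rw [hprod]
    have h4 := (mem_Sol.mp hβ) s t hst
    unfold RelE at h4
    rw [if_pos hm] at h4
    rcases mul_eq_zero.mp h4 with h5 | h5
    · exact h5
    · exfalso
      have hct : β (c t) = κ * (1 - (y (c t) : ℂ)) := by
        by_contra h6
        exact h2 ((hS2i (c t)).mpr ⟨h3, h6⟩)
      rw [hct] at h5
      have h6 : (1 - (y (c t) : ℂ)) * (β (c s) - κ * (1 - (y (c s) : ℂ))) = 0 := by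
        linear_combination h5
      rcases mul_eq_zero.mp h6 with h7 | h7
      · exact h3 (Units.ext (by rw [Units.val_one]; linear_combination -h7))
      · exact ((hS2i (c s)).mp h1).2 (sub_eq_zero.mp h7)
  have hb1 : (fun s => if S2 (c s) then 1 - ((zr y u2 d' (c s) : ℂˣ) : ℂ) else 0) ∈
      Sol Γ (fun s => zr y u2 d' (c s)) := by
    refine GamAlpha_cut hc (zr y u2 d') S2 ?_
    intro s t hst h1 h2 hm
    by_cases h3 : y (c t) = 1
    · exact Or.inr (Or.inl (hy'1 (c t) h3))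
    · exact Or.inr (Or.inr (hsum s t hst h1 h2 h3 hm))
  have hb0 : (fun s => if True then 1 - ((zr y u2 d' (c s) : ℂˣ) : ℂ) else 0) ∈
      Sol Γ (fun s => zr y u2 d' (c s)) :=
    GamAlpha_cut hc (zr y u2 d') (fun _ => True) fun s t _ _ h2 _ => absurd trivial h2
  obtain ⟨sj, hsj⟩ := hc.surj j0
  obtain ⟨sw, hsw⟩ := hc.surj w
  refine GamAlpha_two _ hb1 hb0 (s := sj) (t := sw) ?_
  simp only [hsj, hsw, if_true, hj0, hwS, if_false]
  intro h
  have h1 : (1 - ((zr y u2 d' j0 : ℂˣ) : ℂ)) * (1 - ((zr y u2 d' w : ℂˣ) : ℂ)) = 0 := by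
    linear_combination h
  rcases mul_eq_zero.mp h1 with h2 | h2
  · exact hy'j (by linear_combination -h2)
  · exact hy'w (by linear_combination -h2)

end WGOdd
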