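import Pool.Agent.Lib.MP_107652_al.Odd.Spec

/-!
# MP_107652_al, THEOREM F: the two cases together (module GamStep)
-/

set_option autoImplicit false

open Finset

namespace WGOdd

open WGirth WGTwin WGOne WGEven WGBar

private theorem b0_mem {S V : Type} (Γ : LGraph S) (c : S → V) (hc : CMap Γ c) (y : V → ℂˣ)
    (w : V) : (fun s => 1 - (y (c s) : ℂ)) ∈ SolW Γ c y w := by
  rw [mem_SolW]
  refine ⟨fun s t hst => ?_, fun s t hs ht => ?_⟩
  · unfold RelE
    split_ifs with hm
    · ring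
    · have h1 : c s = c t := comp_eq_of_odd hc hst hm
      simp only [h1, sub_self, mul_zero]
  · simp only [hs, ht]

theorem gamStep : Desc → GamBeta → GamAlpha → GamStep := by
  intro hD hB hA S V _ _ _ Γ c hc hev y w hadj hn hyw hU h2
  obtain ⟨s0, hs0⟩ := hc.surj w
  have hb0 := b0_mem Γ c hc y w
  have hex : ∃ b ∈ SolW Γ c y w, ∀ κ : ℂ, b ≠ κ • (fun s => 1 - (y (c s) : ℂ)) := by
    by_contra hcon
    push Not at hcon
    have h3 : Module.finrank ℂ (SolW Γ c y w) ≤ 1 := by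
      refine finrank_le_one (⟨_, hb0⟩ : SolW Γ c y w) ?_
      rintro ⟨b, hb⟩
      obtain ⟨κ, hκ⟩ := hcon b hb
      exact ⟨κ, Subtype.ext hκ.symm⟩
    omega
  obtain ⟨b, hb, hne⟩ := hex
  obtain ⟨β, rfl⟩ := hD S V Γ c hc y w hU b hb
  have hsol := (mem_SolW.mp hb).1
  by_cases h : ∃ u, y u = 1 ∧ β u ≠ 0
  · obtain ⟨u, hu, hβ⟩ := h
    exact hB S V Γ c hc hev y w hadj hn hyw β hsol u hu hβ
  · push Not at h
    refine hA S V Γ c hc hev y w hadj hn hyw β hsol h fun κ => ?_
    by_contra hcon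
    push Not at hcon
    refine hne κ ?_
    funext s
    simp only [Pi.smul_apply, smul_eq_mul]
    exact hcon (c s)

end WGOdd
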