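import Pool.Agent.Lib.MP_107652_al.Odd.Spec
import Pool.Agent.Lib.MP_107652_al.Even.PrimeEx

/-!
# MP_107652_al, THEOREM F: numbers with multiplicatively independent absolute values
-/

set_option autoImplicit false

open Finset

namespace WGOdd

open WGirth WGTwin WGOne WGEven WGBar

theorem gqEx : GqEx := by
  intro V _ _
  obtain ⟨q, hq, h⟩ := primeEx V
  refine ⟨fun v => Units.mk0 ((q v : ℝ) : ℂ) (by exact_mod_cast (hq v).ne'), ?_⟩
  intro b hb
  have h1 : ∀ v, ‖((Units.mk0 ((q v : ℝ) : ℂ) (by exact_mod_cast (hq v).ne') : ℂˣ) : ℂ)‖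
      = q v := by
    intro v
    rw [Units.val_mk0, Complex.norm_real, Real.norm_of_nonneg (hq v).le]
  have h2 : (2 : ℝ) ^ (0 : ℤ) * ∏ v, (q v) ^ (b v) = 1 := by
    rw [zpow_zero, one_mul, ← hb]
    exact Finset.prod_congr rfl fun v _ => by rw [h1 v]
  exact (h 0 b h2).2

end WGOdd
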