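import Pool.Agent.Lib.MP_107652_al.Odd.Spec

/-!
# MP_107652_al, Odd: the data of the unmatched components
-/

set_option autoImplicit false

open Finset

namespace WGOdd

open WGirth WGTwin WGOne WGEven WGBar

/-- a path of odd edges stays in the component -/
private theorem lift_walk {T V : Type} {Λ : LGraph T} {c : T → V} (hc : CMap Λ c) (P : V → Prop)
    {s t : T} (p : (oddGraph Λ).Walk s t) : ∀ (hs : P (c s)) (ht : P (c t)),
    SameC (sub Λ (fun t => P (c t))) ⟨s, hs⟩ ⟨t, ht⟩ := by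
  induction p with
  | nil => exact fun _ _ => SimpleGraph.Reachable.refl _
  | @cons u v w h q ih =>
    intro hs ht
    have h1 : c u = c v := comp_eq_of_odd hc h.1 h.2
    have hv : P (c v) := h1 ▸ hs
    have h2 : (oddGraph (sub Λ (fun t => P (c t)))).Adj ⟨u, hs⟩ ⟨v, hv⟩ := h
    exact (SimpleGraph.Adj.reachable h2).trans (ih hv ht)

private theorem same_iff {T V : Type} {Λ : LGraph T} {c : T → V} (hc : CMap Λ c) (P : V → Prop)
    (s t : {t // P (c t)}) : SameC (sub Λ (fun t => P (c t))) s t ↔ SameC Λ s.1 t.1 := by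
  constructor
  · intro h
    exact SimpleGraph.Reachable.map
      (⟨Subtype.val, fun h => h⟩ : oddGraph (sub Λ (fun t => P (c t))) →g oddGraph Λ) h
  · rintro ⟨p⟩
    exact lift_walk hc P p s.2 t.2

private theorem cmap_sub {T V : Type} {Λ : LGraph T} {c : T → V} (hc : CMap Λ c) (P : V → Prop) :
    CMap (sub Λ (fun t => P (c t))) (fun t => (⟨c t.1, t.2⟩ : {v // P v})) := by
  constructor
  · rintro ⟨v, hv⟩
    obtain ⟨t, rfl⟩ := hc.surj v
    exact ⟨⟨t, hv⟩, rfl⟩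
  · intro s t
    rw [same_iff hc P s t, ← hc.iff s.1 t.1]
    exact Subtype.mk.injEq _ _ _ _ |>.to_iff

private theorem nice_sub {T V : Type} {Λ : LGraph T} {c : T → V} (hc : CMap Λ c) (P : V → Prop)
    (hn : Nice Λ) : Nice (sub Λ (fun t => P (c t))) := by
  constructor
  · intro s t hst he h
    exact hn.ev s.1 t.1 hst he ((same_iff hc P s t).1 h)
  · intro s0 t0 h0
    obtain ⟨col, h1, h2⟩ := hn.br s0.1 t0.1 h0
    refine ⟨fun s => col s.1, h1, fun s t hst hne => h2 s.1 t.1 hst fun h3 => hne ?_⟩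
    rcases Sym2.eq_iff.mp h3 with ⟨h4, h5⟩ | ⟨h4, h5⟩
    · exact Sym2.eq_iff.mpr (Or.inl ⟨Subtype.ext h4, Subtype.ext h5⟩)
    · exact Sym2.eq_iff.mpr (Or.inr ⟨Subtype.ext h4, Subtype.ext h5⟩)
  · intro s t s' t' hst hst' h1 h2 h3 h4
    have h5 := hn.un s.1 t.1 s'.1 t'.1 hst hst' ((same_iff hc P s s').1 h1)
      ((same_iff hc P t t').1 h2) (fun h => h3 ((same_iff hc P s t).2 h)) h4
    exact ⟨Subtype.ext h5.1, Subtype.ext h5.2⟩

private theorem sum_sub {V : Type} [Fintype V] (P : V → Prop) [Fintype {v // ¬ P v}]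
    (f : V → ℤ) (hf : ∀ v, P v → f v = 0) : ∑ v : {v // ¬ P v}, f v.1 = ∑ v, f v := by
  classical
  rw [← Finset.sum_subtype (univ.filter fun v => ¬ P v) (fun v => by simp) f]
  refine Finset.sum_filter_of_ne fun v _ hv hP => hv (hf v hP)

private theorem prod_sub {V : Type} [Fintype V] (P : V → Prop) [Fintype {v // ¬ P v}]
    (f : V → ℂˣ) (hf : ∀ v, P v → f v = 1) : ∏ v : {v // ¬ P v}, f v.1 = ∏ v, f v := by
  classical
  rw [← Finset.prod_subtype (univ.filter fun v => ¬ P v) (fun v => by simp) f]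
  refine Finset.prod_filter_of_ne fun v _ hv hP => hv (hf v hP)

theorem kDat : ExtOne → XEq → SingG → KDat := by
  classical
  intro hExt hX hS S T V _ _ _ _ Γ Λ cΓ cΛ M N hD hno hn hmono _ _
  have htd := hD.tdr.td
  refine ⟨?_, ?_, ?_, ?_, ?_, ?_, ?_, ?_, ?_⟩
  · intro s t hst
    exact bar_even Γ cΓ s.1 t.1 hst
  · exact nice_sub hD.tdr.cmΛ (fun v => ¬ Mt Γ cΓ v) hn
  · exact cmap_sub hD.tdr.cmΛ (fun v => ¬ Mt Γ cΓ v)
  · intro v w
    constructor
    · intro h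
      have h1 : (bar Λ cΛ).graph.Adj v.1 w.1 := (htd.adj v.1 w.1).1 h
      obtain ⟨h2, s, t, h3, h4, h5⟩ := h1
      refine ⟨fun h6 => h2 (congrArg Subtype.val h6), ⟨s, by rw [h3]; exact v.2⟩,
        ⟨t, by rw [h4]; exact w.2⟩, Subtype.ext h3, Subtype.ext h4, h5⟩
    · rintro ⟨h1, s, t, h2, h3, h4⟩
      refine (htd.adj v.1 w.1).2 ⟨fun h5 => h1 (Subtype.ext h5), s.1, t.1,
        congrArg Subtype.val h2, congrArg Subtype.val h3, h4⟩
  · ext i j
    rw [Matrix.mul_apply, Matrix.one_apply]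
    have h1 := sum_sub (Mt Γ cΓ) (fun v => M i.1 v * N v j.1) (fun v hv => by
      have h2 : i.1 ≠ v := fun h => i.2 (h ▸ hv)
      simp only [(hmono v hv).m0 i.1 h2, zero_mul])
    simp only [Matrix.of_apply]
    rw [h1, htd.pre.mn i.1 j.1]
    simp only [Subtype.ext_iff]
  · ext i j
    rw [Matrix.mul_apply, Matrix.one_apply]
    have h1 := sum_sub (Mt Γ cΓ) (fun v => N i.1 v * M v j.1) (fun v hv => by
      have h2 : i.1 ≠ v := fun h => i.2 (h ▸ hv)
      simp only [(hmono v hv).n0 i.1 h2, zero_mul])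
    simp only [Matrix.of_apply]
    rw [h1, htd.pre.nm i.1 j.1]
    simp only [Subtype.ext_iff]
  · intro c r h j hj
    have h1 := htd.domM c.1 r.1 h j.1 hj
    rcases h1 with h1 | h1
    · exact Or.inl (Subtype.ext h1)
    · exact Or.inr h1
  · intro c r h j hj
    have h1 := htd.domN r.1 c.1 h j.1 hj
    rcases h1 with h1 | h1
    · exact Or.inl (Subtype.ext h1)
    · exact Or.inr h1
  · intro z
    set z1 : V → ℂˣ := fun v => if h : Mt Γ cΓ v then 1 else z ⟨v, h⟩ with hz1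
    have hz1P : ∀ v, Mt Γ cΓ v → z1 v = 1 := fun v hv => by
      simp only [hz1]
      exact dif_pos hv
    have hz1N : ∀ v (hv : ¬ Mt Γ cΓ v), z1 v = z ⟨v, hv⟩ := fun v hv => by
      simp only [hz1]
      exact dif_neg hv
    have hy : ∀ v, Mt Γ cΓ v → pz M z1 v = 1 := by
      intro v hv
      unfold pz
      refine Finset.prod_eq_one fun i _ => ?_
      by_cases hi : i = v
      · rw [hi, hz1P v hv, one_zpow]
      · rw [(hmono v hv).m0 i hi, zpow_zero]
    have e1 := hExt S V Γ cΓ hD.tdr.cmΓ (pz M z1) (Mt Γ cΓ) hy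
    have e2 := hExt T V Λ cΛ hD.tdr.cmΛ z1 (Mt Γ cΓ) hz1P
    have e3 := hD.tdr.chrM z1
    have e4 := hS S V Γ cΓ hD.tdr.cmΓ (Mt Γ cΓ) (fun s t h1 h2 => by
      obtain ⟨p⟩ := (hD.tdr.cmΓ.iff s t).1 h1
      cases p with
      | nil => rfl
      | cons h q => exact absurd ⟨_, _, h, rfl⟩ h2) (pz M z1)
    have e5 : {w | Mt Γ cΓ w ∧ ∀ v, ¬ Mt Γ cΓ v → (bar Γ cΓ).graph.Adj w v →
        pz M z1 v ^ half (bar Γ cΓ) w v = 1} =
        {w | Mt Γ cΓ w ∧ ∀ v, ¬ Mt Γ cΓ v → (bar Λ cΛ).graph.Adj w v →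
        z1 v ^ half (bar Λ cΛ) w v = 1} := by
      ext w
      simp only [Set.mem_ofPred_eq]
      exact and_congr_right fun hw =>
        hX S T V Γ Λ cΓ cΛ M N hD.tdr (Mt Γ cΓ) hmono z1 hz1P w hw
    have e6 : pw (Matrix.of fun (i : {v // ¬ Mt Γ cΓ v}) (v : {v // ¬ Mt Γ cΓ v}) => M i.1 v.1) z =
        fun v => pz M z1 v.1 := by
      funext v
      unfold pw pz
      have h1 := prod_sub (Mt Γ cΓ) (fun i => z1 i ^ M i v.1) (fun i hi => by
        simp only [hz1P i hi, one_zpow])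
      rw [← h1]
      refine Finset.prod_congr rfl fun i _ => ?_
      rw [Matrix.of_apply, hz1N i.1 i.2]
    have e7 : (fun s : {t // ¬ Mt Γ cΓ (cΛ t)} => z ⟨cΛ s.1, s.2⟩) = fun s => z1 (cΛ s.1) := by
      funext s
      exact (hz1N (cΛ s.1) s.2).symm
    rw [e5] at e1
    rw [e6, e7, ← e4]
    omega

end WGOdd
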