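import Pool.Agent.Lib.MP_107652_al.Odd.Spec
import Pool.Agent.Lib.MP_107652_al.One.Kill
import Pool.Agent.Lib.MP_107652_al.One.NrmE

/-!
# MP_107652_al, THEOREM F, module LamStep: consequences of a second cocycle
-/

set_option autoImplicit false

open Finset

namespace WGOdd

open WGirth WGTwin WGOne WGEven WGBar

/-- some cocycle is not a multiple of a given function -/
private theorem LamStep_ex {T : Type} [Fintype T] (P : Submodule ℂ (T → ℂ)) (b0 : T → ℂ)
    (h : 2 ≤ Module.finrank ℂ P) : ∃ b ∈ P, ∀ κ : ℂ, b ≠ κ • b0 := by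
  by_contra hcon
  push Not at hcon
  have h1 : P ≤ Submodule.span ℂ {b0} := by
    intro b hb
    obtain ⟨κ, hκ⟩ := hcon b hb
    rw [Submodule.mem_span_singleton]
    exact ⟨κ, hκ.symm⟩
  have h2 := Submodule.finrank_mono h1
  have h3 : Module.finrank ℂ (Submodule.span ℂ ({b0} : Set (T → ℂ))) ≤ 1 := by
    have h4 := finrank_span_le_card (R := ℂ) ({b0} : Set (T → ℂ))
    simpa using h4
  omega

/-- a cocycle is constant along odd walks on which the norm of the character is not one -/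
private theorem LamStep_walk {T V : Type} (Λ : LGraph T) (c : T → V) (hc : CMap Λ c)
    (z : V → ℂˣ) (b : T → ℂ) (hb : b ∈ Sol Λ (fun t => z (c t))) {s s' : T}
    (w : (oddGraph Λ).Walk s s') (hz : ‖(z (c s) : ℂ)‖ ≠ 1) : b s = b s' := by
  induction w with
  | nil => rfl
  | @cons x y u h w ih =>
    have h1 := mem_Sol.mp hb x y h.1
    unfold RelE at h1
    rw [if_neg h.2] at h1
    have h2 : 2 ≤ Λ.label s(x, y) := Λ.two_le _ ((SimpleGraph.mem_edgeSet _).mpr h.1)
    have h3 := (mul_eq_zero.mp h1).resolve_left (nrmE.2 _ _ (by omega) hz)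
    have h4 : c x = c y := comp_eq_of_odd hc h.1 h.2
    rw [sub_eq_zero.mp h3]
    exact ih (by rwa [← h4])

/-- geometric sum zero -/
private theorem LamStep_geom (x : ℂˣ) (k : ℕ) (hk : 1 ≤ k)
    (h : ∑ i ∈ range k, (x : ℂ) ^ i = 0) : x ≠ 1 ∧ x ^ k = 1 := by
  constructor
  · rintro rfl
    rw [Units.val_one] at h
    simp only [one_pow, sum_const, card_range, nsmul_eq_mul, mul_one, Nat.cast_eq_zero] at h
    omega
  · have h2 := geom_sum_mul (x : ℂ) k
    rw [h, zero_mul] at h2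
    apply Units.ext
    rw [Units.val_pow_eq_pow_val, Units.val_one]
    exact sub_eq_zero.mp h2.symm

theorem lamStep : LamStep := by
  intro T V _ _ _ Λ c hc z w hcone hw husp hdim
  have hzw : z w ≠ 1 := by
    intro h
    rw [h, Units.val_one, norm_one] at hw
    exact hw rfl
  have hzw' : (1 : ℂ) - z w ≠ 0 := by
    intro h
    exact hzw (Units.ext (sub_eq_zero.mp h).symm)
  obtain ⟨b, hb, hnb⟩ := LamStep_ex (Sol Λ (fun t => z (c t))) (fun t => 1 - (z (c t) : ℂ)) hdim
  -- the cocycle is constant on the components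
  have hcst : ∀ s t, c s = c t → b s = b t := by
    intro s t hst
    have hsame : SameC Λ s t := (hc.iff s t).1 hst
    by_cases h1 : ‖(z (c s) : ℂ)‖ ≠ 1
    · obtain ⟨p⟩ := hsame
      exact LamStep_walk Λ c hc z b hb p h1
    · have h2 : c s ≠ w := by
        rintro h3
        rw [h3] at h1
        exact h1 hw
      rcases husp (c s) h2 with h3 | h3 | h3
      · rw [h3 s t rfl hst.symm]
      · refine (kill nrmE T Λ _ b hb).2 s t hsame fun u hu => ?_
        have h4 : c s = c u := (hc.iff s u).2 hu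
        show z (c u) = 1
        rw [← h4, h3]
      · exact absurd h3 h1
  obtain ⟨r, hr⟩ : ∃ r : V → T, ∀ v, c (r v) = v := ⟨fun v => (hc.surj v).choose,
    fun v => (hc.surj v).choose_spec⟩
  have hβ : ∀ s v, c s = v → b s = b (r v) := by
    intro s v h
    exact hcst s (r v) (by rw [h, hr])
  -- edges between different components are even
  have heven : ∀ s t, Λ.graph.Adj s t → c s ≠ c t → Even (Λ.label s(s, t)) := by
    intro s t h1 h2
    by_contra h3
    exact h2 (comp_eq_of_odd hc h1 h3)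
  -- the value is zero where the character is one
  have hone : ∀ v, z v = 1 → b (r v) = 0 := by
    intro v hv
    have hvw : v ≠ w := by
      rintro rfl
      exact hzw hv
    obtain ⟨hne, s, t, hs, ht, hst⟩ := (bar_adj Λ c w v).1 (hcone v hvw)
    have h1 : Even (Λ.label s(t, s)) := heven t s hst.symm (by rw [hs, ht]; exact hvw)
    have h2 := (kill nrmE T Λ _ b hb).1 t s hst.symm h1 (show z (c t) = 1 by rw [ht, hv])
      (show ‖(z (c s) : ℂ)‖ ≠ 1 by rw [hs]; exact hw)
    rw [← hβ t v ht]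
    exact h2
  -- the relation for an edge between different components
  have hrel : ∀ s t, Λ.graph.Adj s t → c s ≠ c t →
      1 ≤ Λ.label s(s, t) / 2 ∧
      (∑ i ∈ range (Λ.label s(s, t) / 2), ((z (c s) : ℂ) * z (c t)) ^ i) *
        ((1 - (z (c t) : ℂ)) * b (r (c s)) - (1 - (z (c s) : ℂ)) * b (r (c t))) = 0 := by
    intro s t h1 h2
    have h3 := mem_Sol.mp hb s t h1
    unfold RelE at h3
    rw [if_pos (heven s t h1 h2), hβ s _ rfl, hβ t _ rfl] at h3
    have h4 : 2 ≤ Λ.label s(s, t) := Λ.two_le _ ((SimpleGraph.mem_edgeSet _).mpr h1)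
    exact ⟨by omega, h3⟩
  obtain ⟨κ, hκ⟩ : ∃ κ : ℂ, b (r w) = κ * (1 - (z w : ℂ)) :=
    ⟨b (r w) / (1 - (z w : ℂ)), by field_simp⟩
  obtain ⟨j, hj1, hj2⟩ : ∃ j, z j ≠ 1 ∧ b (r j) ≠ κ * (1 - (z j : ℂ)) := by
    by_contra hcon
    push Not at hcon
    apply hnb κ
    funext t
    show b t = κ * (1 - (z (c t) : ℂ))
    rw [hβ t _ rfl]
    by_cases h1 : z (c t) = 1
    · rw [hone _ h1, h1, Units.val_one, sub_self, mul_zero]
    · exact hcon _ h1
  have hjw : j ≠ w := by
    rintro rfl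
    exact hj2 hκ
  refine ⟨j, hjw, hj1, ?_, ?_⟩
  · intro s t hst hs ht
    obtain ⟨h1, h2⟩ := hrel s t hst (by rw [hs, ht]; exact hjw.symm)
    rw [hs, ht, hκ] at h2
    have h3 : (1 - (z j : ℂ)) * (κ * (1 - (z w : ℂ))) - (1 - (z w : ℂ)) * b (r j) ≠ 0 := by
      have h4 : (1 - (z j : ℂ)) * (κ * (1 - (z w : ℂ))) - (1 - (z w : ℂ)) * b (r j) =
          (1 - (z w : ℂ)) * (κ * (1 - (z j : ℂ)) - b (r j)) := by ring
      rw [h4]
      exact mul_ne_zero hzw' (sub_ne_zero.2 (Ne.symm hj2))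
    have h5 := (mul_eq_zero.mp h2).resolve_right h3
    have h6 := LamStep_geom (z w * z j) _ h1 (by rw [Units.val_mul]; exact h5)
    exact h6
  · intro a haw ha hna haj
    -- the value at `a`
    have h1 : b (r a) = κ * (1 - (z a : ℂ)) := by
      obtain ⟨_, s, t, hs, ht, hst⟩ := (bar_adj Λ c w a).1 (hcone a haw)
      obtain ⟨h2, h3⟩ := hrel s t hst (by rw [hs, ht]; exact haw.symm)
      rw [hs, ht, hκ] at h3
      have h4 := (mul_eq_zero.mp h3).resolve_left (nrmE.1 _ _ _ h2 hna)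
      have h5 : (1 - (z w : ℂ)) * (κ * (1 - (z a : ℂ)) - b (r a)) = 0 := by
        linear_combination h4
      have h6 := (mul_eq_zero.mp h5).resolve_left hzw'
      exact (sub_eq_zero.mp h6).symm
    obtain ⟨hne, s, t, hs, ht, hst⟩ := (bar_adj Λ c a j).1 haj
    obtain ⟨h2, h3⟩ := hrel s t hst (by rw [hs, ht]; exact hne)
    rw [hs, ht, h1] at h3
    have h4 : (1 : ℂ) - z a ≠ 0 := by
      intro h
      exact ha (Units.ext (sub_eq_zero.mp h).symm)
    have h5 : (1 - (z j : ℂ)) * (κ * (1 - (z a : ℂ))) - (1 - (z a : ℂ)) * b (r j) ≠ 0 := by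
      have h6 : (1 - (z j : ℂ)) * (κ * (1 - (z a : ℂ))) - (1 - (z a : ℂ)) * b (r j) =
          (1 - (z a : ℂ)) * (κ * (1 - (z j : ℂ)) - b (r j)) := by ring
      rw [h6]
      exact mul_ne_zero h4 (sub_ne_zero.2 (Ne.symm hj2))
    by_contra h7
    exact nrmE.1 _ _ _ h2 h7 ((mul_eq_zero.mp h3).resolve_right h5)

end WGOdd
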