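import Pool.Agent.Lib.MP_107652_al.Odd.Spec
import Pool.Agent.Lib.MP_107652_al.Bar.W0
import Pool.Agent.Lib.MP_107652_al.Bar.W1

/-!
# MP_107652_al, THEOREM F: the local inequality for all matched components
-/

set_option autoImplicit false

open Finset

namespace WGOdd

open WGirth WGTwin WGOne WGEven WGBar

/-- a vertex whose component has another vertex lies on an odd edge -/
private theorem LocIneq_first {S : Type} {Γ : LGraph S} {s t : S} (h : SameC Γ s t)
    (hne : s ≠ t) : ∃ b, (oddGraph Γ).Adj s b := by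
  obtain ⟨p⟩ := h
  cases p with
  | nil => exact absurd rfl hne
  | cons hab _ => exact ⟨_, hab⟩

/-- the restriction of `Mono` -/
private theorem LocIneq_mono {V : Type} {M N : V → V → ℤ} (P : V → Prop) (v : {v // P v})
    (h : Mono M N v.1) :
    Mono (fun (i j : {v // P v}) => M i.1 j.1) (fun (i j : {v // P v}) => N i.1 j.1) v :=
  ⟨fun j hj => h.m0 j.1 (fun e => hj (Subtype.ext e)),
    fun j hj => h.n0 j.1 (fun e => hj (Subtype.ext e)), h.one⟩

theorem locIneq : ChrU → SubC → MonoCone → SingL → LocIneq := by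
  classical
  intro hChr hSub hCone hSing S T V _ _ _ _ Γ Λ cΓ cΛ M N hT hNo hNi hMo w hw d hd1 hd3
  have hR := hT.tdr
  have hmw : Mono M N w := hMo w hw
  set P : V → Prop := InU (bar Γ cΓ) w with hP
  have hPw : P w := inU_self (bar Γ cΓ) w
  obtain ⟨hG1, hG2, -, hG4⟩ := hSub S V Γ cΓ hR.cmΓ P
  obtain ⟨hL1, hL2, hL3, hL4⟩ := hSub T V Λ cΛ hR.cmΛ P
  obtain ⟨hnm, hmn, hchr⟩ := hChr S T V Γ Λ cΓ cΛ M N hR w hmw
  have hCD : CD (sub Γ (fun s => P (cΓ s))) (sub Λ (fun t => P (cΛ t)))
      (fun s => (⟨cΓ s.1, s.2⟩ : {v // P v})) (fun t => (⟨cΛ t.1, t.2⟩ : {v // P v}))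
      (fun i v => M i.1 v.1) (fun v i => N v.1 i.1) ⟨w, hPw⟩ := by
    refine
      { cmΓ := hG1
        cmΛ := hL1
        evΓ := ?_
        nice := hL3 hNi
        gr := ?_
        cone := ?_
        nm := ?_
        mn := ?_
        mono := LocIneq_mono P ⟨w, hPw⟩ hmw
        usp := ?_
        chr := fun z => hchr z }
    · intro s t hadj hev he
      exact (pW1 pW0).1 S V Γ cΓ hR.cmΓ hNo s.1 t.1 hadj hev (congrArg Subtype.val he)
    · ext a b
      rw [hL2 a b, hG2 a b, hR.gr]
    · intro v hv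
      rw [hG2]
      rcases v.2.1 with h | h
      · exact absurd (Subtype.ext h) hv
      · exact h.symm
    · intro v u
      rw [hnm v u]
      exact if_congr Subtype.ext_iff.symm rfl rfl
    · intro i j
      rw [hmn i j]
      exact if_congr Subtype.ext_iff.symm rfl rfl
    · intro v _
      by_cases hv : Mt Γ cΓ v.1
      · exact Or.inr (LocIneq_mono P v (hMo v.1 hv))
      · refine Or.inl ⟨?_, ?_⟩
        · intro s t hs ht
          have hs' : cΓ s.1 = v.1 := congrArg Subtype.val hs
          have ht' : cΓ t.1 = v.1 := congrArg Subtype.val ht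
          by_contra hne
          obtain ⟨b, hb⟩ := LocIneq_first ((hR.cmΓ.iff s.1 t.1).1 (hs'.trans ht'.symm))
            (fun e => hne (Subtype.ext e))
          exact hv ⟨s.1, b, hb, hs'⟩
        · intro s t hs ht
          have hs' : cΛ s.1 = v.1 := congrArg Subtype.val hs
          have ht' : cΛ t.1 = v.1 := congrArg Subtype.val ht
          exact Subtype.ext (hSing S T V Γ Λ cΓ cΛ M N hT hNo hNi hMo s.1 t.1
            (hs'.trans ht'.symm) (by rw [hs']; exact hv))
  have h := hCone _ _ _ _ _ _ _ _ _ _ hCD d hd1 hd3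
  rw [hL4 w hPw d, hG4 w hPw d] at h
  exact h

end WGOdd
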