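import Pool.Agent.Lib.MP_107652_al.Odd.Spec

/-! MP_107652_al, Odd/MaxA: extension of functions by a constant. -/

set_option autoImplicit false

open Finset

namespace WGOdd

open WGirth WGTwin WGOne WGEven WGBar

/-- the extension by the constant `φ s0` on the component `j` -/
private def MaxA_ext {T V : Type} [DecidableEq V] (c : T → V) (j : V) (s0 : T) :
    (T → ℂ) →ₗ[ℂ] (T → ℂ) where
  toFun φ := fun t => if c t = j then φ s0 else φ t
  map_add' φ ψ := by
    funext t
    simp only [Pi.add_apply]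
    split_ifs <;> rfl
  map_smul' a φ := by
    funext t
    simp only [Pi.smul_apply, RingHom.id_apply]
    split_ifs <;> rfl

private theorem MaxA_pos {T V : Type} [DecidableEq V] (c : T → V) (j : V) (s0 : T) (φ : T → ℂ)
    (t : T) (h : c t = j) : MaxA_ext c j s0 φ t = φ s0 := if_pos h

private theorem MaxA_neg {T V : Type} [DecidableEq V] (c : T → V) (j : V) (s0 : T) (φ : T → ℂ)
    (t : T) (h : c t ≠ j) : MaxA_ext c j s0 φ t = φ t := if_neg h

theorem maxA : MaxA := by
  intro T V _ _ _ Λ c hc hN w d hd A j hjw hjA hadj hdiv hA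
  obtain ⟨-, s0, t0, hs0, ht0, hst0⟩ := hadj
  have hlab : Λ.label s(s0, t0) ≠ 2 := by
    intro h
    have h1 := hdiv s0 t0 hst0 hs0 ht0
    rw [h] at h1
    have h2 := Nat.le_of_dvd (by norm_num) h1
    omega
  have hnsc : ¬ SameC Λ s0 t0 := by
    intro h
    have h1 := (hc.iff s0 t0).2 h
    rw [hs0, ht0] at h1
    exact hjw h1.symm
  -- the only edge between `w` and `j`
  have hun : ∀ s t, Λ.graph.Adj s t → c s = w → c t = j → s = s0 := by
    intro s t hst hs ht
    exact (hN.un s0 t0 s t hst0 hst ((hc.iff _ _).1 (by rw [hs0, hs]))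
      ((hc.iff _ _).1 (by rw [ht0, ht])) hnsc hlab).1
  -- the map sends one space to the other
  have hmem : ∀ φ ∈ Phi Λ (fun t => c t = w ∨ c t ∈ A) (oe Λ c w d),
      MaxA_ext c j s0 φ ∈ Phi Λ (fun t => c t = w ∨ c t ∈ insert j A) (oe Λ c w d) := by
    intro φ hφ
    obtain ⟨h1, h2⟩ := mem_Phi.1 hφ
    have key : ∀ s t, Λ.graph.Adj s t → c s = j → c t ≠ j → (c t = w ∨ c t ∈ insert j A) →
        MaxA_ext c j s0 φ s = MaxA_ext c j s0 φ t := by
      intro s t hst hs ht hq
      rw [MaxA_pos c j s0 φ s hs, MaxA_neg c j s0 φ t ht]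
      rcases hq with hq | hq
      · rw [hun t s hst.symm hq hs]
      · rcases mem_insert.1 hq with hq | hq
        · exact absurd hq ht
        · exact absurd ⟨ht, t, s, rfl, hs, hst.symm⟩ (hA _ hq)
    refine mem_Phi.2 ⟨fun s hs => ?_, fun s t hst hs ht he => ?_⟩
    · have hsj : c s ≠ j := fun h => hs (Or.inr (by rw [h]; exact mem_insert_self j A))
      rw [MaxA_neg c j s0 φ s hsj]
      exact h1 s fun h => hs (h.imp id fun h => mem_insert_of_mem h)
    · by_cases hsj : c s = j
      · by_cases htj : c t = j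
        · rw [MaxA_pos c j s0 φ s hsj, MaxA_pos c j s0 φ t htj]
        · exact key s t hst hsj htj ht
      · by_cases htj : c t = j
        · exact (key t s hst.symm htj hsj hs).symm
        · rw [MaxA_neg c j s0 φ s hsj, MaxA_neg c j s0 φ t htj]
          refine h2 s t hst ?_ ?_ he
          · exact hs.imp id fun h => (mem_insert.1 h).resolve_left hsj
          · exact ht.imp id fun h => (mem_insert.1 h).resolve_left htj
  refine LinearMap.finrank_le_finrank_of_injective (f := (MaxA_ext c j s0).restrict hmem) ?_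
  rw [injective_iff_map_eq_zero]
  rintro ⟨φ, hφ⟩ h
  obtain ⟨h1, -⟩ := mem_Phi.1 hφ
  have h2 : MaxA_ext c j s0 φ = 0 := congrArg Subtype.val h
  apply Subtype.ext
  funext t
  by_cases htj : c t = j
  · refine h1 t ?_
    rw [htj]
    rintro (h | h)
    · exact hjw h
    · exact hjA h
  · show φ t = 0
    rw [← MaxA_neg c j s0 φ t htj, h2]
    rfl

end WGOdd
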