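import Pool.Agent.Lib.MP_107652_al.Odd.Spec

/-!
# MP_107652_al, THEOREM F: the local inequality (assembly with a maximal set `A`)
-/

set_option autoImplicit false

open Finset

namespace WGOdd

open WGirth WGTwin WGOne WGEven WGBar

private theorem MonoCone_exOm {d : ℕ} (hd : ¬ Even d) (h3 : 3 ≤ d) : ∃ ω : ℂˣ, Od d ω := by
  have hp := Complex.isPrimitiveRoot_exp d (by omega)
  refine ⟨Units.mk0 (Complex.exp (2 * Real.pi * Complex.I / d)) (Complex.exp_ne_zero _), hd, h3, ?_⟩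
  rw [← orderOf_units, Units.val_mk0]
  exact hp.eq_orderOf.symm

private theorem MonoCone_ord {d : ℕ} {ω : ℂˣ} (h : Od d ω) : orderOf (-ω) = 2 * d := by
  have h1 : orderOf (-1 : ℂˣ) = 2 := by
    have h2 : (-1 : ℂˣ) ≠ 1 := by
      intro h3
      have h4 := congrArg Units.val h3
      norm_num at h4
    exact orderOf_eq_prime (by simp) h2
  have h2 : -ω = (-1) * ω := by simp
  rw [h2, (Commute.all _ _).orderOf_mul_eq_mul_orderOf_of_coprime, h1, h.ord]
  rw [h1, h.ord, Nat.coprime_two_left]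
  exact Nat.not_even_iff_odd.mp h.odd

private theorem MonoCone_ne {d : ℕ} {ω : ℂˣ} (h : Od d ω) : -ω ≠ 1 := by
  intro h1
  have h2 := MonoCone_ord h
  rw [h1, orderOf_one] at h2
  have := h.three
  omega

private theorem MonoCone_nrm {d : ℕ} {ω : ℂˣ} (h : Od d ω) : ‖((-ω : ℂˣ) : ℂ)‖ = 1 := by
  have h1 : (-ω) ^ (2 * d) = 1 := by
    rw [← MonoCone_ord h]
    exact pow_orderOf_eq_one _
  have h2 : ((-ω : ℂˣ) : ℂ) ^ (2 * d) = 1 := by
    rw [← Units.val_pow_eq_pow_val, h1, Units.val_one]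
  have := h.three
  exact Complex.norm_eq_one_of_pow_eq_one h2 (by omega)

private theorem MonoCone_pm {a b : ℤ} (h : a * b = 1) : a = 1 ∨ a = -1 :=
  Int.eq_one_or_neg_one_of_mul_eq_one h

section

variable {V : Type} [Fintype V] [DecidableEq V]

private theorem MonoCone_pzpz (M N : V → V → ℤ) (mn : ∀ i j, ∑ v, M i v * N v j = if i = j then 1 else 0)
    (z : V → ℂˣ) : pz N (pz M z) = z := by
  have h : (Matrix.of M) * (Matrix.of N) = (1 : Matrix V V ℤ) := by
    ext i j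
    rw [Matrix.mul_apply, Matrix.one_apply]
    exact mn i j
  exact pw_pw (Matrix.of M) (Matrix.of N) h z

private theorem MonoCone_pz_zr (N : V → V → ℤ) (y : V → ℂˣ) (d' : V → ℤ) (i : V) :
    pz N (zr y u2 d') i = pz N y i * u2 ^ ∑ v, d' v * N v i := by
  unfold pz zr
  rw [zpow_fsum, ← Finset.prod_mul_distrib]
  refine Finset.prod_congr rfl fun v _ => ?_
  rw [mul_zpow, ← zpow_mul]

private theorem MonoCone_norm (M : V → V → ℤ) (z : V → ℂˣ) (e : V → ℤ)
    (h : ∀ i, ‖(z i : ℂ)‖ = (3 : ℝ) ^ e i) (v : V) :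
    ‖((pz M z v : ℂˣ) : ℂ)‖ = (3 : ℝ) ^ ∑ i, e i * M i v := by
  unfold pz
  rw [Units.coe_prod, norm_prod, rzpow_fsum _ _ three_ne_zero]
  refine Finset.prod_congr rfl fun i _ => ?_
  rw [Units.val_zpow_eq_zpow_val, norm_zpow, h i, zpow_mul]

private theorem MonoCone_col (M : V → V → ℤ) (z : V → ℂˣ) (v : V) (h : ∀ j, j ≠ v → M j v = 0) :
    pz M z v = z v ^ M v v := by
  unfold pz
  rw [Finset.prod_eq_single v]
  · intro j _ hj
    rw [h j hj, zpow_zero]
  · intro h1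
    exact absurd (Finset.mem_univ v) h1

end

theorem monoCone : CompDim → StarLow → TightG → GamStep → LamStep → MaxA → MonoCone := by
  classical
  intro hCD hSL hTG hGS hLS hMA S T V _ _ _ _ Γ Λ cΓ cΛ M N w h d hd h3
  by_contra hlt
  rw [not_le] at hlt
  obtain ⟨ω, hω⟩ := MonoCone_exOm hd h3
  obtain ⟨n, hn⟩ : ∃ n, n = (oe Γ cΓ w d).ncard := ⟨_, rfl⟩
  obtain ⟨Fam, hFam⟩ : ∃ Fam : Finset V → Prop, Fam = fun A => w ∉ A ∧
      (∀ a ∈ A, ∀ s t, Λ.graph.Adj s t → cΛ s = w → cΛ t = a → 2 * d ∣ Λ.label s(s, t) / 2) ∧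
      n + 2 ≤ Module.finrank ℂ (Phi Λ (fun t => cΛ t = w ∨ cΛ t ∈ A) (oe Λ cΛ w d)) := ⟨_, rfl⟩
  have hF0 : Fam ∅ := by
    rw [hFam]
    refine ⟨Finset.notMem_empty _, fun a ha => absurd ha (Finset.notMem_empty _), ?_⟩
    have h1 : (fun t => cΛ t = w ∨ cΛ t ∈ (∅ : Finset V)) = fun t => cΛ t = w := by
      funext t
      simp
    rw [h1, hCD T V Λ cΛ h.cmΛ h.nice w d]
    omega
  obtain ⟨A, hA, hmax⟩ := Finset.exists_max_image (Finset.univ.filter Fam) Finset.card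
    ⟨∅, Finset.mem_filter.mpr ⟨Finset.mem_univ _, hF0⟩⟩
  rw [Finset.mem_filter] at hA
  obtain ⟨-, hA⟩ := hA
  have hmax' : ∀ B, Fam B → B.card ≤ A.card := fun B hB =>
    hmax B (Finset.mem_filter.mpr ⟨Finset.mem_univ _, hB⟩)
  rw [hFam] at hA
  obtain ⟨hwA, hAdiv, hAdim⟩ := hA
  obtain ⟨z, hz⟩ : ∃ z : V → ℂˣ, z = chA w A ω := ⟨_, rfl⟩
  have hzw : z w = -ω := by
    rw [hz]
    unfold chA
    rw [if_pos rfl]
  have hzA : ∀ a ∈ A, z a = u3 := by
    intro a ha
    have h1 : a ≠ w := fun h1 => hwA (h1 ▸ ha)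
    rw [hz]
    unfold chA
    rw [if_neg h1, if_pos ha]
  have hz1 : ∀ a, a ≠ w → a ∉ A → z a = 1 := by
    intro a h1 h2
    rw [hz]
    unfold chA
    rw [if_neg h1, if_neg h2]
  obtain ⟨e, he⟩ : ∃ e : V → ℤ, e = fun i => if i ∈ A then 1 else 0 := ⟨_, rfl⟩
  have heA : ∀ a ∈ A, e a = 1 := fun a ha => by rw [he]; simp only [ha, if_true]
  have heN : ∀ a, a ∉ A → e a = 0 := fun a ha => by rw [he]; simp only [ha, if_false]
  have hnz : ∀ i, ‖(z i : ℂ)‖ = (3 : ℝ) ^ e i := by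
    intro i
    by_cases h1 : i ∈ A
    · rw [hzA i h1, heA i h1]
      have := norm_u3 1
      rwa [zpow_one] at this
    · rw [heN i h1, zpow_zero]
      by_cases h2 : i = w
      · rw [h2, hzw]
        exact MonoCone_nrm hω
      · rw [hz1 i h2 h1, Units.val_one, norm_one]
  obtain ⟨y, hy⟩ : ∃ y : V → ℂˣ, y = pz M z := ⟨_, rfl⟩
  have hny : ∀ v, ‖(y v : ℂ)‖ = (3 : ℝ) ^ ∑ i, e i * M i v := fun v => by
    rw [hy]
    exact MonoCone_norm M z e hnz v
  -- the dimension for `Γ`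
  have hdim1 : n + 2 ≤ Module.finrank ℂ (Sol Γ (fun s => y (cΓ s))) := by
    rw [hy, h.chr z, hz]
    exact hAdim.trans (hSL T V Λ cΛ h.cmΛ w A hwA d ω hω)
  have hyw : y w = -ω ∨ y w = (-ω)⁻¹ := by
    rw [hy, MonoCone_col M z w h.mono.m0, hzw]
    rcases MonoCone_pm h.mono.one with h1 | h1
    · left
      rw [h1, zpow_one]
    · right
      rw [h1, zpow_neg, zpow_one]
  have hyw1 : y w ≠ 1 := by
    rcases hyw with h1 | h1
    · rw [h1]
      exact MonoCone_ne hω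
    · rw [h1]
      intro h2
      exact MonoCone_ne hω (inv_eq_one.mp h2)
  have hdim2 : 2 ≤ Module.finrank ℂ (SolW Γ cΓ y w) := by
    have := hTG S V Γ cΓ h.cmΓ h.evΓ y w d ω hω hyw
    omega
  have huspΓ : Usp cΓ y w := by
    intro v hv
    rcases h.usp v hv with h1 | h1
    · exact Or.inl h1.1
    · right
      by_cases h2 : v ∈ A
      · right
        rw [hy, MonoCone_col M z v h1.m0, hzA v h2, norm_u3]
        intro h4
        have h5 : (2 : ℝ) ^ (0 : ℤ) * 3 ^ (M v v) = 1 := by rw [h4, zpow_zero, mul_one]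
        have h6 := (two_three h5).2
        have h7 := h1.one
        rw [h6, zero_mul] at h7
        exact absurd h7 (by norm_num)
      · left
        rw [hy, MonoCone_col M z v h1.m0, hz1 v hv h2, one_zpow]
  obtain ⟨d', hd'w, hdim3⟩ := hGS S V Γ cΓ h.cmΓ h.evΓ y w h.cone (fun v => ⟨_, hny v⟩) hyw1 huspΓ
    hdim2
  -- back to `Λ`
  obtain ⟨z', hz'⟩ : ∃ z' : V → ℂˣ, z' = pz N (zr y u2 d') := ⟨_, rfl⟩
  obtain ⟨D, hD⟩ : ∃ D : V → ℤ, D = fun i => ∑ v, d' v * N v i := ⟨_, rfl⟩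
  have hz'v : ∀ i, z' i = z i * u2 ^ D i := by
    intro i
    rw [hz', MonoCone_pz_zr, hy, MonoCone_pzpz M N h.mn z, hD]
  have hMz' : pz M z' = zr y u2 d' := by
    rw [hz']
    exact MonoCone_pzpz N M h.nm _
  have hdim4 : 2 ≤ Module.finrank ℂ (Sol Λ (fun t => z' (cΛ t))) := by
    rw [← h.chr z', hMz']
    exact hdim3
  have hnz' : ∀ i, ‖(z' i : ℂ)‖ = (2 : ℝ) ^ D i * 3 ^ e i := by
    intro i
    rw [hz'v, Units.val_mul, norm_mul, hnz, norm_u2, mul_comm]
  have hDw : D w ≠ 0 := by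
    have h1 : D w = d' w * N w w := by
      rw [hD]
      simp only
      rw [Finset.sum_eq_single w]
      · intro j _ hj
        rw [h.mono.n0 j hj, mul_zero]
      · intro h1
        exact absurd (Finset.mem_univ w) h1
    rw [h1]
    refine mul_ne_zero ?_ ?_
    · rcases hd'w with h2 | h2 <;> rw [h2] <;> norm_num
    · intro h2
      have h4 := h.mono.one
      rw [h2, mul_zero] at h4
      exact absurd h4 (by norm_num)
  have hconeΛ : ∀ v, v ≠ w → (bar Λ cΛ).graph.Adj w v := by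
    intro v hv
    rw [h.gr]
    exact h.cone v hv
  have hzw1 : ‖(z' w : ℂ)‖ ≠ 1 := by
    rw [hnz' w]
    intro h1
    exact hDw (two_three h1).1
  have huspΛ : Usp cΛ z' w := by
    intro v hv
    right
    by_cases h1 : ‖(z' v : ℂ)‖ = 1
    · left
      rw [hnz' v] at h1
      obtain ⟨h2, h4⟩ := two_three h1
      have h5 : v ∉ A := fun h5 => by
        rw [heA v h5] at h4
        exact absurd h4 (by norm_num)
      rw [hz'v v, hz1 v hv h5, h2, zpow_zero, one_mul]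
    · exact Or.inr h1
  obtain ⟨j, hjw, -, hjedge, hjadj⟩ := hLS T V Λ cΛ h.cmΛ z' w hconeΛ hzw1 huspΛ hdim4
  obtain ⟨-, s0, t0, hs0, ht0, hst0⟩ := (bar_adj Λ cΛ w j).mp (hconeΛ j hjw)
  have hprod : ‖(z' w : ℂ)‖ * ‖(z' j : ℂ)‖ = 1 := by
    have h1 := (hjedge s0 t0 hst0 hs0 ht0).2
    have h2 : ((z' w : ℂ) * (z' j : ℂ)) ^ (Λ.label s(s0, t0) / 2) = 1 := by
      rw [← Units.val_mul, ← Units.val_pow_eq_pow_val, h1, Units.val_one]
    have h4 : 2 ≤ Λ.label s(s0, t0) := Λ.two_le _ ((SimpleGraph.mem_edgeSet _).mpr hst0)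
    rw [← norm_mul]
    exact Complex.norm_eq_one_of_pow_eq_one h2 (by omega)
  have hprod2 : (2 : ℝ) ^ (D w + D j) * 3 ^ (e w + e j) = 1 := by
    rw [hnz' w, hnz' j] at hprod
    rw [zpow_add₀ two_ne_zero, zpow_add₀ three_ne_zero]
    linear_combination hprod
  obtain ⟨hDj, hej⟩ := two_three hprod2
  have hjA : j ∉ A := by
    intro h1
    rw [heN w hwA, heA j h1] at hej
    exact absurd hej (by norm_num)
  have hzz : z' w * z' j = -ω := by
    rw [hz'v w, hz'v j, hzw, hz1 j hjw hjA, one_mul, mul_assoc, ← zpow_add, hDj, zpow_zero, mul_one]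
  have hjdiv : ∀ s t, Λ.graph.Adj s t → cΛ s = w → cΛ t = j → 2 * d ∣ Λ.label s(s, t) / 2 := by
    intro s t hst hs ht
    have h1 := (hjedge s t hst hs ht).2
    rw [hzz] at h1
    rw [← MonoCone_ord hω]
    exact orderOf_dvd_of_pow_eq_one h1
  by_cases hex : ∃ a ∈ A, (bar Λ cΛ).graph.Adj a j
  · obtain ⟨a, haA, haj⟩ := hex
    have haw : a ≠ w := fun h1 => hwA (h1 ▸ haA)
    have hza : z' a ≠ 1 := by
      intro h1
      have h2 := hnz' a
      rw [h1, Units.val_one, norm_one] at h2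
      have h4 := (two_three h2.symm).2
      rw [heA a haA] at h4
      exact absurd h4 (by norm_num)
    have hwa : ‖(z' w : ℂ)‖ * ‖(z' a : ℂ)‖ ≠ 1 := by
      rw [hnz' w, hnz' a]
      intro h1
      have h2 : (2 : ℝ) ^ (D w + D a) * 3 ^ (e w + e a) = 1 := by
        rw [zpow_add₀ two_ne_zero, zpow_add₀ three_ne_zero]
        linear_combination h1
      have h4 := (two_three h2).2
      rw [heN w hwA, heA a haA] at h4
      exact absurd h4 (by norm_num)
    have h1 := hjadj a haw hza hwa haj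
    rw [hnz' a, hnz' j] at h1
    have h2 : (2 : ℝ) ^ (D a + D j) * 3 ^ (e a + e j) = 1 := by
      rw [zpow_add₀ two_ne_zero, zpow_add₀ three_ne_zero]
      linear_combination h1
    have h4 := (two_three h2).2
    rw [heN j hjA, heA a haA] at h4
    exact absurd h4 (by norm_num)
  · have hno : ∀ a ∈ A, ¬ (bar Λ cΛ).graph.Adj a j := fun a ha h1 => hex ⟨a, ha, h1⟩
    have h1 := hMA T V Λ cΛ h.cmΛ h.nice w d h3 A j hjw hjA (hconeΛ j hjw) hjdiv hno
    have h2 : Fam (insert j A) := by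
      rw [hFam]
      refine ⟨?_, ?_, hAdim.trans h1⟩
      · rw [Finset.mem_insert]
        rintro (h4 | h4)
        · exact hjw h4.symm
        · exact hwA h4
      · intro a ha s t hst hs ht
        rcases Finset.mem_insert.mp ha with h4 | h4
        · exact hjdiv s t hst hs (ht.trans h4)
        · exact hAdiv a h4 s t hst hs ht
    have h4 := hmax' _ h2
    rw [Finset.card_insert_of_notMem hjA] at h4
    omega

end WGOdd
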