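import Pool.Agent.Lib.MP_107652_al.Odd.Spec

/-! # MP_107652_al, THEOREM F, module NoOddOf: from bridges to cycles -/

set_option autoImplicit false

open Finset

namespace WGOdd

open WGirth WGTwin WGOne WGEven WGBar

private theorem NoOddOf_walk {T : Type} {Λ : LGraph T} {e : Sym2 T} {φ : T → ℂ}
    (hφ : φ ∈ Phi Λ (fun _ => True) {e}) {u v : T} (p : (Λ.graph.deleteEdges {e}).Walk u v) :
    φ u = φ v := by
  induction p with
  | nil => rfl
  | @cons a b c h q ih =>
    rw [← ih]
    rw [SimpleGraph.deleteEdges_adj] at h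
    exact (mem_Phi.1 hφ).2 a b h.1 trivial trivial h.2

theorem noOddOf : NoOddOf := by
  intro T Λ h v p hp e he
  by_contra ho
  induction e using Sym2.ind with
  | _ s t =>
    have hadj : Λ.graph.Adj s t := p.adj_of_mem_edges he
    obtain ⟨φ, hφ, hne⟩ := h s t ⟨hadj, ho⟩
    have h1 := (SimpleGraph.adj_and_reachable_delete_edges_iff_exists_cycle (G := Λ.graph)
      (v := s) (w := t)).2 ⟨v, p, hp, he⟩
    obtain ⟨q⟩ := h1.2
    exact hne (NoOddOf_walk hφ q)

end WGOdd
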