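import Pool.Agent.Lib.MP_107652_al.Odd.Spec

/-!
# MP_107652_al, THEOREM F: removing bridges
-/

set_option autoImplicit false

open Finset

namespace WGOdd

open WGirth WGTwin WGOne WGEven WGBar

private theorem PhiBr_mono {S : Type} (Λ : LGraph S) (Q : S → Prop) {E F : Set (Sym2 S)}
    (h : E ⊆ F) : Phi Λ Q E ≤ Phi Λ Q F := by
  intro φ hφ
  rw [mem_Phi] at hφ ⊢
  exact ⟨hφ.1, fun s t hst hs ht he => hφ.2 s t hst hs ht fun h' => he (h h')⟩

theorem phiBr (hI : PhiIns) : PhiBr := by
  intro S _ Λ Q E hE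
  have hfin : E.Finite := Set.toFinite E
  induction E, hfin using Set.Finite.induction_on with
  | empty => rw [Set.ncard_empty, add_zero]
  | @insert e E he hs ih =>
    have ih' := ih fun e' he' => hE e' (Set.mem_insert_of_mem e he')
    rw [Set.ncard_insert_of_notMem he hs]
    have h1 := (hI S Λ Q).1 E e
    obtain ⟨s, t, hst, hadj, hs', ht', φ, hφ, hne⟩ := hE e (Set.mem_insert e E)
    have hle : Phi Λ Q E ≤ Phi Λ Q (insert e E) := PhiBr_mono Λ Q (Set.subset_insert e E)
    have hlt : Phi Λ Q E < Phi Λ Q (insert e E) := by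
      refine lt_of_le_of_ne hle fun heq => ?_
      have hm : φ ∈ Phi Λ Q (insert e E) :=
        PhiBr_mono Λ Q (Set.singleton_subset_iff.mpr (Set.mem_insert e E)) hφ
      rw [← heq, mem_Phi] at hm
      exact hne (hm.2 s t hadj hs' ht' (by rw [← hst]; exact he))
    have h2 := Submodule.finrank_lt_finrank_of_lt hlt
    omega

end WGOdd
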