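import Pool.Agent.Lib.MP_107652_al.Odd.Spec

/-!
# MP_107652_al, THEOREM F: the dimension of `Phi` grows by at most one for each edge
-/

set_option autoImplicit false

open Finset

namespace WGOdd

open WGirth WGTwin WGOne WGEven WGBar

private theorem mono' {S : Type} {Λ : LGraph S} {Q : S → Prop} {E F : Set (Sym2 S)}
    (h : E ⊆ F) : Phi Λ Q E ≤ Phi Λ Q F := by
  intro φ hφ
  rw [mem_Phi] at hφ ⊢
  exact ⟨hφ.1, fun s t hst hs ht he => hφ.2 s t hst hs ht fun h' => he (h h')⟩

private theorem ins {S : Type} [Finite S] (Λ : LGraph S) (Q : S → Prop) (E : Set (Sym2 S))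
    (e : Sym2 S) :
    Module.finrank ℂ (Phi Λ Q (insert e E)) ≤ Module.finrank ℂ (Phi Λ Q E) + 1 := by
  induction e with
  | _ s t =>
    let f : (Phi Λ Q (insert s(s, t) E)) →ₗ[ℂ] ℂ :=
      ((LinearMap.proj s : (S → ℂ) →ₗ[ℂ] ℂ) - LinearMap.proj t).comp (Submodule.subtype _)
    have hf : ∀ φ, f φ = φ.1 s - φ.1 t := fun _ => rfl
    have h1 := LinearMap.finrank_range_add_finrank_ker f
    have h2 : Module.finrank ℂ (LinearMap.range f) ≤ 1 := by
      have := Submodule.finrank_le (LinearMap.range f)
      rwa [Module.finrank_self] at this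
    have h3 : Module.finrank ℂ (LinearMap.ker f) ≤ Module.finrank ℂ (Phi Λ Q E) := by
      let g : (LinearMap.ker f) →ₗ[ℂ] (Phi Λ Q E) :=
        LinearMap.codRestrict (Phi Λ Q E)
          ((Submodule.subtype (Phi Λ Q (insert s(s, t) E))).comp (Submodule.subtype _)) (by
            intro φ
            have hk : f φ.1 = 0 := φ.2
            rw [hf, sub_eq_zero] at hk
            have hm := (mem_Phi (S := S)).1 φ.1.2
            refine (mem_Phi (S := S)).2 ⟨hm.1, fun a b hab ha hb he => ?_⟩
            change φ.1.1 a = φ.1.1 b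
            by_cases h4 : s(a, b) = s(s, t)
            · rcases Sym2.eq_iff.1 h4 with ⟨rfl, rfl⟩ | ⟨rfl, rfl⟩
              · exact hk
              · exact hk.symm
            · refine hm.2 a b hab ha hb fun h5 => ?_
              rcases Set.mem_insert_iff.1 h5 with h6 | h6
              · exact h4 h6
              · exact he h6)
      refine LinearMap.finrank_le_finrank_of_injective (f := g) ?_
      intro φ ψ h
      apply Subtype.ext
      apply Subtype.ext
      exact congrArg (fun x : Phi Λ Q E => (x.1 : S → ℂ)) h
    omega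

theorem phiIns : PhiIns := by
  intro S _ Λ Q
  refine ⟨ins Λ Q, ?_, ?_⟩
  · intro E F
    have hF : F.Finite := Set.toFinite F
    induction F, hF using Set.Finite.induction_on with
    | empty => rw [Set.union_empty, Set.ncard_empty, add_zero]
    | @insert e F' he hF' ih =>
      rw [Set.ncard_insert_of_notMem he hF', Set.union_insert]
      have := ins Λ Q (E ∪ F') e
      omega
  · intro E F h
    exact Submodule.finrank_mono (mono' h)

end WGOdd
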