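import Pool.Agent.Lib.MP_107652_al.Odd.Spec

/-!
# MP_107652_al, THEOREM F, module SingG: the subgraph on the components with one vertex
-/

set_option autoImplicit false

open Finset

namespace WGOdd

open WGirth WGTwin WGOne WGEven WGBar

theorem singG : SingG := by
  intro S V _ _ _ Γ cΓ hc P hP z
  -- the bijection
  let f : {s // ¬ P (cΓ s)} → {v // ¬ P v} := fun s => ⟨cΓ s.1, s.2⟩
  have hf : Function.Bijective f := by
    constructor
    · intro s t h
      exact Subtype.ext (hP s.1 t.1 (congrArg Subtype.val h) s.2)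
    · rintro ⟨v, hv⟩
      obtain ⟨s, rfl⟩ := hc.surj v
      exact ⟨⟨s, hv⟩, rfl⟩
  let e : {s // ¬ P (cΓ s)} ≃ {v // ¬ P v} := Equiv.ofBijective f hf
  have hadj : ∀ s t : {s // ¬ P (cΓ s)}, (bar Γ cΓ).graph.Adj (cΓ s.1) (cΓ t.1) ↔
      Γ.graph.Adj s.1 t.1 := by
    intro s t
    rw [bar_adj]
    constructor
    · rintro ⟨_, s', t', hs, ht, hst⟩
      have h1 : s' = s.1 := hP s' s.1 hs (by rw [hs]; exact s.2)
      have h2 : t' = t.1 := hP t' t.1 ht (by rw [ht]; exact t.2)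
      rw [h1, h2] at hst
      exact hst
    · intro hst
      exact ⟨fun h => hst.ne (hP s.1 t.1 h s.2), s.1, t.1, rfl, rfl, hst⟩
  have hlab : ∀ s t : {s // ¬ P (cΓ s)}, Γ.graph.Adj s.1 t.1 →
      (bar Γ cΓ).label s(cΓ s.1, cΓ t.1) = Γ.label s(s.1, t.1) := by
    intro s t hst
    have hev : Even (Γ.label s(s.1, t.1)) := by
      by_contra ho
      exact hst.ne (hP s.1 t.1 (comp_eq_of_odd hc hst ho) s.2)
    have hev' : Even ((bar Γ cΓ).label s(cΓ s.1, cΓ t.1)) :=
      bar_even Γ cΓ _ _ ((hadj s t).2 hst)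
    have hh : half (bar Γ cΓ) (cΓ s.1) (cΓ t.1) = Γ.label s(s.1, t.1) / 2 := by
      apply Nat.dvd_antisymm
      · exact bar_half_dvd Γ cΓ hst
      · apply dvd_bar_half
        intro s' t' hs ht _
        have h1 : s' = s.1 := hP s' s.1 hs (by rw [hs]; exact s.2)
        have h2 : t' = t.1 := hP t' t.1 ht (by rw [ht]; exact t.2)
        rw [h1, h2]
    unfold half at hh
    obtain ⟨a, ha⟩ := hev
    obtain ⟨b, hb⟩ := hev'
    omega
  let L : ({v // ¬ P v} → ℂ) ≃ₗ[ℂ] ({s // ¬ P (cΓ s)} → ℂ) := LinearEquiv.funCongrLeft ℂ ℂ e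
  have hL : ∀ (x : {v // ¬ P v} → ℂ) (s : {s // ¬ P (cΓ s)}), L x s = x (e s) := fun _ _ => rfl
  have key : ∀ x : {v // ¬ P v} → ℂ,
      L x ∈ Sol (sub Γ (fun s => ¬ P (cΓ s))) (fun s => z (cΓ s.1)) ↔
        x ∈ Sol (sub (bar Γ cΓ) (fun v => ¬ P v)) (fun v => z v.1) := by
    intro x
    rw [mem_Sol, mem_Sol]
    constructor
    · intro h v w hvw
      obtain ⟨s, rfl⟩ := e.surjective v
      obtain ⟨t, rfl⟩ := e.surjective w
      have hst : Γ.graph.Adj s.1 t.1 := (hadj s t).1 hvw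
      have h1 := h s t hst
      have h2 : (sub (bar Γ cΓ) (fun v => ¬ P v)).label s(e s, e t) =
          (sub Γ (fun s => ¬ P (cΓ s))).label s(s, t) := hlab s t hst
      rw [h2]
      exact h1
    · intro h s t hst
      have h1 := h (e s) (e t) ((hadj s t).2 hst)
      have h2 : (sub (bar Γ cΓ) (fun v => ¬ P v)).label s(e s, e t) =
          (sub Γ (fun s => ¬ P (cΓ s))).label s(s, t) := hlab s t hst
      rw [h2] at h1
      exact h1
  have hmap : Sol (sub Γ (fun s => ¬ P (cΓ s))) (fun s => z (cΓ s.1)) =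
      (Sol (sub (bar Γ cΓ) (fun v => ¬ P v)) (fun v => z v.1)).map
        (L : ({v // ¬ P v} → ℂ) →ₗ[ℂ] ({s // ¬ P (cΓ s)} → ℂ)) := by
    ext b
    rw [Submodule.mem_map]
    constructor
    · intro hb
      refine ⟨L.symm b, (key _).1 ?_, L.apply_symm_apply b⟩
      rw [L.apply_symm_apply]
      exact hb
    · rintro ⟨x, hx, rfl⟩
      exact (key x).2 hx
  rw [hmap]
  exact LinearEquiv.finrank_map_eq L _

end WGOdd
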