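import Pool.Agent.Lib.MP_107652_al.Odd.Spec

/-!
# MP_107652_al, THEOREM F: the unmatched components of `Λ` have one vertex
-/

set_option autoImplicit false

open Finset

namespace WGOdd

open WGirth WGTwin WGOne WGEven WGBar

theorem singL : KDat → EvenDat → SingL := by
  classical
  intro hK hE S T V _ _ _ _ Γ Λ cΓ cΛ M N hT hΓ hN hM s t hst hm
  by_contra hne
  have hD := hK S T V Γ Λ cΓ cΛ M N hT hΓ hN hM
  have hev := hE _ _ _ _ _ _ _ hD
  have hr : (oddGraph Λ).Reachable s t := (hT.tdr.cmΛ.iff s t).1 hst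
  obtain ⟨p⟩ := hr
  cases p with
  | nil => exact hne rfl
  | @cons _ s' _ h q =>
    have h1 : cΛ s = cΛ s' := (hT.tdr.cmΛ.iff s s').2 h.reachable
    exact h.2 (hev ⟨s, hm⟩ ⟨s', h1 ▸ hm⟩ h.1)

end WGOdd
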