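import Pool.Agent.Lib.MP_107652_al.Odd.Spec

/-!
# MP_107652_al, THEOREM F: the space of cocycles if no value is `1`
-/

set_option autoImplicit false

open Finset

namespace WGOdd

open WGirth WGTwin WGOne WGEven WGBar

/-- geometric sums -/
private theorem SolPhi_geom (x : ℂ) {k : ℕ} (hk : 1 ≤ k) :
    ∑ i ∈ range k, x ^ i = 0 ↔ x ≠ 1 ∧ x ^ k = 1 := by
  have h := geom_sum_mul x k
  constructor
  · intro h0
    rw [h0, zero_mul] at h
    refine ⟨fun hx => ?_, (sub_eq_zero.mp h.symm)⟩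
    rw [hx] at h0
    simp only [one_pow, Finset.sum_const, Finset.card_range, nsmul_eq_mul, mul_one] at h0
    have := Nat.cast_eq_zero.mp h0
    omega
  · rintro ⟨h1, h2⟩
    rw [h2, sub_self] at h
    exact (mul_eq_zero.mp h).resolve_right (sub_ne_zero.mpr h1)

private theorem SolPhi_even {m : ℕ} (hm : Even m) (h2 : 2 ≤ m) (a b : ℂˣ) (ha : a ≠ 1) (hb : b ≠ 1)
    (x y : ℂ) : RelE m a b ((1 - (a : ℂ)) * x) ((1 - (b : ℂ)) * y) ↔ (¬ Dg m a b → x = y) := by
  have ha' : (1 : ℂ) - a ≠ 0 := sub_ne_zero.mpr fun h => ha (Units.ext (by rw [← h]; rfl))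
  have hb' : (1 : ℂ) - b ≠ 0 := sub_ne_zero.mpr fun h => hb (Units.ext (by rw [← h]; rfl))
  have hk : 1 ≤ m / 2 := by omega
  have hg := SolPhi_geom ((a : ℂ) * b) hk
  have e1 : ((a : ℂ) * b ≠ 1 ∧ ((a : ℂ) * b) ^ (m / 2) = 1) ↔ Dg m a b := by
    unfold Dg
    constructor
    · rintro ⟨h1, h3⟩
      refine Or.inl ⟨hm, fun h => h1 ?_, Units.ext ?_⟩
      · rw [← Units.val_mul, h, Units.val_one]
      · rw [Units.val_pow_eq_pow_val, Units.val_mul, h3, Units.val_one]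
    · rintro (⟨_, h1, h3⟩ | ⟨h, _⟩)
      · refine ⟨fun h => h1 (Units.ext ?_), ?_⟩
        · rw [Units.val_mul, h, Units.val_one]
        · rw [← Units.val_mul, ← Units.val_pow_eq_pow_val, h3, Units.val_one]
      · exact absurd hm h
  unfold RelE
  rw [if_pos hm, mul_eq_zero, hg, e1]
  have e2 : (1 - (b : ℂ)) * ((1 - (a : ℂ)) * x) - (1 - (a : ℂ)) * ((1 - (b : ℂ)) * y) =
      (1 - (a : ℂ)) * (1 - (b : ℂ)) * (x - y) := by ring
  rw [e2, mul_eq_zero, sub_eq_zero, or_iff_right (mul_ne_zero ha' hb'), or_iff_not_imp_left]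

private theorem SolPhi_odd {m : ℕ} (hm : ¬ Even m) (a : ℂˣ) (ha : a ≠ 1)
    (x y : ℂ) : RelE m a a ((1 - (a : ℂ)) * x) ((1 - (a : ℂ)) * y) ↔ (¬ Dg m a a → x = y) := by
  have ha' : (1 : ℂ) - a ≠ 0 := sub_ne_zero.mpr fun h => ha (Units.ext (by rw [← h]; rfl))
  have hk : 1 ≤ m := by
    rcases Nat.eq_zero_or_pos m with h | h
    · exact absurd (by rw [h]; exact Even.zero) hm
    · exact h
  have hg := SolPhi_geom (-(a : ℂ)) hk
  have e1 : (-(a : ℂ) ≠ 1 ∧ (-(a : ℂ)) ^ m = 1) ↔ Dg m a a := by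
    unfold Dg
    constructor
    · rintro ⟨h1, h3⟩
      refine Or.inr ⟨hm, fun h => h1 ?_, Units.ext ?_⟩
      · rw [h, Units.val_neg, Units.val_one, neg_neg]
      · rw [Units.val_pow_eq_pow_val, Units.val_neg, h3, Units.val_one]
    · rintro (⟨h, _⟩ | ⟨_, h1, h3⟩)
      · exact absurd h hm
      · refine ⟨fun h => h1 (Units.ext ?_), ?_⟩
        · rw [Units.val_neg, Units.val_one, ← h, neg_neg]
        · rw [← Units.val_neg, ← Units.val_pow_eq_pow_val, h3, Units.val_one]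
  unfold RelE
  rw [if_neg hm, mul_eq_zero, hg, e1, ← mul_sub, mul_eq_zero, or_iff_right ha', sub_eq_zero,
    or_iff_not_imp_left]

private theorem SolPhi_dge {S V : Type} (Λ : LGraph S) (c : S → V) (hc : CMap Λ c) (z : V → ℂˣ)
    {s t : S} (hst : Λ.graph.Adj s t) :
    s(s, t) ∈ DgE Λ c z ↔ Dg (Λ.label s(s, t)) (z (c s)) (z (c t)) := by
  constructor
  · rintro ⟨s', t', he, hst', hd⟩
    rcases Sym2.eq_iff.mp he with ⟨rfl, rfl⟩ | ⟨rfl, rfl⟩
    · exact hd
    · by_cases hm : Even (Λ.label s(t', s'))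
      · rcases hd with ⟨_, h1, h2⟩ | ⟨h, _⟩
        · refine Or.inl ⟨hm, ?_, ?_⟩
          · rw [mul_comm]; exact h1
          · rw [mul_comm]; exact h2
        · exact absurd hm h
      · rw [comp_eq_of_odd hc hst hm] at hd ⊢
        exact hd
  · intro hd
    exact ⟨s, t, rfl, hst, hd⟩

theorem solPhi : SolPhi := by
  intro S V _ Λ c hc z hz
  have hz' : ∀ s : S, (1 : ℂ) - z (c s) ≠ 0 := fun s =>
    sub_ne_zero.mpr fun h => hz (c s) (Units.ext (by rw [← h]; rfl))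
  let T : (S → ℂ) ≃ₗ[ℂ] (S → ℂ) :=
    LinearEquiv.piCongrRight fun s => LinearEquiv.smulOfNeZero ℂ ℂ ((1 : ℂ) - z (c s)) (hz' s)
  have hT : ∀ (φ : S → ℂ) (s : S), T φ s = (1 - (z (c s) : ℂ)) * φ s := fun φ s => rfl
  have key : (Phi Λ (fun _ => True) (DgE Λ c z)).map (T : (S → ℂ) →ₗ[ℂ] (S → ℂ)) =
      Sol Λ (fun s => z (c s)) := by
    have h1 : ∀ φ : S → ℂ, T φ ∈ Sol Λ (fun s => z (c s)) ↔
        φ ∈ Phi Λ (fun _ => True) (DgE Λ c z) := by
      intro φ
      rw [mem_Sol, mem_Phi]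
      have h2 : ∀ s t, Λ.graph.Adj s t → (RelE (Λ.label s(s, t)) (z (c s)) (z (c t)) (T φ s) (T φ t) ↔
          (s(s, t) ∉ DgE Λ c z → φ s = φ t)) := by
        intro s t hst
        rw [hT, hT, SolPhi_dge Λ c hc z hst]
        by_cases hm : Even (Λ.label s(s, t))
        · exact SolPhi_even hm (Λ.two_le _ hst) _ _ (hz _) (hz _) _ _
        · rw [← comp_eq_of_odd hc hst hm]
          exact SolPhi_odd hm _ (hz _) _ _
      constructor
      · intro h
        exact ⟨fun s hs => absurd trivial hs, fun s t hst _ _ => (h2 s t hst).mp (h s t hst)⟩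
      · rintro ⟨_, h⟩ s t hst
        exact (h2 s t hst).mpr (h s t hst trivial trivial)
    ext b
    rw [Submodule.mem_map]
    constructor
    · rintro ⟨φ, hφ, rfl⟩
      exact (h1 φ).mpr hφ
    · intro hb
      refine ⟨T.symm b, (h1 _).mp ?_, ?_⟩
      · rw [LinearEquiv.apply_symm_apply]; exact hb
      · exact LinearEquiv.apply_symm_apply T b
  rw [← key]
  exact LinearEquiv.finrank_map_eq T _

end WGOdd
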