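import Pool.Agent.Lib.MP_107652_al.Odd.Spec

/-!
# MP_107652_al, THEOREM F, module StarLow: an injective linear map
-/

set_option autoImplicit false

open Finset

namespace WGOdd

open WGirth WGTwin WGOne WGEven WGBar

private theorem StarLow_w {V : Type} (w : V) (A : Finset V) (ω : ℂˣ) : chA w A ω w = -ω := by
  unfold chA
  rw [if_pos rfl]

private theorem StarLow_out {V : Type} (w : V) (A : Finset V) (ω : ℂˣ) {v : V}
    (h : ¬ (v = w ∨ v ∈ A)) : chA w A ω v = 1 := by
  unfold chA
  rw [if_neg (fun h1 => h (Or.inl h1)), if_neg (fun h1 => h (Or.inr h1))]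

private theorem StarLow_neg {d : ℕ} {ω : ℂˣ} (h : Od d ω) : (-ω : ℂˣ) ≠ 1 := by
  intro h1
  have h2 : ω = -1 := by rw [← h1, neg_neg]
  have h3 : ω ^ 2 = 1 := by rw [h2]; norm_num
  have h4 := orderOf_dvd_of_pow_eq_one h3
  rw [h.ord] at h4
  have h5 := Nat.le_of_dvd (by norm_num) h4
  have h6 := h.three
  omega

private theorem StarLow_in {V : Type} (w : V) (A : Finset V) {d : ℕ} {ω : ℂˣ} (hω : Od d ω) {v : V}
    (h : v = w ∨ v ∈ A) : chA w A ω v ≠ 1 := by
  unfold chA
  split_ifs with h1 h2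
  · exact StarLow_neg hω
  · intro h3
    have h4 := congrArg (fun u : ℂˣ => (u : ℂ)) h3
    simp only [u3, Units.val_mk0, Units.val_one] at h4
    norm_num at h4
  · exact absurd h (by rintro (h3 | h3); exact h1 h3; exact h2 h3)

private theorem StarLow_sum {d m : ℕ} {ω : ℂˣ} (h : Od d ω) (hm : d ∣ m) :
    ∑ i ∈ range m, (-((-ω : ℂˣ) : ℂ)) ^ i = 0 := by
  have h1 : (-((-ω : ℂˣ) : ℂ)) = (ω : ℂ) := by
    rw [Units.val_neg, neg_neg]
  rw [h1]
  have h2 : (ω : ℂ) ≠ 1 := by
    intro h2
    have h3 : ω = 1 := Units.ext h2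
    have h4 := h.ord
    rw [h3, orderOf_one] at h4
    have h5 := h.three
    omega
  have h3 : (ω : ℂ) ^ m = 1 := by
    have h4 : ω ^ m = 1 := orderOf_dvd_iff_pow_eq_one.mp (h.ord ▸ hm)
    rw [← Units.val_pow_eq_pow_val, h4, Units.val_one]
  have h4 := geom_sum_mul (ω : ℂ) m
  rw [h3, sub_self] at h4
  exact (mul_eq_zero.mp h4).resolve_right (sub_ne_zero.mpr h2)

theorem starLow : StarLow := by
  intro T V _ _ _ Λ c hc w A hwA d ω hω
  set z : T → ℂˣ := fun t => chA w A ω (c t) with hz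
  set Q : T → Prop := fun t => c t = w ∨ c t ∈ A with hQ
  let f : (T → ℂ) →ₗ[ℂ] (T → ℂ) :=
    LinearMap.pi (fun t => (1 - (z t : ℂ)) • (LinearMap.proj t : (T → ℂ) →ₗ[ℂ] ℂ))
  have hf : ∀ φ t, f φ t = (1 - (z t : ℂ)) * φ t := fun φ t => rfl
  have hmem : ∀ φ : Phi Λ Q (oe Λ c w d), f.domRestrict (Phi Λ Q (oe Λ c w d)) φ ∈ Sol Λ z := by
    rintro ⟨φ, hφ⟩
    rw [LinearMap.domRestrict_apply]
    obtain ⟨h0, h1⟩ := mem_Phi.mp hφ
    intro s t hst
    rw [hf, hf]
    show RelE _ _ _ ((1 - (z s : ℂ)) * φ s) ((1 - (z t : ℂ)) * φ t)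
    unfold RelE
    split_ifs with he
    · have key : (1 - (z t : ℂ)) * (1 - (z s : ℂ)) * (φ s - φ t) = 0 := by
        by_cases hs : Q s
        · by_cases ht : Q t
          · have h2 : s(s, t) ∉ oe Λ c w d := fun h => h.2.1 he
            rw [h1 s t hst hs ht h2, sub_self, mul_zero]
          · have h2 : z t = 1 := StarLow_out w A ω ht
            rw [h2, Units.val_one, sub_self, zero_mul, zero_mul]
        · have h2 : z s = 1 := StarLow_out w A ω hs
          rw [h2, Units.val_one, sub_self, mul_zero, zero_mul]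
      linear_combination (∑ i ∈ range (Λ.label s(s, t) / 2), ((z s : ℂ) * (z t : ℂ)) ^ i) * key
    · have hcc : c s = c t :=
        (hc.iff s t).mpr (SimpleGraph.Adj.reachable (G := oddGraph Λ) ⟨hst, he⟩)
      have hzz : z s = z t := by
        show chA w A ω (c s) = chA w A ω (c t)
        rw [hcc]
      by_cases hs : Q s
      · have ht : Q t := by
          show c t = w ∨ c t ∈ A
          rw [← hcc]
          exact hs
        by_cases h2 : s(s, t) ∈ oe Λ c w d
        · have h3 : c s = w := h2.2.2.2 s (Sym2.mem_mk_left s t)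
          have h4 : z s = -ω := by
            show chA w A ω (c s) = -ω
            rw [h3, StarLow_w]
          rw [h4, StarLow_sum hω h2.2.2.1, zero_mul]
        · rw [h1 s t hst hs ht h2, hzz, sub_self, mul_zero]
      · have ht : ¬ Q t := by
          show ¬ (c t = w ∨ c t ∈ A)
          rw [← hcc]
          exact hs
        rw [h0 s hs, h0 t ht, mul_zero, mul_zero, sub_self, mul_zero]
  let g : Phi Λ Q (oe Λ c w d) →ₗ[ℂ] Sol Λ z :=
    (f.domRestrict (Phi Λ Q (oe Λ c w d))).codRestrict (Sol Λ z) hmem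
  have hg : Function.Injective g := by
    rw [injective_iff_map_eq_zero]
    rintro ⟨φ, hφ⟩ h
    have h0 := (mem_Phi.mp hφ).1
    have h1 : ∀ t, (1 - (z t : ℂ)) * φ t = 0 := fun t =>
      congrFun (congrArg Subtype.val h) t
    refine Subtype.ext (funext fun t => ?_)
    show φ t = 0
    by_cases ht : Q t
    · rcases mul_eq_zero.mp (h1 t) with h2 | h2
      · exfalso
        have h3 : z t ≠ 1 := StarLow_in w A hω ht
        exact h3 (Units.ext (sub_eq_zero.mp h2).symm)
      · exact h2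
    · exact h0 t ht
  exact LinearMap.finrank_le_finrank_of_injective hg

end WGOdd
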