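import Pool.Agent.Lib.MP_107652_al.Odd.Spec

/-!
# MP_107652_al, THEOREM F: the component graph of a full subgraph on a union of components
-/

set_option autoImplicit false

open Finset

namespace WGOdd

open WGirth WGTwin WGOne WGEven WGBar

private theorem SubC_adj {T V : Type} {Λ : LGraph T} {c : T → V} {P : V → Prop}
    {s t : {t // P (c t)}} :
    (oddGraph (sub Λ (fun t => P (c t)))).Adj s t ↔ (oddGraph Λ).Adj s.1 t.1 := Iff.rfl

private theorem SubC_same {T V : Type} {Λ : LGraph T} {c : T → V} (hc : CMap Λ c)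
    {P : V → Prop} (s t : {t // P (c t)}) :
    SameC (sub Λ (fun t => P (c t))) s t ↔ SameC Λ s.1 t.1 := by
  constructor
  · rintro ⟨p⟩
    induction p with
    | nil => exact SimpleGraph.Reachable.refl _
    | cons h p ih => exact (SimpleGraph.Adj.reachable (SubC_adj.1 h)).trans ih
  · rintro ⟨p⟩
    have key : ∀ (s t : T) (_ : (oddGraph Λ).Walk s t) (hs : P (c s)) (ht : P (c t)),
        SameC (sub Λ (fun t => P (c t))) ⟨s, hs⟩ ⟨t, ht⟩ := by
      intro s t p
      induction p with
      | nil => exact fun _ _ => SimpleGraph.Reachable.refl _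
      | cons h p ih =>
        intro hs ht
        have hx := hs
        rw [comp_eq_of_odd hc h.1 h.2] at hx
        exact (SimpleGraph.Adj.reachable (SubC_adj.2 h :
          (oddGraph (sub Λ (fun t => P (c t)))).Adj ⟨_, hs⟩ ⟨_, hx⟩)).trans (ih hx ht)
    exact key s.1 t.1 p s.2 t.2

theorem subC : SubC := by
  intro T V _ _ _ Λ c hc P _
  refine ⟨⟨?_, ?_⟩, ?_, ?_, ?_⟩
  · rintro ⟨v, hv⟩
    obtain ⟨s, rfl⟩ := hc.surj v
    exact ⟨⟨s, hv⟩, rfl⟩
  · intro s t
    rw [SubC_same hc, ← hc.iff, Subtype.mk.injEq]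
  · intro v u
    constructor
    · rintro ⟨h1, s, t, hs, ht, hst⟩
      refine ⟨fun h => h1 (Subtype.ext h), s.1, t.1, ?_, ?_, hst⟩
      · rw [← hs]
      · rw [← ht]
    · rintro ⟨h1, s, t, hs, ht, hst⟩
      have hs' : P (c s) := by rw [hs]; exact v.2
      have ht' : P (c t) := by rw [ht]; exact u.2
      exact ⟨fun h => h1 (congrArg Subtype.val h), ⟨s, hs'⟩, ⟨t, ht'⟩, Subtype.ext hs,
        Subtype.ext ht, hst⟩
  · intro hN
    refine ⟨?_, ?_, ?_⟩
    · intro s t hst he
      rw [SubC_same hc]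
      exact hN.ev s.1 t.1 hst he
    · intro s0 t0 h0
      obtain ⟨col, h1, h2⟩ := hN.br s0.1 t0.1 (SubC_adj.1 h0)
      refine ⟨fun s => col s.1, h1, fun s t hst hne => h2 s.1 t.1 (SubC_adj.1 hst) ?_⟩
      intro h
      apply hne
      rcases Sym2.eq_iff.1 h with ⟨h4, h5⟩ | ⟨h4, h5⟩
      · rw [Subtype.ext h4, Subtype.ext h5]
      · rw [Subtype.ext h4, Subtype.ext h5, Sym2.eq_swap]
    · intro s t s' t' hst hst' h1 h2 h3 h4
      rw [SubC_same hc] at h1 h2 h3
      obtain ⟨h5, h6⟩ := hN.un s.1 t.1 s'.1 t'.1 hst hst' h1 h2 h3 h4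
      exact ⟨Subtype.ext h5, Subtype.ext h6⟩
  · intro w hw d
    rw [← Set.ncard_image_of_injective _ (Sym2.map.injective Subtype.val_injective)]
    congr 1
    ext e
    constructor
    · rintro ⟨e', ⟨h1, h2, h3, h4⟩, rfl⟩
      induction e' using Sym2.ind with
      | _ x y =>
        rw [Sym2.map_mk]
        refine ⟨(SimpleGraph.mem_edgeSet _).mpr ((SimpleGraph.mem_edgeSet _).mp h1), h2, h3, ?_⟩
        intro s hs
        rcases Sym2.mem_iff.1 hs with h | h
        · rw [h]
          exact congrArg Subtype.val (h4 x (Sym2.mem_mk_left x y))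
        · rw [h]
          exact congrArg Subtype.val (h4 y (Sym2.mem_mk_right x y))
    · induction e using Sym2.ind with
      | _ x y =>
        rintro ⟨h1, h2, h3, h4⟩
        have hx : c x = w := h4 x (Sym2.mem_mk_left x y)
        have hy : c y = w := h4 y (Sym2.mem_mk_right x y)
        have hx' : P (c x) := by rw [hx]; exact hw
        have hy' : P (c y) := by rw [hy]; exact hw
        refine ⟨s(⟨x, hx'⟩, ⟨y, hy'⟩), ⟨(SimpleGraph.mem_edgeSet _).mpr
          ((SimpleGraph.mem_edgeSet _).mp h1), h2, h3, ?_⟩, rfl⟩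
        intro s hs
        rcases Sym2.mem_iff.1 hs with h | h
        · rw [h]
          exact Subtype.ext hx
        · rw [h]
          exact Subtype.ext hy

end WGOdd
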