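import Pool.Agent.Lib.MP_107652_al.Odd.Spec
import Pool.Agent.Lib.MP_107652_al.Twin.PermEx
import Pool.Agent.Lib.MP_107652_al.Twin.DomM
import Pool.Agent.Lib.MP_107652_al.Twin.DomN
import Pool.Agent.Lib.MP_107652_al.Twin.DomTr
import Pool.Agent.Lib.MP_107652_al.Twin.DegLe
import Pool.Agent.Lib.MP_107652_al.Twin.AdjIso
import Pool.Agent.Lib.MP_107652_al.One.AltRel
import Pool.Agent.Lib.MP_107652_al.One.RepSol
import Pool.Agent.Lib.MP_107652_al.One.OddEq
import Pool.Agent.Lib.MP_107652_al.One.SolEq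

/-!
# MP_107652_al, THEOREM F: existence of the data of an isomorphism with a nonzero diagonal
-/

set_option autoImplicit false

open Finset

namespace WGOdd

open WGirth WGTwin WGOne WGEven WGBar

/-- In a commutative group the relations hold if the values agree along the odd edges. -/
private theorem TDOEx_rel {A : Type} [CommGroup A] (m : ℕ) (a b : A) (h : ¬ Even m → a = b) :
    alt m a b = alt m b a := by
  by_cases hm : Even m
  · obtain ⟨k, rfl⟩ := hm
    rw [← two_mul, alt_two_mul, alt_two_mul, mul_comm]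
  · rw [h hm]

/-- Equal dimensions of the spaces of cocycles. -/
private theorem TDOEx_chr {S T V : Type} [Fintype V] (Γ : LGraph S) (Λ : LGraph T) (cΓ : S → V)
    (cΛ : T → V) (hc : CMap Λ cΛ) (φ : Artin Γ ≃* Artin Λ) (M : V → V → ℤ)
    (h : IsMat cΓ cΛ φ.toMonoidHom M) (z : V → ℂˣ) :
    Module.finrank ℂ (Sol Γ (fun s => pz M z (cΓ s))) =
      Module.finrank ℂ (Sol Λ (fun t => z (cΛ t))) := by
  obtain ⟨χ, hχ⟩ := exists_homO Λ (fun t => z (cΛ t)) (by
    intro s t hst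
    refine TDOEx_rel _ _ _ (fun hodd => ?_)
    have h1 : (oddGraph Λ).Adj s t := ⟨hst, hodd⟩
    rw [(hc.iff s t).2 h1.reachable])
  have h1 := WGOne.solEq (WGOne.repSol WGOne.altRel) WGOne.oddEq S T Γ Λ φ χ
  have h2 : (fun s => χ (φ (gen Γ s))) = fun s => pz M z (cΓ s) := by
    funext s
    exact h ℂˣ χ z hχ s
  have h3 : (fun t => χ (gen Λ t)) = fun t => z (cΛ t) := funext hχ
  rw [h2, h3] at h1
  exact h1

/-- the matrix of `φ` after renaming the components of `Λ` -/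
private theorem TDOEx_matM {S T V W : Type} [Fintype V] [Fintype W] {Γ : LGraph S} {Λ : LGraph T}
    {cΓ : S → V} {c0 : T → W} {φ : Artin Γ →* Artin Λ} {M0 : W → V → ℤ}
    (h : IsMat cΓ c0 φ M0) (σ : V ≃ W) :
    IsMat cΓ (fun t => σ.symm (c0 t)) φ (fun v w => M0 (σ v) w) := by
  intro A _ f z hf s
  rw [h A f (fun i => z (σ.symm i)) hf s, ← Equiv.prod_comp σ]
  refine Finset.prod_congr rfl fun i _ => ?_
  rw [Equiv.symm_apply_apply]

/-- the matrix of `φ.symm` after renaming the components of `Λ` -/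
private theorem TDOEx_matN {S T V W : Type} [Fintype V] {Γ : LGraph S} {Λ : LGraph T}
    {cΓ : S → V} {c0 : T → W} {ψ : Artin Λ →* Artin Γ} {N0 : V → W → ℤ}
    (h : IsMat c0 cΓ ψ N0) (σ : V ≃ W) :
    IsMat (fun t => σ.symm (c0 t)) cΓ ψ (fun v w => N0 v (σ w)) := by
  intro A _ f z hf t
  rw [h A f z hf t]
  refine Finset.prod_congr rfl fun i _ => ?_
  simp only [Equiv.apply_symm_apply]

/-- The main construction for given maps to the components. -/
private theorem TDOEx_main (hMat : MatEx) (hPre : PreR) {S T V W : Type} [Fintype S] [Fintype T]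
    [Fintype V] [DecidableEq V] [Fintype W] [DecidableEq W] (Γ : LGraph S) (Λ : LGraph T)
    (cΓ : S → V) (c0 : T → W) (hΓ : CMap Γ cΓ) (h0 : CMap Λ c0) (φ : Artin Γ ≃* Artin Λ) :
    ∃ (cΛ : T → V) (M N : V → V → ℤ), TDO Γ Λ cΓ cΛ M N := by
  obtain ⟨M0, hM0⟩ := hMat S T V W Γ Λ cΓ c0 hΓ h0 φ.toMonoidHom
  obtain ⟨N0, hN0⟩ := hMat T S W V Λ Γ c0 cΓ h0 hΓ φ.symm.toMonoidHom
  have pre := (hPre S T V W Γ Λ cΓ c0 hΓ h0 φ M0 N0 hM0 hN0).1
  obtain ⟨σ, hσ⟩ := WGTwin.permEx V W M0 N0 pre.nm pre.mn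
  obtain ⟨hcard, hdM⟩ := WGTwin.domM WGTwin.degLe WGTwin.permEx V W (bar Γ cΓ) (bar Λ c0) M0 N0
    pre σ hσ
  have hdN := WGTwin.domN WGTwin.domTr V W (bar Λ c0) M0 N0 pre.nm σ hdM
  have hadj := WGTwin.adjIso WGTwin.domTr V W (bar Γ cΓ) (bar Λ c0) M0 N0 pre σ hσ hcard hdM hdN
  have hdom : ∀ c r, Dom (bar Λ c0) (σ c) (σ r) → Dom (bar Γ cΓ) c r := by
    intro c r h j hj
    rcases h (σ j) ((hadj c j).1 hj) with h1 | h1
    · exact Or.inl (σ.injective h1)
    · exact Or.inr ((hadj j r).2 h1)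
  have cm : CMap Λ (fun t => σ.symm (c0 t)) := by
    refine ⟨σ.symm.surjective.comp h0.surj, fun s t => ?_⟩
    rw [σ.symm.injective.eq_iff]
    exact h0.iff s t
  have hM := TDOEx_matM hM0 σ
  have hN := TDOEx_matN hN0 σ
  obtain ⟨pre', qN, qM⟩ := hPre S T V V Γ Λ cΓ (fun t => σ.symm (c0 t)) hΓ cm φ _ _ hM hN
  refine ⟨fun t => σ.symm (c0 t), fun v w => M0 (σ v) w, fun v w => N0 v (σ w), ⟨hΓ, cm,
    ⟨pre', ?_, ?_, ?_⟩, qN, qM, ?_, ?_⟩, hσ⟩
  · intro a b
    rw [hadj a b, bar_adj, bar_adj]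
    constructor
    · rintro ⟨h1, s, t, hs, ht, hst⟩
      refine ⟨fun h => h1 (by rw [h]), s, t, ?_, ?_, hst⟩
      · simp only [hs, Equiv.symm_apply_apply]
      · simp only [ht, Equiv.symm_apply_apply]
    · rintro ⟨h1, s, t, hs, ht, hst⟩
      refine ⟨fun h => h1 (σ.injective h), s, t, ?_, ?_, hst⟩
      · exact (Equiv.symm_apply_eq σ).1 hs
      · exact (Equiv.symm_apply_eq σ).1 ht
  · intro c r h
    exact hdom c r (hdM c (σ r) h)
  · intro c r h
    exact hdom r c (hdN c (σ r) h)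
  · exact TDOEx_chr Γ Λ cΓ _ cm φ _ hM
  · exact TDOEx_chr Λ Γ _ cΓ hΓ φ.symm _ hN

theorem tDOEx : MatEx → PreR → TDOEx := by
  intro hMat hPre S T _ _ Γ Λ φ
  have hsΓ : Function.Surjective (oddGraph Γ).connectedComponentMk := fun c => Quot.exists_rep c
  have hsΛ : Function.Surjective (oddGraph Λ).connectedComponentMk := fun c => Quot.exists_rep c
  have hfΓ : Finite (oddGraph Γ).ConnectedComponent := Finite.of_surjective _ hsΓ
  have hfΛ : Finite (oddGraph Λ).ConnectedComponent := Finite.of_surjective _ hsΛ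
  let _ : Fintype (oddGraph Γ).ConnectedComponent := Fintype.ofFinite _
  let _ : DecidableEq (oddGraph Γ).ConnectedComponent := Classical.decEq _
  let _ : Fintype (oddGraph Λ).ConnectedComponent := Fintype.ofFinite _
  let _ : DecidableEq (oddGraph Λ).ConnectedComponent := Classical.decEq _
  have cΓ : CMap Γ (oddGraph Γ).connectedComponentMk :=
    ⟨hsΓ, fun s t => SimpleGraph.ConnectedComponent.eq⟩
  have cΛ : CMap Λ (oddGraph Λ).connectedComponentMk :=
    ⟨hsΛ, fun s t => SimpleGraph.ConnectedComponent.eq⟩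
  obtain ⟨c, M, N, h⟩ := TDOEx_main hMat hPre Γ Λ (oddGraph Γ).connectedComponentMk
    (oddGraph Λ).connectedComponentMk cΓ cΛ φ
  exact ⟨_, inferInstance, inferInstance, _, c, M, N, h⟩

end WGOdd
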