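import Pool.Agent.Lib.MP_107652_al.Odd.Spec

/-!
# MP_107652_al, THEOREM F: codimension of the cocycles which are constant on a component
-/

set_option autoImplicit false

open Finset

namespace WGOdd

open WGirth WGTwin WGOne WGEven WGBar

private theorem TightG_cod {S : Type} [Fintype S] (W : Submodule ℂ (S → ℂ))
    (f : (S → ℂ) →ₗ[ℂ] ℂ) :
    Module.finrank ℂ W ≤ Module.finrank ℂ (W ⊓ LinearMap.ker f : Submodule ℂ (S → ℂ)) + 1 := by
  have h1 := LinearMap.finrank_range_add_finrank_ker (f.domRestrict W)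
  have h2 : Module.finrank ℂ (LinearMap.range (f.domRestrict W)) ≤ 1 := by
    have h := Submodule.finrank_le (LinearMap.range (f.domRestrict W))
    rwa [Module.finrank_self] at h
  have h3 : Module.finrank ℂ (LinearMap.ker (f.domRestrict W)) =
      Module.finrank ℂ (W ⊓ LinearMap.ker f : Submodule ℂ (S → ℂ)) := by
    rw [← Submodule.map_comap_subtype, Submodule.finrank_map_subtype_eq]
    rfl
  omega

/-- functions which are constant on the edges in `E` -/
private def TightG_K {S : Type} (E : Finset (Sym2 S)) : Submodule ℂ (S → ℂ) where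
  carrier := {b | ∀ s t, s(s, t) ∈ E → b s = b t}
  add_mem' := by
    intro b b' h h' s t hst
    rw [Pi.add_apply, Pi.add_apply, h s t hst, h' s t hst]
  zero_mem' := fun _ _ _ => rfl
  smul_mem' := by
    intro a b h s t hst
    rw [Pi.smul_apply, Pi.smul_apply, h s t hst]

private theorem TightG_codE {S : Type} [Fintype S] (W : Submodule ℂ (S → ℂ))
    (E : Finset (Sym2 S)) :
    Module.finrank ℂ W ≤ Module.finrank ℂ (W ⊓ TightG_K E : Submodule ℂ (S → ℂ)) + E.card := by
  classical
  induction E using Finset.induction_on with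
  | empty =>
    have h : (W ⊓ TightG_K (∅ : Finset (Sym2 S))) = W := by
      refine le_antisymm inf_le_left (le_inf le_rfl fun b _ s t hst => ?_)
      exact absurd hst (Finset.notMem_empty _)
    rw [h]
    omega
  | insert e E he ih =>
    induction e using Sym2.ind with
    | _ x y =>
      have h1 := TightG_cod (W ⊓ TightG_K E)
        ((LinearMap.proj x : (S → ℂ) →ₗ[ℂ] ℂ) - LinearMap.proj y)
      have h2 : Module.finrank ℂ (W ⊓ TightG_K E ⊓ LinearMap.ker
          ((LinearMap.proj x : (S → ℂ) →ₗ[ℂ] ℂ) - LinearMap.proj y) : Submodule ℂ (S → ℂ)) ≤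
          Module.finrank ℂ (W ⊓ TightG_K (insert s(x, y) E) : Submodule ℂ (S → ℂ)) := by
        apply Submodule.finrank_mono
        rintro b ⟨⟨hb1, hb2⟩, hb3⟩
        refine ⟨hb1, fun s t hst => ?_⟩
        have h3 : b x = b y := sub_eq_zero.1 hb3
        rcases Finset.mem_insert.1 hst with h | h
        · rcases Sym2.eq_iff.1 h with ⟨h4, h5⟩ | ⟨h4, h5⟩
          · rw [h4, h5, h3]
          · rw [h4, h5, h3]
        · exact hb2 s t h
      rw [Finset.card_insert_of_notMem he]
      omega

theorem tightG : TightG := by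
  intro S V _ _ _ Γ c hc _ y w d ω hω hy
  classical
  have hfin : (oe Γ c w d).Finite := Set.toFinite _
  have h1 := TightG_codE (Sol Γ (fun s => y (c s))) hfin.toFinset
  rw [← Set.ncard_eq_toFinset_card _ hfin] at h1
  refine h1.trans (Nat.add_le_add_right (Submodule.finrank_mono ?_) _)
  rintro b ⟨hb1, hb2⟩
  refine ⟨hb1, ?_⟩
  -- the number `-y w`
  obtain ⟨a, ha, hao⟩ : ∃ a : ℂˣ, a = -y w ∧ orderOf a = d := by
    refine ⟨_, rfl, ?_⟩
    rcases hy with h | h
    · rw [h, neg_neg, hω.ord]
    · rw [h, inv_neg, neg_neg, orderOf_inv, hω.ord]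
  -- one edge
  have h2 : ∀ s t, (oddGraph Γ).Adj s t → c s = w → b s = b t := by
    intro s t hst hs
    have hct : c t = w := by rw [← comp_eq_of_odd hc hst.1 hst.2, hs]
    by_cases hd : d ∣ Γ.label s(s, t)
    · refine hb2 s t ?_
      rw [Set.Finite.mem_toFinset]
      refine ⟨(SimpleGraph.mem_edgeSet _).mpr hst.1, hst.2, hd, ?_⟩
      intro x hx
      rcases Sym2.mem_iff.1 hx with h | h
      · rw [h, hs]
      · rw [h, hct]
    · have h3 := hb1 s t hst.1
      unfold RelE at h3
      rw [if_neg hst.2] at h3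
      rcases mul_eq_zero.1 h3 with h4 | h4
      · exfalso
        apply hd
        have h5 := geom_sum_mul (-((y (c s) : ℂˣ) : ℂ)) (Γ.label s(s, t))
        rw [h4, zero_mul, eq_comm, sub_eq_zero, hs] at h5
        rw [← hao, orderOf_dvd_iff_pow_eq_one, ha]
        apply Units.ext
        rw [Units.val_pow_eq_pow_val, Units.val_neg, h5, Units.val_one]
      · exact sub_eq_zero.1 h4
  have h3 : ∀ s t (_ : (oddGraph Γ).Walk s t), c s = w → b s = b t := by
    intro s t p
    induction p with
    | nil => exact fun _ => rfl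
    | cons h p ih =>
      intro hs
      rw [h2 _ _ h hs]
      exact ih (by rw [← comp_eq_of_odd hc h.1 h.2, hs])
  intro s t hs ht
  obtain ⟨p⟩ := (hc.iff s t).1 (hs.trans ht.symm)
  exact h3 s t p hs

end WGOdd
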