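import Pool.Agent.Lib.MP_107652_al.Bar.Main
import Pool.Agent.Lib.MP_107652_al.One.Inv
import Pool.Agent.Lib.MP_107652_al.Odd.AllBr
import Pool.Agent.Lib.MP_107652_al.Odd.BlkO
import Pool.Agent.Lib.MP_107652_al.Odd.BrFun
import Pool.Agent.Lib.MP_107652_al.Odd.ChrU
import Pool.Agent.Lib.MP_107652_al.Odd.CntG
import Pool.Agent.Lib.MP_107652_al.Odd.CntL
import Pool.Agent.Lib.MP_107652_al.Odd.CompDim
import Pool.Agent.Lib.MP_107652_al.Odd.Desc
import Pool.Agent.Lib.MP_107652_al.Odd.EvenDat
import Pool.Agent.Lib.MP_107652_al.Odd.ExtOne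
import Pool.Agent.Lib.MP_107652_al.Odd.Fin
import Pool.Agent.Lib.MP_107652_al.Odd.GamAlpha
import Pool.Agent.Lib.MP_107652_al.Odd.GamBeta
import Pool.Agent.Lib.MP_107652_al.Odd.GamStep
import Pool.Agent.Lib.MP_107652_al.Odd.GqEx
import Pool.Agent.Lib.MP_107652_al.Odd.KDat
import Pool.Agent.Lib.MP_107652_al.Odd.LamStep
import Pool.Agent.Lib.MP_107652_al.Odd.LocIneq
import Pool.Agent.Lib.MP_107652_al.Odd.MaxA
import Pool.Agent.Lib.MP_107652_al.Odd.MonoCone
import Pool.Agent.Lib.MP_107652_al.Odd.MonoEx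
import Pool.Agent.Lib.MP_107652_al.Odd.NoOddOf
import Pool.Agent.Lib.MP_107652_al.Odd.PhiBr
import Pool.Agent.Lib.MP_107652_al.Odd.PhiIns
import Pool.Agent.Lib.MP_107652_al.Odd.SingG
import Pool.Agent.Lib.MP_107652_al.Odd.SingL
import Pool.Agent.Lib.MP_107652_al.Odd.SolPhi
import Pool.Agent.Lib.MP_107652_al.Odd.StarLow
import Pool.Agent.Lib.MP_107652_al.Odd.SubC
import Pool.Agent.Lib.MP_107652_al.Odd.TDOEx
import Pool.Agent.Lib.MP_107652_al.Odd.TightG
import Pool.Agent.Lib.MP_107652_al.Odd.XEq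

/-!
# MP_107652_al, THEOREM F

`theoremF`: if no odd edge of `Γ` lies on a cycle and the Artin groups of `Γ` and `Λ` are isomorphic (`Λ`
arbitrary), then no odd edge of `Λ` lies on a cycle. `theoremFw`: and the weighted girths agree.
-/

set_option autoImplicit false

namespace WGOdd

open WGirth WGTwin WGOne WGEven WGBar

/-- **Theorem F.** -/
theorem theoremF : TheoremF := by
  have hH : BarHom := barHom
  have hPre : PreR := preR hH heisR (starPR starCore) (starQR starCore)
  have hTD : TDOEx := tDOEx (matEx hH) hPre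
  have hCone : ConeEx := by
    have hRep : RepSol := repSol altRel
    have hTwo : SolTwo := solTwo hRep
    have hGen : SolGen := solGen nrmE
    have hKill : Kill := kill nrmE
    exact coneEx (red solSplit hGen cstEq hKill genNum blk) hTwo
      (noK piece2 solSplit hGen cstEq hKill genNum blk)
  have hThm : ConeThm := fun S V _ _ Γ Λ comp M N C h => cone Γ Λ comp M N C h
  have hI : PhiIns := phiIns
  have hB : PhiBr := phiBr hI
  have hS : SolPhi := solPhi
  have hC : CntG := cntG hS hB brFun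
  have hM : MonoEx := monoEx gqEx hS hC hI
  have hL : CntL := cntL gqEx hS hC
  have hSing : SingL := singL (kDat extOne xEq singG) (evenDat hCone hThm)
  have hG : GamStep := gamStep desc gamBeta gamAlpha
  have hMC : MonoCone := monoCone (compDim hB) starLow tightG hG lamStep maxA
  have hLoc : LocIneq := locIneq (chrU blkO) subC hMC hSing
  exact fin_of hTD niceF hM hL hLoc hSing (allBr hI) noOddOf

/-- If no odd edge of `Γ` lies on a cycle and the Artin groups of `Γ` and `Λ` are isomorphic, then no odd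
edge of `Λ` lies on a cycle and the weighted girths agree. -/
theorem theoremFw (S T : Type) [Finite S] [Finite T] (Γ : LGraph S) (Λ : LGraph T)
    (hΓ : NoOdd Γ) (e : Artin Γ ≃* Artin Λ) : NoOdd Λ ∧ wgirth Γ = wgirth Λ := by
  classical
  have hΛ : NoOdd Λ := by
    let _ := Fintype.ofFinite S
    let _ := Fintype.ofFinite T
    exact theoremF S T Γ Λ hΓ e
  exact ⟨hΛ, theoremRcor S T Γ Λ hΓ hΛ e⟩

end WGOdd
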