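import Pool.Agent.Lib.MP_107652_al.Odd.Spec

/-!
# MP_107652_al, THEOREM F: matched components are monomial
-/

set_option autoImplicit false

open Finset

namespace WGOdd

open WGirth WGTwin WGOne WGEven WGBar

/-- a root of unity of order `d` -/
private theorem MonoEx_root (d : ℕ) (h : ¬ Even d) (h3 : 3 ≤ d) : ∃ ω : ℂˣ, Od d ω := by
  have h0 : d ≠ 0 := by omega
  have h1 := Complex.isPrimitiveRoot_exp d h0
  refine ⟨Units.mk0 _ (Complex.exp_ne_zero (2 * Real.pi * Complex.I / d)), h, h3, ?_⟩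
  rw [← orderOf_units, Units.val_mk0]
  exact h1.eq_orderOf.symm

private theorem MonoEx_norm_root {d : ℕ} {ω : ℂˣ} (h : Od d ω) : ‖((-ω : ℂˣ) : ℂ)‖ = 1 := by
  have h1 : ω ^ d = 1 := by
    rw [← h.ord]
    exact pow_orderOf_eq_one ω
  have h2 : (ω : ℂ) ^ d = 1 := by
    have := congrArg Units.val h1
    simpa using this
  have h3 : d ≠ 0 := by
    have := h.three
    omega
  rw [Units.val_neg, norm_neg]
  exact Complex.norm_eq_one_of_pow_eq_one h2 h3

/-- an odd power of `-ω` is not `1` -/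
private theorem MonoEx_even {d : ℕ} {ω : ℂˣ} (h : Od d ω) {k : ℕ} (hk : (-ω) ^ k = 1) : Even k := by
  by_contra hodd
  have hodd' : Odd k := Nat.not_even_iff_odd.1 hodd
  have hd : Odd d := Nat.not_even_iff_odd.1 h.odd
  rw [hodd'.neg_pow] at hk
  have h1 : ω ^ k = -1 := by
    rw [← neg_neg (ω ^ k), hk]
  have h2 : ω ^ d = 1 := by
    rw [← h.ord]
    exact pow_orderOf_eq_one ω
  have h3 : (ω ^ k) ^ d = 1 := by
    rw [← pow_mul, mul_comm, pow_mul, h2, one_pow]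
  rw [h1, hd.neg_one_pow] at h3
  have h4 := congrArg Units.val h3
  rw [Units.val_neg, Units.val_one] at h4
  norm_num at h4

section

variable {V : Type} [Fintype V] [DecidableEq V]

/-- norms of the image of a character -/
private theorem MonoEx_norm (N : V → V → ℤ) (w : V) (ζ : ℂˣ) (hζ : ‖(ζ : ℂ)‖ = 1) (q : V → ℂˣ)
    (i : V) : ‖((pz N (gz w ζ q) i : ℂˣ) : ℂ)‖ =
      ∏ v, ‖(q v : ℂ)‖ ^ (if v = w then 0 else N v i) := by
  unfold pz
  rw [Units.coe_prod, norm_prod]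
  refine Finset.prod_congr rfl fun v _ => ?_
  rw [Units.val_zpow_eq_zpow_val, norm_zpow]
  unfold gz
  by_cases h : v = w
  · rw [if_pos h, if_pos h, hζ, one_zpow, zpow_zero]
  · rw [if_neg h, if_neg h]

/-- the product of two values -/
private theorem MonoEx_mul (N : V → V → ℤ) (w : V) (ζ : ℂˣ) (q : V → ℂˣ) (i j : V)
    (h : ∀ v, v ≠ w → N v i + N v j = 0) :
    pz N (gz w ζ q) i * pz N (gz w ζ q) j = ζ ^ (N w i + N w j) := by
  unfold pz
  rw [← Finset.prod_mul_distrib, Finset.prod_eq_single w]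
  · rw [← zpow_add]
    unfold gz
    rw [if_pos rfl]
  · intro v _ hv
    rw [← zpow_add, h v hv, zpow_zero]
  · intro hw
    exact absurd (Finset.mem_univ w) hw

end

/-- the case where no column is concentrated at `w` is impossible -/
private theorem MonoEx_caseA (h2 : SolPhi) (h4 : PhiIns) {T V : Type} [Fintype T] [Fintype V]
    [DecidableEq V] {Λ : LGraph T} {cΛ : T → V} {M N : V → V → ℤ} (hc : CMap Λ cΛ)
    (hmn : ∀ i j, ∑ v, M i v * N v j = if i = j then 1 else 0) {q : V → ℂˣ} (hq : Gq q) {d : ℕ}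
    {ω : ℂˣ} (hω : Od d ω) (w : V) (hA : ∀ i, ∃ v, v ≠ w ∧ N v i ≠ 0) :
    Module.finrank ℂ (Sol Λ (fun t => pz N (gz w (-ω) q) (cΛ t))) ≤
      Module.finrank ℂ (Sol Λ (fun t => pz N (gz w (-1) q) (cΛ t))) := by
  have hn1 : ‖((-1 : ℂˣ) : ℂ)‖ = 1 := by
    rw [Units.val_neg, Units.val_one, norm_neg, norm_one]
  have hne : ∀ ζ : ℂˣ, ‖(ζ : ℂ)‖ = 1 → ∀ i, ‖((pz N (gz w ζ q) i : ℂˣ) : ℂ)‖ ≠ 1 := by
    intro ζ hζ i h5
    rw [MonoEx_norm N w ζ hζ q i] at h5
    obtain ⟨v, hv, hv'⟩ := hA i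
    have h6 := hq _ h5 v
    rw [if_neg hv] at h6
    exact hv' h6
  have hne1 : ∀ ζ : ℂˣ, ‖(ζ : ℂ)‖ = 1 → ∀ i, pz N (gz w ζ q) i ≠ 1 := by
    intro ζ hζ i h5
    refine hne ζ hζ i ?_
    rw [h5, Units.val_one, norm_one]
  rw [h2 T V Λ cΛ hc _ (hne1 _ (MonoEx_norm_root hω)), h2 T V Λ cΛ hc _ (hne1 _ hn1)]
  refine (h4 T Λ (fun _ => True)).2.2 _ _ ?_
  rintro e ⟨s, t, rfl, hst, hdg⟩
  have hm : 2 ≤ Λ.label s(s, t) := Λ.two_le _ ((SimpleGraph.mem_edgeSet _).mpr hst)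
  have hnorm := hdg.norm hm (fun ho => by rw [comp_eq_of_odd hc hst ho])
  have hij : cΛ s ≠ cΛ t := by
    intro heq
    rw [heq] at hnorm
    rcases mul_self_eq_one_iff.1 hnorm with h5 | h5
    · exact hne _ (MonoEx_norm_root hω) _ h5
    · have := norm_nonneg ((pz N (gz w (-ω) q) (cΛ t) : ℂˣ) : ℂ)
      linarith
  have heven : Even (Λ.label s(s, t)) := by
    by_contra ho
    exact hij (comp_eq_of_odd hc hst ho)
  obtain ⟨k, hk⟩ : ∃ k, k = Λ.label s(s, t) / 2 := ⟨_, rfl⟩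
  have hdg1 : (pz N (gz w (-ω) q) (cΛ s) * pz N (gz w (-ω) q) (cΛ t)) ^ k = 1 := by
    rcases hdg with ⟨-, -, h5⟩ | ⟨h5, -⟩
    · rw [hk]
      exact h5
    · exact absurd heven h5
  -- the exponents
  have hsum : ∀ v, v ≠ w → N v (cΛ s) + N v (cΛ t) = 0 := by
    intro v hv
    rw [MonoEx_norm N w _ (MonoEx_norm_root hω) q, MonoEx_norm N w _ (MonoEx_norm_root hω) q,
      ← Finset.prod_mul_distrib] at hnorm
    have h5 : ∏ v, ‖(q v : ℂ)‖ ^ (if v = w then 0 else N v (cΛ s) + N v (cΛ t)) = 1 := by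
      rw [← hnorm]
      refine Finset.prod_congr rfl fun u _ => ?_
      have hu : ‖(q u : ℂ)‖ ≠ 0 := norm_ne_zero_iff.2 (Units.ne_zero _)
      by_cases h6 : u = w
      · rw [if_pos h6, if_pos h6, if_pos h6, zpow_zero, one_mul]
      · rw [if_neg h6, if_neg h6, if_neg h6, zpow_add₀ hu]
    have h6 := hq _ h5 v
    rwa [if_neg hv] at h6
  have hκ : M (cΛ s) w * (N w (cΛ s) + N w (cΛ t)) = 1 := by
    have h5 : ∑ v, M (cΛ s) v * (N v (cΛ s) + N v (cΛ t)) = 1 := by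
      simp only [mul_add]
      rw [Finset.sum_add_distrib, hmn, hmn, if_pos rfl, if_neg hij, add_zero]
    rw [Finset.sum_eq_single w] at h5
    · exact h5
    · intro v _ hv
      rw [hsum v hv, mul_zero]
    · intro hw
      exact absurd (Finset.mem_univ w) hw
  have hκ1 : N w (cΛ s) + N w (cΛ t) = 1 ∨ N w (cΛ s) + N w (cΛ t) = -1 :=
    Int.isUnit_iff.1 (IsUnit.of_mul_eq_one _ (by rw [mul_comm]; exact hκ))
  rw [MonoEx_mul N w _ q _ _ hsum] at hdg1
  have hk1 : (-ω) ^ k = 1 := by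
    rcases hκ1 with h5 | h5
    · rw [h5, zpow_one] at hdg1
      exact hdg1
    · rw [h5, zpow_neg, zpow_one, inv_pow, inv_eq_one] at hdg1
      exact hdg1
  have hke := MonoEx_even hω hk1
  refine ⟨s, t, rfl, hst, Or.inl ⟨heven, ?_, ?_⟩⟩
  · rw [MonoEx_mul N w _ q _ _ hsum]
    intro h5
    have h6 : (-1 : ℂˣ) = 1 := by
      rcases hκ1 with h7 | h7
      · rw [h7, zpow_one] at h5
        exact h5
      · rw [h7, zpow_neg, zpow_one, inv_eq_one] at h5
        exact h5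
    have h8 := congrArg Units.val h6
    rw [Units.val_neg, Units.val_one] at h8
    norm_num at h8
  · rw [MonoEx_mul N w _ q _ _ hsum, ← hk]
    rcases hκ1 with h7 | h7
    · rw [h7, zpow_one, hke.neg_one_pow]
    · rw [h7, zpow_neg, zpow_one, inv_pow, hke.neg_one_pow, inv_one]

theorem monoEx : GqEx → SolPhi → CntG → PhiIns → MonoEx := by
  intro h1 h2 h3 h4 S T V _ _ _ _ Γ Λ cΓ cΛ M N h hno w hw
  obtain ⟨s, t, hst, hs⟩ := hw
  obtain ⟨q, hq⟩ := h1 V
  have hmn := h.tdr.td.pre.mn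
  have hnm := h.tdr.td.pre.nm
  obtain ⟨d, hd⟩ : ∃ d, d = Γ.label s(s, t) := ⟨_, rfl⟩
  have hd1 : ¬ Even d := by
    rw [hd]
    exact hst.2
  have hd2 : 2 ≤ d := by
    rw [hd]
    exact Γ.two_le _ ((SimpleGraph.mem_edgeSet _).mpr hst.1)
  have hd3 : 3 ≤ d := by
    by_contra h5
    have h6 : d = 2 := by omega
    exact hd1 (by rw [h6]; exact even_two)
  obtain ⟨ω, hω⟩ := MonoEx_root d hd1 hd3
  obtain ⟨h5, h6⟩ := h3 S V Γ cΓ h.tdr.cmΓ hno w q hq d ω hω
  have h7 : 0 < (oe Γ cΓ w d).ncard := by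
    rw [Set.ncard_pos (Set.toFinite _)]
    refine ⟨s(s, t), (SimpleGraph.mem_edgeSet _).mpr hst.1, hst.2, ?_, ?_⟩
    · rw [hd]
    · intro x hx
      rw [Sym2.mem_iff] at hx
      rcases hx with rfl | rfl
      · exact hs
      · rw [← comp_eq_of_odd h.tdr.cmΓ hst.1 hst.2]
        exact hs
  rw [← h.tdr.chrN] at h5 h6
  by_cases hA : ∀ i, ∃ v, v ≠ w ∧ N v i ≠ 0
  · have h8 := MonoEx_caseA h2 h4 h.tdr.cmΛ hmn hq hω w hA
    omega
  · push Not at hA
    obtain ⟨i, hi⟩ := hA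
    have hB : ∀ l, M l w * N w i = if l = i then 1 else 0 := by
      intro l
      rw [← hmn l i, Finset.sum_eq_single w]
      · intro v _ hv
        rw [hi v hv, mul_zero]
      · intro hw
        exact absurd (Finset.mem_univ w) hw
    have hii : M i w * N w i = 1 := by rw [hB i, if_pos rfl]
    have hN : N w i ≠ 0 := by
      intro h8
      rw [h8, mul_zero] at hii
      exact zero_ne_one hii
    have hM : ∀ l, l ≠ i → M l w = 0 := by
      intro l hl
      have h8 := hB l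
      rw [if_neg hl] at h8
      rcases mul_eq_zero.1 h8 with h9 | h9
      · exact h9
      · exact absurd h9 hN
    have hwi : w = i := by
      by_contra h8
      exact h.dg w (hM w h8)
    subst hwi
    exact ⟨hM, hi, hii⟩

end WGOdd

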