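import Pool.Agent.Lib.MP_107652_al.Odd.Base

/-!
# MP_107652_al, THEOREM F (one graph without odd edges on cycles). Statements with complete proofs

Definitions: `Odd/Base.lean` (read it first: `Mt`, `TDO`, `Mono`, `Phi`, `oe`, `DgE`, `Gq`, `gz`, `Od`, `SolW`, `Usp`, `Ev`, `CD`),
`Bar/Base.lean` (`bar`, `TDR`, `pz`, `zr`, `bar_half_dvd`, `dvd_bar_half`), `Bar/SpecW.lean` (`NoOdd`), `One/BaseA.lean`,
`One/BaseB.lean` (`exists_homO`, `gen_relO`, `oddGraph`, `SameC`, `CExt`, `Tw`, `bb`, `CMap`, `Sol`, `Cst`, `RelE`, `sub`, `InU`, `InG`, `Dat`),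
`One/BaseC.lean` (`Dg`, `u2`, `u3`, `chA`, `norm_u2`, `norm_u3`, `two_three`), `One/SpecA.lean` (`Nice`). Theorems which may
be imported: `WGOne.twPow`, `twAlt`, `altScal`, `oddEq`, `cliffEx`, `solEq`, `solSplit`, `solGen`, `cstEq`, `kill`,
`nrmE`, `genNum`, `blk`, `evenInv`, `coneEx` (files of One), `WGEven.primeEx`, `WGBar.pW0`, `pW1`, `pW2`, `barHom`, `matEx`, `preR`
(files of Bar), and so on. An odd edge joins two vertices of the same component (`comp_eq_of_odd` in Bar/SpecW).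
For an odd number `d` and `ω` of order `d` the number `-ω` has order `2 d`.
-/

set_option autoImplicit false

open Finset

namespace WGOdd

open WGirth WGTwin WGOne WGEven WGBar

/-! ## Part F0: Clifford algebras for graphs without odd edges on cycles -/

/-- **BrFun.** Proof. Let `e = s(s, t)`. `SimpleGraph.isBridge_iff_adj_and_forall_cycle_notMem` (or the lemma about
`adj_and_reachable_delete_edges`): `e` lies on no cycle (`NoOdd`, its label is odd), so `s` and `t` are not reachable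
from each other in the graph without `e` (`Γ.graph.deleteEdges {e}` or `Γ.graph \ fromEdgeSet {e}`). `φ v = 1` if `v` is
reachable from `s` there, `0` otherwise (`classical`). -/
def BrFun : Prop := ∀ (S : Type) (Γ : LGraph S), NoOdd Γ → ∀ s t, (oddGraph Γ).Adj s t →
  ∃ φ : S → ℂ, φ ∈ Phi Γ (fun _ => True) {s(s, t)} ∧ φ s ≠ φ t

/-- **Forest.** A function on the oriented odd edges is a coboundary. Proof (from BrFun). By induction on the
finite set `F` of edges (`Finset.induction_on`): for every `F : Finset (Sym2 S)` of odd edges there is `lam` with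
`lam t = c s t * lam s` whenever `s(s, t) ∈ F`, `(oddGraph Γ).Adj s t`. For `insert e F`, `e = s(a, b)`, `e ∉ F`: let `φ` from BrFun
for `a, b`, `P v = (φ v = φ a)`; `P` holds at `a`, not at `b`, and agrees at the ends of every other edge. Multiply `lam`
on `P` by `κ` with `lam b = c a b * (κ * lam a)`. For the orientation `b, a` of `e` use `c a b * c b a = 1`. Finally take
all odd edges for `F` (`Set.toFinite`). -/
def Forest : Prop := ∀ (S : Type) [Finite S] (Γ : LGraph S), NoOdd Γ → ∀ c : S → S → ℂˣ,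
  (∀ s t, (oddGraph Γ).Adj s t → c s t * c t s = 1) →
  ∃ lam : S → ℂˣ, ∀ s t, (oddGraph Γ).Adj s t → lam t = c s t * lam s

/-- **TwistHomO.** Proof (from Forest; model: One/TwistHom.lean). For every odd edge `c s t * c t s = 1` (cancel in the
two relations, `X.cen`, `X.inj`). Forest: `lam` with `lam t = c s t * lam s`; put `g' s = g s * ζ (lam s)`. By `altScal`
(`l` with label `2 l + 1`): `alt m (g' s) (g' t) = alt m (g s) (g t) * ζ (lam s ^ (l+1) * lam t ^ l)` and
`alt m (g' t) (g' s) = alt m (g t) (g s) * ζ (lam t ^ (l+1) * lam s ^ l)`, so the odd relations hold exactly for `g'`;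
for an even edge (label `2 l`) the factor `(lam s * lam t)^l` is the same on both sides, so `g'` satisfies the relation
with the same `c s t`. Choose an injective `o : V → ℕ`. For `v, w : V` with `o v < o w` which are joined by an edge
`s, t` (`cΓ s = v`, `cΓ t = w`; it is the only one by `pW1`, its label `2 l` is even, `l ≥ 1`) let `b v w` be a number
with `b v w ^ l = (c s t)⁻¹` (`IsAlgClosed.exists_pow_nat_eq`), in all other cases `b v w = 1`. Define `F` by
`exists_homO` with `⟨g' s, Pi.single (cΓ s) 1⟩`. Relations: an odd edge has `cΓ s = cΓ t`: `twAlt`. An even edge has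
`cΓ s ≠ cΓ t` (`pW1`): `alt_two_mul`, `twPow`, `bb_single` as in One/TwistHom.lean (for `o (cΓ s) < o (cΓ t)`, and the
same with the sides exchanged; note `c s t * c t s = 1`). -/
def TwistHomO : Prop := ∀ (V S : Type) [Fintype V] [DecidableEq V] [Fintype S] [DecidableEq S]
  (Γ : LGraph S) (cΓ : S → V), CMap Γ cΓ → NoOdd Γ → ∀ (X : CExt) (g : S → X.E) (c : S → S → ℂˣ),
  (∀ s t, Γ.graph.Adj s t →
    alt (Γ.label s(s, t)) (g s) (g t) = X.ζ (c s t) * alt (Γ.label s(s, t)) (g t) (g s)) →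
  ∃ (b : V → V → ℂˣ) (lam : S → ℂˣ) (F : Artin Γ →* Tw X V b),
    ∀ s, F (gen Γ s) = ⟨g s * X.ζ (lam s), Pi.single (cΓ s) 1⟩

/-- the conclusion of TwistCor for `Λ` -/
def TCor {T : Type} (Λ : LGraph T) : Prop := ∀ (X : CExt) (u : T → X.E) (c : T → T → ℂˣ),
  (∀ s t, Λ.graph.Adj s t →
    alt (Λ.label s(s, t)) (u s) (u t) = X.ζ (c s t) * alt (Λ.label s(s, t)) (u t) (u s)) →
  ∃ (V : Type) (_ : Fintype V) (b : V → V → ℂˣ) (lam : T → ℂˣ) (x : T → V → ℤ)
    (ψ : Artin Λ →* Tw X V b),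
    (∀ s, ψ (gen Λ s) = ⟨u s * X.ζ (lam s), x s⟩) ∧ ∀ s t, SameC Λ s t → x s = x t

/-- **TwistCorO.** Proof (from TwistHomO; model: One/TwistCor.lean). `V = (oddGraph Γ).ConnectedComponent`. As in
One/TwistCor.lean: `ρ : Artin Λ →* X.E ⧸ range ζ` with `ρ (gen s) = [u s]`, choose `g s` (`s` a vertex of `Γ`) with
`[g s] = ρ (φ (gen Γ s))`; the relations of `Γ` hold for the classes (`gen_relO`, `map_alt`), so
`alt m (g s) (g t) = ζ (c' s t) * alt m (g t) (g s)` for some `c'`. TwistHomO: `b`, `lam`, `F`; `ψ = F.comp φ.symm`. The map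
`p ↦ [p.g]` on `Tw X V b` composed with `F` agrees with `ρ ∘ φ` on the generators, and so on as there. -/
def TwistCorO : Prop := ∀ (S T : Type) [Fintype S] [DecidableEq S] [Fintype T] [DecidableEq T]
  (Γ : LGraph S) (Λ : LGraph T), NoOdd Γ → ∀ (_ : Artin Γ ≃* Artin Λ), TCor Λ

/-- **SignCorO.** Proof: copy One/SignCor.lean; TwistCor is replaced by the hypothesis `TCor Λ`. -/
def SignCorO : Prop := ∀ (T : Type) [Fintype T] [DecidableEq T] (Λ : LGraph T), TCor Λ →
  ∀ (ε : Sym2 T → ℂˣ), (∀ e ∈ Λ.graph.edgeSet, ε e = 1 ∨ ε e = -1) →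
  (∀ e ∈ Λ.graph.edgeSet, Λ.label e = 2 → ε e = -1) →
  ∃ (lam : T → ℂˣ) (q : T → T → ℂˣ),
    (∀ s t, (oddGraph Λ).Adj s t → lam t = ε s(s, t) * lam s) ∧
    (∀ s t, Λ.graph.Adj s t → Even (Λ.label s(s, t)) →
      ε s(s, t) * q s t ^ (Λ.label s(s, t) / 2) = 1) ∧
    (∀ s t, SameC Λ s t → q s t = 1) ∧
    (∀ s s' t t', SameC Λ s s' → SameC Λ t t' → q s t = q s' t')

/-- **NiceExO.** Proof (from SignCorO): copy One/NiceEx.lean. -/
def NiceExO : Prop := ∀ (T : Type) [Fintype T] [DecidableEq T] (Λ : LGraph T), TCor Λ → Nice Λ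

/-! ## Part F1: matched components -/

/-- **TDOEx.** Proof: copy Bar/TDREx.lean; `M v v = M0 (σ v) v ≠ 0` by the choice of `σ` (`permEx`). -/
def TDOEx : Prop := ∀ (S T : Type) [Fintype S] [Fintype T] (Γ : LGraph S) (Λ : LGraph T)
  (_ : Artin Γ ≃* Artin Λ), ∃ (V : Type) (_ : Fintype V) (_ : DecidableEq V) (cΓ : S → V)
  (cΛ : T → V) (M N : V → V → ℤ), TDO Γ Λ cΓ cΛ M N

/-- **GqEx.** Proof: `primeEx` (Even/PrimeEx.lean) with exponent `0` at `2`; `q v` = the real number as a unit. -/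
def GqEx : Prop := ∀ (V : Type) [Fintype V] [DecidableEq V], ∃ q : V → ℂˣ, Gq q

/-- **PhiIns.** Proof. `e = s(s, t)`. `Phi Λ Q E` contains the kernel of the linear functional `φ ↦ φ s - φ t` on
`Phi Λ Q (insert e E)`; the range has dimension `≤ 1` (`LinearMap.finrank_range_add_finrank_ker`). The second claim by
induction on the finite set `F`. The third: monotone in `E` (`Submodule.finrank_mono`). -/
def PhiIns : Prop := ∀ (S : Type) [Finite S] (Λ : LGraph S) (Q : S → Prop),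
  (∀ (E : Set (Sym2 S)) (e : Sym2 S),
    Module.finrank ℂ (Phi Λ Q (insert e E)) ≤ Module.finrank ℂ (Phi Λ Q E) + 1) ∧
  (∀ E F : Set (Sym2 S), Module.finrank ℂ (Phi Λ Q (E ∪ F)) ≤
    Module.finrank ℂ (Phi Λ Q E) + F.ncard) ∧
  ∀ E F : Set (Sym2 S), E ⊆ F → Module.finrank ℂ (Phi Λ Q E) ≤ Module.finrank ℂ (Phi Λ Q F)

/-- **PhiBr.** Removing bridges. Proof (from PhiIns). `≤`: PhiIns. `≥`: induction on `E` (`Set.Finite.induction_on` or
on the cardinality): for `e ∉ E` the function `φ` of `e` is in `Phi Λ Q {e} ⊆ Phi Λ Q (insert e E)` but not in `Phi Λ Q E`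
(`e` is an edge not in `E` with different values), so the dimension grows (`Submodule.finrank_lt_finrank_of_lt`). -/
def PhiBr : Prop := ∀ (S : Type) [Finite S] (Λ : LGraph S) (Q : S → Prop) (E : Set (Sym2 S)),
  (∀ e ∈ E, ∃ s t, e = s(s, t) ∧ Λ.graph.Adj s t ∧ Q s ∧ Q t ∧ ∃ φ ∈ Phi Λ Q {e}, φ s ≠ φ t) →
  Module.finrank ℂ (Phi Λ Q E) = Module.finrank ℂ (Phi Λ Q ∅) + E.ncard

/-- **SolPhi.** If no value is `1`, the cocycles are the functions which are constant along the edges which are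
not degenerate. Proof. The linear equivalence `φ ↦ (s ↦ (1 - z (c s)) φ s)`. For an edge `s, t` with label `m`: if `m = 2 k`,
`RelE` reads `(∑ i < k, (z z')^i) * ((1 - z') (1 - z) φ s - (1 - z) (1 - z') φ t) = 0`, and the sum vanishes iff `z z' ≠ 1` and
`(z z')^k = 1` (`geom_sum_mul`, `k ≥ 1`), i.e. iff `Dg m z z'`. If `m` is odd then `c s = c t`, and
`(∑ i < m, (-z)^i) * (1 - z) * (φ s - φ t) = 0`, where the sum vanishes iff `-z ≠ 1`, `(-z)^m = 1`. `DgE` is symmetric in
`s, t` (`Dg m a b ↔ Dg m b a` for even `m`, and `c s = c t` for odd `m`). -/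
def SolPhi : Prop := ∀ (S V : Type) [Finite S] (Λ : LGraph S) (c : S → V), CMap Λ c →
  ∀ z : V → ℂˣ, (∀ v, z v ≠ 1) → Module.finrank ℂ (Sol Λ (fun s => z (c s))) =
    Module.finrank ℂ (Phi Λ (fun _ => True) (DgE Λ c z))

/-- **CntG.** Proof (from SolPhi, PhiBr, BrFun). The values of `gz w (-ω) q` are not `1` (`-ω ≠ 1` since `-ω` has order
`2 d`; `‖q v‖ ≠ 1` by `Gq`). `DgE` for `-ω` is `oe Γ cΓ w d`: an even edge joins different components `v ≠ v'` (`pW1`), the
product of the norms is `‖q v‖ * ‖q v'‖`, `‖q v‖` or `‖q v'‖`, not `1` (`Gq`), so it is not degenerate (a number with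
`x^k = 1`, `k ≥ 1`, has norm `1`). An odd edge in the component `v ≠ w`: `‖q v‖ ≠ 1`, not degenerate. An odd edge in `w`
with label `m`: `Dg m (-ω) _` iff `-ω ≠ -1` and `ω^m = 1`, i.e. `d ∣ m`. PhiBr with BrFun. For `-1` (`-1 ≠ 1`): no edge is
degenerate. -/
def CntG : Prop := ∀ (S V : Type) [Fintype S] [Fintype V] [DecidableEq V] (Γ : LGraph S)
  (cΓ : S → V), CMap Γ cΓ → NoOdd Γ → ∀ (w : V) (q : V → ℂˣ), Gq q → ∀ (d : ℕ) (ω : ℂˣ), Od d ω →
  Module.finrank ℂ (Sol Γ (fun s => gz w (-ω) q (cΓ s))) =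
    Module.finrank ℂ (Phi Γ (fun _ => True) ∅) + (oe Γ cΓ w d).ncard ∧
  Module.finrank ℂ (Sol Γ (fun s => gz w (-1) q (cΓ s))) =
    Module.finrank ℂ (Phi Γ (fun _ => True) ∅)

/-- **MonoEx.** Matched components are monomial. Proof (from GqEx, SolPhi, CntG, PhiIns). Let `s, t` be an odd edge of
`Γ` in the component `w`, `d` its label (`d ≥ 3`: odd and `≥ 2`), `ω = exp(2πi/d)`, so `oe Γ cΓ w d` is not empty. By CntG
`finrank Sol Γ (gz w (-ω) q) > finrank Sol Γ (gz w (-1) q)`; by `TDR.chrN` the same holds for the dimensions of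
`Sol Λ (pz N (gz w ζ q) ∘ cΛ)`, `ζ = -ω` and `ζ = -1`. `pz N (gz w ζ q) i = ζ ^ N w i * ∏ v ≠ w, q v ^ N v i`.
(A) Suppose that for every `i` some `v ≠ w` has `N v i ≠ 0`. Then the norms are not `1` (`Gq`, for both `ζ`). Let `e` be a
degenerate edge for `-ω` with ends in the components `i`, `j`: an odd edge has `i = j` and norm `1`: excluded; an even edge
with `i = j` has norm product `‖_‖^2 ≠ 1`: excluded. So it is even, `i ≠ j`, and the norm product is `1`, so
`N v i + N v j = 0` for all `v ≠ w` (`Gq`); with `κ = N w i + N w j`: for all `l`,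
`(if l = i then 1 else 0) + (if l = j then 1 else 0) = ∑ v, M l v * (N v i + N v j) = M l w * κ` (`Pre.mn`), so (for `l = i`)
`κ = ± 1`. The product of the values at `i`, `j` is `ζ^κ`. `(-ω)^(κ k) = 1`, `k = label / 2`, gives `2 d ∣ k`, so `k` is even,
and `(-1)^κ = -1 ≠ 1`, `(-1)^(κ k) = 1`: the edge is degenerate for `-1`. So `DgE` for `-ω` is contained in `DgE` for `-1`,
and SolPhi, PhiIns (third claim) contradict the strict inequality. (B) So there is `i` with `N v i = 0` for all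
`v ≠ w`. `M l w * N w i = ∑ v, M l v * N v i = δ_li`: so `M l w = 0` for `l ≠ i` and `M i w * N w i = 1`. `TDO.dg`: `M w w ≠ 0`, so
`w = i`. -/
def MonoEx : Prop := ∀ (S T V : Type) [Fintype S] [Fintype T] [Fintype V] [DecidableEq V]
  (Γ : LGraph S) (Λ : LGraph T) (cΓ : S → V) (cΛ : T → V) (M N : V → V → ℤ),
  TDO Γ Λ cΓ cΛ M N → NoOdd Γ → ∀ w, Mt Γ cΓ w → Mono M N w

/-- **CntL.** Proof (from GqEx, SolPhi, CntG). Choose `ω` of order `d` and `q`. As `N v w = 0` for `v ≠ w`, the value of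
`y = pz N (gz w ζ q)` at `w` is `ζ ^ N w w`, `N w w = ± 1`. For `i ≠ w` some `v ≠ w` has `N v i ≠ 0` (otherwise
`1 = ∑ v, M i v * N v i = M i w * N w i`, but `M i w = 0` by `Mono.m0`), so `‖y i‖ ≠ 1`. So no value is `1` (`ζ = -ω` or `-1`).
Degenerate edges for `ζ = -ω`: odd edges in `i ≠ w`: no (norm). Odd edges in `w`, label `m`: `(-y w)^m = ω^(± m) = 1` and
`y w ≠ -1`: iff `d ∣ m`. Even edges join different components (`Nice.ev`, `CMap.iff`) `i ≠ j`; if degenerate, as in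
MonoEx (A) `N v i + N v j = 0` for `v ≠ w`, `κ = N w i + N w j`, `δ_li + δ_lj = M l w * κ`, and `M l w = 0` for `l ≠ w` gives a
contradiction for `l ∈ {i, j}`, `l ≠ w`. So `DgE = oe Λ cΛ w d`; for `ζ = -1` in the same way `DgE = ∅` (an odd edge in `w`:
`y w = -1`). SolPhi and `TDR.chrN`, CntG: `finrank Phi Λ (oe Λ) = finrank Phi Γ ∅ + (oe Γ).ncard` and
`finrank Phi Λ ∅ = finrank Phi Γ ∅`. -/
def CntL : Prop := ∀ (S T V : Type) [Fintype S] [Fintype T] [Fintype V] [DecidableEq V]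
  (Γ : LGraph S) (Λ : LGraph T) (cΓ : S → V) (cΛ : T → V) (M N : V → V → ℤ),
  TDO Γ Λ cΓ cΛ M N → NoOdd Γ → Nice Λ → ∀ w, Mono M N w → ∀ d : ℕ, ¬ Even d → 3 ≤ d →
  Module.finrank ℂ (Phi Λ (fun _ => True) (oe Λ cΛ w d)) =
    Module.finrank ℂ (Phi Λ (fun _ => True) ∅) + (oe Γ cΓ w d).ncard

/-! ## Part F2: unmatched components -/

/-- **ExtOne.** Characters which are `1` on the components with `P`. Proof. Let `b ∈ Sol Λ`. For a component `w` with
`P w`: `b` is constant on it (`kill`, second part, or directly: for an odd edge with `z = 1` the factor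
`∑ i < m, (-1)^i` is `1`). An edge `s, t` with `c s = w`, `¬ P (c t)` has even label `2 k` and `RelE` reads
`(∑ i < k, z^i) * (1 - z) * b s = 0`, i.e. `(1 - z (c t) ^ k) * b s = 0`. An edge between two vertices with `P` (or inside such
a component) of even label gives no condition. So the value `b` on `w` is arbitrary if `z (c t) ^ k = 1` for all
edges from `w` to components without `P`, and `0` otherwise. All edges between `w` and `v`: `z v ^ k = 1` for all their half
labels iff `z v ^ half (bar Λ c) w v = 1` (`orderOf_dvd_iff_pow_eq_one`, `dvd_bar_half`, `bar_half_dvd`). The restriction of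
`b` to the vertices without `P` is an arbitrary element of `Sol (sub Λ _)`. So `Sol Λ` is linearly equivalent to
`Sol (sub Λ _) × (X → ℂ)`, `X` the set on the right (value at a section of `c`); `Module.finrank_prod`,
`Module.finrank_fintype_fun_eq_card`, `Set.ncard_eq_toFinset_card` or `Nat.card`. -/
def ExtOne : Prop := ∀ (T V : Type) [Fintype T] [Fintype V] [DecidableEq V] (Λ : LGraph T)
  (c : T → V), CMap Λ c → ∀ (z : V → ℂˣ) (P : V → Prop), (∀ v, P v → z v = 1) →
  Module.finrank ℂ (Sol Λ (fun t => z (c t))) =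
    Module.finrank ℂ (Sol (sub Λ (fun t => ¬ P (c t))) (fun t => z (c t.1))) +
    Set.ncard {w | P w ∧ ∀ v, ¬ P v → (bar Λ c).graph.Adj w v →
      z v ^ half (bar Λ c) w v = 1}

/-- **XEq.** Proof. Write `k`, `k'` for the half labels of `bar Γ cΓ`, `bar Λ cΛ` and `y = pz M z`. Let `P w`. (→) Suppose
`z j ^ k' w j = 1` for all `j` adjacent to `w` without `P`. Let `v` be adjacent to `w`, `¬ P v`. `y v = ∏ j, z j ^ M j v`. A factor
with `P j` is `1`. Let `¬ P j`, `M j v ≠ 0`: `TD.domM` gives `w = j` (excluded, `P w`) or `w ~ j` (`Dom`, the neighbour `w` of `v`), and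
`Pre.heisM` for the edge `w, v` and the rows `w, j`: `k' w j ∣ k w v * (M w w * M j v - M j w * M w v)`, where `M j w = 0` and
`M w w = ± 1` (`Mono`), so `k' w j ∣ k w v * M j v` and `z j ^ (M j v * k w v) = 1`. So `y v ^ k w v = 1`. (←) The same for `N`:
`z = pz N y` (`Pre.mn`), `y j = 1` for `P j` (`y j = z j ^ M j j` by `Mono.m0`, and `z j = 1`), `Pre.heisN`, `TD.domN` (`N v l ≠ 0` gives
`Dom l v`), `Mono.n0`. -/
def XEq : Prop := ∀ (S T V : Type) [Fintype S] [Fintype T] [Fintype V] [DecidableEq V]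
  (Γ : LGraph S) (Λ : LGraph T) (cΓ : S → V) (cΛ : T → V) (M N : V → V → ℤ),
  TDR Γ Λ cΓ cΛ M N → ∀ P : V → Prop, (∀ w, P w → Mono M N w) → ∀ z : V → ℂˣ,
  (∀ v, P v → z v = 1) → ∀ w, P w →
  ((∀ v, ¬ P v → (bar Γ cΓ).graph.Adj w v → pz M z v ^ half (bar Γ cΓ) w v = 1) ↔
    ∀ v, ¬ P v → (bar Λ cΛ).graph.Adj w v → z v ^ half (bar Λ cΛ) w v = 1)

/-- **SingG.** Proof. The components with `¬ P` have one vertex each, so `cΓ` is a bijection between the vertices of
`sub Γ _` and `{v // ¬ P v}` (surjective by `CMap.surj`). It is an isomorphism of labelled graphs: adjacency by `bar_adj`; the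
label of `bar Γ cΓ` at `s(cΓ s, cΓ t)` is `2 * gcd` over the pairs `(s, t)`, `(t, s)`, i.e. the (even) label of `s(s, t)`
(`dvd_bar_half`, `bar_half_dvd`, `Nat.dvd_antisymm`; it is even, otherwise `cΓ s = cΓ t` by `comp_eq_of_odd`). So `RelE` is the same:
`LinearEquiv.funCongrLeft` restricted to the submodules (`LinearEquiv.ofSubmodules` or build it directly). -/
def SingG : Prop := ∀ (S V : Type) [Fintype S] [Fintype V] [DecidableEq V] (Γ : LGraph S)
  (cΓ : S → V), CMap Γ cΓ → ∀ P : V → Prop, (∀ s t, cΓ s = cΓ t → ¬ P (cΓ s) → s = t) →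
  ∀ z : V → ℂˣ, Module.finrank ℂ (Sol (sub Γ (fun s => ¬ P (cΓ s))) (fun s => z (cΓ s.1))) =
    Module.finrank ℂ (Sol (sub (bar Γ cΓ) (fun v => ¬ P v)) (fun v => z v.1))

/-- **KDat.** Proof (from ExtOne, XEq, SingG). `P = Mt Γ cΓ`. A component without `P` is one vertex of `Γ` (`CMap.iff`: `SameC s t`
and `s ≠ t` give an odd edge at `s`). Fields of `Dat` (One/BaseB.lean) for `Γ' = sub (bar Γ cΓ) _`, `Λ' = sub Λ _`,
`comp' t = ⟨cΛ t, _⟩`, `M' i v = M i v`, `N' v i = N v i`: `even`: `bar_even`. `nice`: odd edges of `Λ'` are odd edges of `Λ`;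
`SameC Λ' s t ↔ SameC Λ s t` (a path of odd edges stays in the component, so in `Λ'`); `ev`, `br`, `un` from `Nice Λ`. `cmap`: the same
equivalence and surjectivity. `adj`: `TD.adj` and `bar_adj`. `MN`: for `i, j` without `P`,
`∑ v, M i v * N v j = δ` and the terms with `P v` vanish (`M i v = 0` by `Mono.m0`, `i ≠ v`); `NM`: the terms with `P i` vanish
(`N v i = 0`, `Mono.n0`); sums over subtypes. `domM`, `domN`: `Dom (bar Γ cΓ) c r` for the restriction (`TD.domM`, `TD.domN`; note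
the order of the arguments). `chr`: let `z : {v // ¬ P v} → ℂˣ`, extend it by `1` to `z1`. ExtOne for `Λ`, `z1` and for `Γ`,
`pz M z1` (which is `1` on `P`: `pz M z1 w = z1 w ^ M w w`), XEq: the two numbers `ncard` agree; `TDR.chrM`; SingG; and
`pz M z1 v = pw M' z v` for `v` without `P` (factors with `P i` are `1`). -/
def KDat : Prop := ∀ (S T V : Type) [Fintype S] [Fintype T] [Fintype V] [DecidableEq V]
  (Γ : LGraph S) (Λ : LGraph T) (cΓ : S → V) (cΛ : T → V) (M N : V → V → ℤ),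
  TDO Γ Λ cΓ cΛ M N → NoOdd Γ → Nice Λ → (∀ w, Mt Γ cΓ w → Mono M N w) →
  ∀ [Fintype {v // ¬ Mt Γ cΓ v}] [DecidableEq {v // ¬ Mt Γ cΓ v}],
  Dat (sub (bar Γ cΓ) (fun v => ¬ Mt Γ cΓ v)) (sub Λ (fun t => ¬ Mt Γ cΓ (cΛ t)))
    (fun t => ⟨cΛ t.1, t.2⟩) (Matrix.of fun i v => M i.1 v.1) (Matrix.of fun v i => N v.1 i.1)

/-- **EvenDat.** Proof: the proof of `evenInv` (One/EvenInv.lean) after the first line. -/
def EvenDat : Prop := ∀ (V S : Type) [Fintype V] [DecidableEq V] [Fintype S] [DecidableEq S]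
  (Γ : LGraph V) (Λ : LGraph S) (comp : S → V) (M N : Matrix V V ℤ), Dat Γ Λ comp M N → IsEven Λ

/-- **SingL.** Proof (from KDat, EvenDat). If `s ≠ t`, `cΛ s = cΛ t` and `¬ Mt Γ cΓ (cΛ s)` then `SameC Λ s t` gives an odd edge
`s, s'` of `Λ`, `cΛ s' = cΛ s`; it is an odd edge of `sub Λ _`, which is even by EvenDat: contradiction. -/
def SingL : Prop := ∀ (S T V : Type) [Fintype S] [Fintype T] [Fintype V] [DecidableEq V]
  (Γ : LGraph S) (Λ : LGraph T) (cΓ : S → V) (cΛ : T → V) (M N : V → V → ℤ),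
  TDO Γ Λ cΓ cΛ M N → NoOdd Γ → Nice Λ → (∀ w, Mt Γ cΓ w → Mono M N w) →
  ∀ s t, cΛ s = cΛ t → ¬ Mt Γ cΓ (cΛ s) → s = t

/-! ## Part F3: the local inequality -/

/-- **CompDim.** Proof (from PhiBr). `Phi Λ (c · = w) ∅` consists of the functions which vanish outside of the
component `w` and are constant on it: the edges inside the component are all odd (`Nice.ev`) and connect it (`CMap.iff`, path
induction); the dimension is `1` (`finrank_eq_one` or the equivalence with `ℂ`; the component is not empty). PhiBr for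
`E = oe Λ c w d`: for `e = s(s0, t0) ∈ E` let `col` from `Nice.br`; `φ t = if c t = w ∧ col t = col s0 then 1 else 0`; an edge
inside the component is odd, so if it is different from `e` the values agree. -/
def CompDim : Prop := ∀ (T V : Type) [Fintype T] [Fintype V] [DecidableEq V] (Λ : LGraph T)
  (c : T → V), CMap Λ c → Nice Λ → ∀ (w : V) (d : ℕ),
  Module.finrank ℂ (Phi Λ (fun t => c t = w) (oe Λ c w d)) = 1 + (oe Λ c w d).ncard

/-- **StarLow.** Proof. The map `φ ↦ (t ↦ (1 - z (c t)) * φ t)`, `z = chA w A ω` (`chA` in One/BaseC: `-ω` at `w`, `3` on `A`, `1`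
elsewhere), is linear and injective on `Phi Λ Q (oe Λ c w d)`, `Q t ↔ c t = w ∨ c t ∈ A` (`z ≠ 1` there: `-ω ≠ 1` as it has
order `2 d`). The image is in `Sol`: an edge `s, t` with `Q s`, `Q t`, not in `oe`: `φ s = φ t`: even label: `RelE` holds; odd label:
`c s = c t`, both values agree. In `oe` (odd label `m`, `d ∣ m`, `c s = c t = w`): the factor `∑ i < m, ω^i = 0`. An edge with `¬ Q t`:
even (an odd edge stays in a component), `z (c t) = 1` and the value at `t` is `0`: `RelE` holds. If `¬ Q s`, `¬ Q t`: both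
values are `0`. -/
def StarLow : Prop := ∀ (T V : Type) [Fintype T] [Fintype V] [DecidableEq V] (Λ : LGraph T)
  (c : T → V), CMap Λ c → ∀ (w : V) (A : Finset V), w ∉ A → ∀ (d : ℕ) (ω : ℂˣ), Od d ω →
  Module.finrank ℂ (Phi Λ (fun t => c t = w ∨ c t ∈ A) (oe Λ c w d)) ≤
    Module.finrank ℂ (Sol Λ (fun t => chA w A ω (c t)))

/-- **TightG.** Proof. For a finite set `E` of edges the subspace of all `b ∈ Sol` with `b s = b t` for `s(s, t) ∈ E`
has codimension `≤ E.ncard` (induction, one linear functional for each edge). For `E = oe Γ c w d` this subspace is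
contained in `SolW`: let `b s = b t` along `oe`. Every edge inside the component `w` is odd (`Ev`); if its label `m` is not
divisible by `d`, `RelE` reads `(∑ i < m, (-y w)^i) * (b s - b t) = 0`, where `-y w = ω` or `ω⁻¹`, and the sum is not zero
(`ω^m ≠ 1`; `geom_sum_mul`). So `b` is constant along all edges of the component, and constant on it (path induction,
`CMap.iff`). -/
def TightG : Prop := ∀ (S V : Type) [Fintype S] [Fintype V] [DecidableEq V] (Γ : LGraph S)
  (c : S → V), CMap Γ c → Ev Γ c → ∀ (y : V → ℂˣ) (w : V) (d : ℕ) (ω : ℂˣ), Od d ω →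
  (y w = -ω ∨ y w = (-ω)⁻¹) → Module.finrank ℂ (Sol Γ (fun s => y (c s))) ≤
    Module.finrank ℂ (SolW Γ c y w) + (oe Γ c w d).ncard

/-- **Desc.** Proof. `b` is constant on every component `v`: for `v = w` by `SolW`; if the component is one vertex this is
trivial; if `y v = 1`: `kill` (second part); if `‖y v‖ ≠ 1`: along an odd edge `(∑ i < m, (-y v)^i) * (b s - b t) = 0` and the
factor is not zero (`nrmE`), path induction (`CMap.iff`, `SameC`). `β v = b (r v)` for a section `r` of `c`. -/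
def Desc : Prop := ∀ (S V : Type) [Fintype S] [Fintype V] [DecidableEq V] (Γ : LGraph S)
  (c : S → V), CMap Γ c → ∀ (y : V → ℂˣ) (w : V), Usp c y w → ∀ b ∈ SolW Γ c y w,
  ∃ β : V → ℂ, b = fun s => β (c s)

/-- **GamBeta.** Proof. Let `T v` mean `y v ≠ 1`. (1) For every edge `s, t` with `c s = u`, `c t = v ≠ u`: the label is even, `2 k`
(an odd edge stays in a component), `RelE` reads `(∑ i < k, y v^i) * (1 - y v) * β u = 0`, so `y v ^ k = 1`. (2) Let `d' u = 1`,
`d' v = -1` if `T v` and `v` is adjacent to `u` in `bar Γ c`, `d' v = 0` otherwise. `w ≠ u` (`y w ≠ 1`), so `w` is adjacent to `u`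
and `d' w = -1`. `y' = zr y u2 d'`: `y' u = 2`, `y' v = 1` for `¬ T v`, `v ≠ u`, and `y' v ≠ 1` for `T v` (`‖y v‖ = 3^e`: if
`d' v = 0` then `y' v = y v ≠ 1`, if `d' v = -1` the norm is `3^e / 2 ≠ 1`, `two_three`). (3) `b' s = 0` if `c s = u`,
`b' s = 1 - y' (c s)` otherwise, is in `Sol Γ (y' ∘ c)`: edges inside a component: even ones do not exist (`Ev`), for odd ones
both values agree. An edge between `v` and `v'`, both `≠ u`: `RelE` holds for the coboundary. Between `u` and `v ≠ u`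
(half label `k`): if `¬ T v`, `y' v = 1` and `b' = 0` at `v`: fine. If `T v`: `y' u * y' v = y v`, `y v ≠ 1`, `y v ^ k = 1`, so
`∑ i < k, (y v)^i = 0`. (4) `b'` and `1 - y' ∘ c` are linearly independent elements of `Sol`: at `u`: `0` and `-1`; at `w`:
both `1 - y' w ≠ 0`. So the dimension is at least 2. -/
def GamBeta : Prop := ∀ (S V : Type) [Fintype S] [Fintype V] [DecidableEq V] (Γ : LGraph S)
  (c : S → V), CMap Γ c → Ev Γ c → ∀ (y : V → ℂˣ) (w : V),
  (∀ v, v ≠ w → (bar Γ c).graph.Adj w v) → (∀ v, ∃ e : ℤ, ‖(y v : ℂ)‖ = (3 : ℝ) ^ e) → y w ≠ 1 →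
  ∀ β : V → ℂ, (fun s => β (c s)) ∈ Sol Γ (fun s => y (c s)) → ∀ u, y u = 1 → β u ≠ 0 →
  ∃ d' : V → ℤ, (d' w = 1 ∨ d' w = -1) ∧
    2 ≤ Module.finrank ℂ (Sol Γ (fun s => zr y u2 d' (c s)))

/-- **GamAlpha.** Proof. Let `T v` mean `y v ≠ 1`, `φ v = β v / (1 - y v)` for `T v`. `S2 v` means `T v` and `φ v ≠ φ w`; `S1 v` means
`T v` and `φ v = φ w`. `S2` is not empty: otherwise `β v = φ w * (1 - y v)` for all `v` (for `¬ T v` both sides are `0`),
excluded by hypothesis. (1) For an edge `s, t` with `S1 (c s)`, `S2 (c t)`: even label `2 k`, and `RelE` gives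
`∑ i < k, (y y')^i = 0`. (2) `d' v = -1` on `S2`, `d' v = 1` if `S1 v` and `v` is adjacent to some element of `S2` in `bar Γ c`,
`0` otherwise. `d' w = 1` (`S1 w`, `w` adjacent to all others). `y' = zr y u2 d'`: `y' v = 1` for `¬ T v`, `y' v ≠ 1` for `T v` (norm
`3^e * 2^(d' v)`, `two_three`; for `d' v = 0` it is `y v`). (3) `b' s = 1 - y' (c s)` if `S2 (c s)`, `0` otherwise, is in
`Sol Γ (y' ∘ c)`: edges inside a component are odd and both values agree; edges between two elements of `S2`, or two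
elements not in `S2`: fine; between `S2` and `¬ T`: `y' = 1` and `b' = 0` at the second end: fine; between `S1` and `S2`:
`d'` is `1` and `-1`, the product `y' y'` is the old one and the geometric sum vanishes by (1). (4) `b'` and
`1 - y' ∘ c` are linearly independent: at `w`: `0` and `1 - y' w ≠ 0`; on `S2` both `1 - y' ≠ 0`. -/
def GamAlpha : Prop := ∀ (S V : Type) [Fintype S] [Fintype V] [DecidableEq V] (Γ : LGraph S)
  (c : S → V), CMap Γ c → Ev Γ c → ∀ (y : V → ℂˣ) (w : V),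
  (∀ v, v ≠ w → (bar Γ c).graph.Adj w v) → (∀ v, ∃ e : ℤ, ‖(y v : ℂ)‖ = (3 : ℝ) ^ e) → y w ≠ 1 →
  ∀ β : V → ℂ, (fun s => β (c s)) ∈ Sol Γ (fun s => y (c s)) → (∀ u, y u = 1 → β u = 0) →
  (∀ κ : ℂ, ∃ v, β v ≠ κ * (1 - (y v : ℂ))) →
  ∃ d' : V → ℤ, (d' w = 1 ∨ d' w = -1) ∧
    2 ≤ Module.finrank ℂ (Sol Γ (fun s => zr y u2 d' (c s)))

/-- **GamStep.** Proof (from Desc, GamBeta, GamAlpha). The coboundary `b0 s = 1 - y (c s)` is in `SolW`. As the dimension is at
least 2, some `b ∈ SolW` is not a multiple of it (`finrank_le_one`). Desc: `b = β ∘ c`. If `β u ≠ 0` for some `u` with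
`y u = 1`: GamBeta. Otherwise GamAlpha (if `β v = κ * (1 - y v)` for all `v` then `b` is a multiple of `b0`). -/
def GamStep : Prop := ∀ (S V : Type) [Fintype S] [Fintype V] [DecidableEq V] (Γ : LGraph S)
  (c : S → V), CMap Γ c → Ev Γ c → ∀ (y : V → ℂˣ) (w : V),
  (∀ v, v ≠ w → (bar Γ c).graph.Adj w v) → (∀ v, ∃ e : ℤ, ‖(y v : ℂ)‖ = (3 : ℝ) ^ e) → y w ≠ 1 →
  Usp c y w → 2 ≤ Module.finrank ℂ (SolW Γ c y w) →
  ∃ d' : V → ℤ, (d' w = 1 ∨ d' w = -1) ∧
    2 ≤ Module.finrank ℂ (Sol Γ (fun s => zr y u2 d' (c s)))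

/-- **LamStep.** Proof. Some `b ∈ Sol` is not a multiple of the coboundary `b0 t = 1 - z (c t)`. `b` is constant on all
components: on `w` and the components with `‖z v‖ ≠ 1` by `nrmE` and path induction, for `z v = 1` by `kill`, for one vertex
trivially: `b = β ∘ c`. If `z v = 1` then `β v = 0`: `v ≠ w`, there is an edge `s, t` with `c s = v`, `c t = w` (`bar_adj`), even
label; `kill` (first part). Let `φ v = β v / (1 - z v)` for `z v ≠ 1`. `φ` is not constant (otherwise `b` is a multiple of `b0`), so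
some `j` has `z j ≠ 1`, `φ j ≠ φ w`, `j ≠ w`. For every edge between `w` and `j` (label `2 k`) `RelE` gives
`∑ i < k, (z w z j)^i = 0`, so `z w z j ≠ 1` and `(z w z j)^k = 1`. Let `a` be as in the last claim: there is an edge between `w`
and `a`; its geometric sum is not zero (`nrmE`), so `φ a = φ w ≠ φ j`. `a ~ j`: for an edge between them the geometric
sum vanishes, so `‖z a‖ * ‖z j‖ = 1` (`nrmE`). -/
def LamStep : Prop := ∀ (T V : Type) [Fintype T] [Fintype V] [DecidableEq V] (Λ : LGraph T)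
  (c : T → V), CMap Λ c → ∀ (z : V → ℂˣ) (w : V), (∀ v, v ≠ w → (bar Λ c).graph.Adj w v) →
  ‖(z w : ℂ)‖ ≠ 1 → Usp c z w → 2 ≤ Module.finrank ℂ (Sol Λ (fun t => z (c t))) →
  ∃ j, j ≠ w ∧ z j ≠ 1 ∧
    (∀ s t, Λ.graph.Adj s t → c s = w → c t = j →
      z w * z j ≠ 1 ∧ (z w * z j) ^ (Λ.label s(s, t) / 2) = 1) ∧
    ∀ a, a ≠ w → z a ≠ 1 → ‖(z w : ℂ)‖ * ‖(z a : ℂ)‖ ≠ 1 → (bar Λ c).graph.Adj a j →
      ‖(z a : ℂ)‖ * ‖(z j : ℂ)‖ = 1

/-- **MaxA.** Proof. Let `s0, t0` be an edge with `c s0 = w`, `c t0 = j` (`bar_adj`). Its label is not `2` (`2 d ∣ label / 2`,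
`d ≥ 3`, label `≥ 2`), so by `Nice.un` (`CMap.iff`) it is the only edge between `w` and `j`. Extend
`φ ∈ Phi Λ (w or A) (oe ..)` by the constant `φ s0` on the component `j`: this is a linear injective map to
`Phi Λ (w or insert j A) (oe ..)`. Check an edge `s, t` with both ends in the larger set: both ends in `w` or `A`: clear (`j ∉ A`,
`j ≠ w`). Both in `j`: equal values. `c s = w`, `c t = j`: `s = s0`. `c s ∈ A`, `c t = j`: they would be adjacent in `bar Λ c`,
excluded. -/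
def MaxA : Prop := ∀ (T V : Type) [Fintype T] [Fintype V] [DecidableEq V] (Λ : LGraph T)
  (c : T → V), CMap Λ c → Nice Λ → ∀ (w : V) (d : ℕ), 3 ≤ d → ∀ (A : Finset V) (j : V), j ≠ w →
  j ∉ A → (bar Λ c).graph.Adj w j →
  (∀ s t, Λ.graph.Adj s t → c s = w → c t = j → 2 * d ∣ Λ.label s(s, t) / 2) →
  (∀ a ∈ A, ¬ (bar Λ c).graph.Adj a j) →
  Module.finrank ℂ (Phi Λ (fun t => c t = w ∨ c t ∈ A) (oe Λ c w d)) ≤
    Module.finrank ℂ (Phi Λ (fun t => c t = w ∨ c t ∈ insert j A) (oe Λ c w d))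

/-- **MonoCone.** Proof (from CompDim, StarLow, TightG, GamStep, LamStep, MaxA). Choose `ω` of order `d`
(`exp (2πi/d)`). Suppose `n + 1 ≤ (oe Λ cΛ w d).ncard`, `n = (oe Γ cΓ w d).ncard`. Consider the finite sets `A` with `w ∉ A`,
`2 d ∣ label / 2` for all edges between `w` and `a ∈ A`, and `n + 2 ≤ finrank (Phi Λ (w or A) (oe ..))`. `A = ∅` is one of them
(CompDim). Choose `A` with maximal cardinality (`Finset.exists_max_image` on the powerset of `univ`). `z = chA w A ω`,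
`y = pz M z`. StarLow and `CD.chr`: `n + 2 ≤ finrank Sol Γ y`. `y w = z w ^ M w w` (`Mono.m0`), `M w w = ± 1`: TightG:
`2 ≤ finrank SolW`. Norms: `‖z i‖` is `3` on `A` and `1` elsewhere, so `‖y v‖ = 3 ^ (∑ a ∈ A, M a v)`. `Usp cΓ y w`: by `CD.usp`
the component is one vertex or `y v = z v ^ M v v`, which is `1` for `v ∉ A` and has norm `3 ^ (± 1)` for `v ∈ A`. `y w ≠ 1`.
GamStep: `d'`. `y' = zr y u2 d'`, `z' = pz N y'`; `z' i = z i * 2 ^ D i`, `D i = ∑ v, d' v * N v i` (`pz N (pz M z) = z` by `mn`), and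
`pz M z' = y'` by `nm`. `D w = d' w * N w w = ± 1` (`Mono.n0`). `CD.chr` for `z'`: `2 ≤ finrank Sol Λ z'`. LamStep for `Λ`, `z'`:
`cone` with `CD.gr`; `‖z' w‖ = 2 ^ D w ≠ 1`; `Usp cΛ z' w`: one vertex, or `z' v = y' v ^ N v v`, `y' v = y v * 2 ^ d' v`, where `y v` is `1`
or has norm `3 ^ (± 1)`: if `‖y' v‖ = 1` then `y v = 1` and `d' v = 0` (`two_three`), so `z' v = 1`. This gives `j`. There is an edge between
`w` and `j`, so `‖z' w‖ * ‖z' j‖ = 1`: `2 ^ (D w + D j) * ‖z j‖ = 1`: so `j ∉ A`, `z j = 1`, `D j = - D w`, `z' w * z' j = -ω`. So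
`(-ω) ^ (label / 2) = 1` for all edges between `w` and `j`: `2 d ∣ label / 2` (`orderOf (-ω) = 2 d`). If no `a ∈ A` is adjacent to
`j` then MaxA shows that `insert j A` is in the family: contradiction to the choice of `A`. So there is `a ∈ A`, `a ~ j`:
`z' a` has norm `3 * 2 ^ D a ≠ 1`, `‖z' w‖ * ‖z' a‖ = 3 * 2 ^ _ ≠ 1`, so LamStep gives `‖z' a‖ * ‖z' j‖ = 1`, i.e.
`3 * 2 ^ _ = 1`: contradiction (`two_three`). -/
def MonoCone : Prop := ∀ (S T V : Type) [Fintype S] [Fintype T] [Fintype V] [DecidableEq V]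
  (Γ : LGraph S) (Λ : LGraph T) (cΓ : S → V) (cΛ : T → V) (M N : V → V → ℤ) (w : V),
  CD Γ Λ cΓ cΛ M N w → ∀ d : ℕ, ¬ Even d → 3 ≤ d → (oe Λ cΛ w d).ncard ≤ (oe Γ cΓ w d).ncard

/-! ## Part F4: reduction to the star of a component, the end -/

/-- **BlkO.** Block structure. Here `InU`, `InG` (One/BaseB.lean) are taken for the labelled graph `bar Γ cΓ` and the
vertex `w`; `R` = neither of them. Proof. `blk` (One/Blk.lean) for `X = M` and for `X = N` (`TD.domM`, `TD.domN`; note the order of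
the arguments of `Dom` in `Blk`: `X r c ≠ 0 → Dom Γ c r`). First claim: Blk (1). Second claim: `c = w`: `Mono` (`r ≠ w` since
`InG r`). `c` adjacent to `w`: `Dom c r` gives `w = r` or `w ~ r`, against `InG r`. -/
def BlkO : Prop := ∀ (S T V : Type) [Fintype S] [Fintype T] [Fintype V] [DecidableEq V]
  (Γ : LGraph S) (Λ : LGraph T) (cΓ : S → V) (cΛ : T → V) (M N : V → V → ℤ),
  TDR Γ Λ cΓ cΛ M N → ∀ w, Mono M N w →
  (∀ c r, ¬ InU (bar Γ cΓ) w c → ¬ InG (bar Γ cΓ) w c → (InU (bar Γ cΓ) w r ∨ InG (bar Γ cΓ) w r) →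
    M r c = 0 ∧ N r c = 0) ∧
  (∀ c r, InU (bar Γ cΓ) w c → InG (bar Γ cΓ) w r → M r c = 0 ∧ N r c = 0)

/-- **ChrU.** Proof (from BlkO; copy One/Red.lean). Write `U`, `G`, `R`. First two claims: for `i, j ∈ U`,
`δ_ij = ∑ v, M i v N v j`, the terms with `v ∈ R` vanish (`M i v = 0`), those with `v ∈ G` vanish (`N v j = 0`); the same for `N`, `M`.
Third claim as in One/Red.lean, with `bar` on both sides: `z' = z` on `U`, `1` on `R`, `exp (t i)` on `G` (`genNum`); `SolSplit` for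
`Λ` with `P = U ∘ cΛ`, `Q = G ∘ cΛ` and for `Γ` with `P = U ∘ cΓ`, `Q = G ∘ cΓ` (both `Γ`, `Λ` are now arbitrary labelled graphs,
treat `Γ` as `Λ` was treated there); the vertices outside (`R`) have `z' = 1`, respectively `pz M z' = 1` (`M i v = 0` for
`v ∈ R`, `i ∉ R`), and are killed by a neighbour in `G` (`kill`); the second summands are `finrank (Cst (sub _ Q))` by `solGen`
(norms not `1`, products of norms not `1`; even edges inside a component have norm product `‖_‖^2`), and agree by `cstBar`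
(Bar/CstBar.lean). `TDR.chrM`. -/
def ChrU : Prop := ∀ (S T V : Type) [Fintype S] [Fintype T] [Fintype V] [DecidableEq V]
  (Γ : LGraph S) (Λ : LGraph T) (cΓ : S → V) (cΛ : T → V) (M N : V → V → ℤ),
  TDR Γ Λ cΓ cΛ M N → ∀ w, Mono M N w → ∀ [Fintype {v // InU (bar Γ cΓ) w v}],
  (∀ v u : {v // InU (bar Γ cΓ) w v},
    ∑ i : {v // InU (bar Γ cΓ) w v}, N v.1 i.1 * M i.1 u.1 = if v.1 = u.1 then 1 else 0) ∧
  (∀ i j : {v // InU (bar Γ cΓ) w v},
    ∑ v : {v // InU (bar Γ cΓ) w v}, M i.1 v.1 * N v.1 j.1 = if i.1 = j.1 then 1 else 0) ∧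
  ∀ z : {v // InU (bar Γ cΓ) w v} → ℂˣ,
    Module.finrank ℂ (Sol (sub Γ (fun s => InU (bar Γ cΓ) w (cΓ s)))
      (fun s => pz (fun i v => M i.1 v.1) z ⟨cΓ s.1, s.2⟩)) =
    Module.finrank ℂ (Sol (sub Λ (fun t => InU (bar Γ cΓ) w (cΛ t))) (fun t => z ⟨cΛ t.1, t.2⟩))

/-- **SubC.** The component graph of a full subgraph on a union of components. Proof. `SameC` for `sub Λ _` is `SameC` for
`Λ` (a path of odd edges stays in a component). `CMap`: this and surjectivity. Adjacency: `bar_adj`. `Nice`: odd edges of the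
subgraph are odd edges of `Λ`. The last claim: the map `e ↦ e.map Subtype.val` is a bijection between the two sets of
edges: injective (`Sym2.map.injective`, `Subtype.val_injective`), and every edge of `oe Λ c w d` has both ends in the
component `w`, so comes from the subgraph (`Set.ncard_image_of_injective` or `Set.ncard_congr`). -/
def SubC : Prop := ∀ (T V : Type) [Fintype T] [Fintype V] [DecidableEq V] (Λ : LGraph T)
  (c : T → V), CMap Λ c → ∀ (P : V → Prop) [Fintype {t // P (c t)}],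
  CMap (sub Λ (fun t => P (c t))) (fun t => (⟨c t.1, t.2⟩ : {v // P v})) ∧
  (∀ v u : {v // P v}, (bar (sub Λ (fun t => P (c t))) (fun t => (⟨c t.1, t.2⟩ : {v // P v}))).graph.Adj
    v u ↔ (bar Λ c).graph.Adj v.1 u.1) ∧
  (Nice Λ → Nice (sub Λ (fun t => P (c t)))) ∧
  ∀ (w : V) (hw : P w) (d : ℕ), (oe (sub Λ (fun t => P (c t)))
    (fun t => (⟨c t.1, t.2⟩ : {v // P v})) ⟨w, hw⟩ d).ncard = (oe Λ c w d).ncard

/-- **LocIneq.** Proof (from ChrU, SubC, MonoCone, SingL). `P = InU (bar Γ cΓ) w`. The fields of `CD` for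
`sub Γ (P ∘ cΓ)`, `sub Λ (P ∘ cΛ)`, the restricted component maps and matrices, the vertex `⟨w, inU_self _ _⟩` (instances by
`classical`): `cmΓ`, `cmΛ`, `nice`: SubC. `evΓ`: `pW1` for `Γ` (labels are the same, `sub_label`). `gr`: SubC and `TDR.gr`. `cone`: SubC and
`InU.1`. `nm`, `mn`, `chr`: ChrU (`if v.1 = u.1` against `if v = u`: `Subtype.ext_iff`). `mono`: restriction of `Mono`. `usp`: let
`v ≠ w`. If `Mt Γ cΓ v`: `Mono M N v` by hypothesis. Otherwise the component is one vertex in `Γ` (no odd edge) and one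
vertex in `Λ` (SingL). MonoCone and the last claim of SubC for `Γ` and `Λ`. -/
def LocIneq : Prop := ∀ (S T V : Type) [Fintype S] [Fintype T] [Fintype V] [DecidableEq V]
  (Γ : LGraph S) (Λ : LGraph T) (cΓ : S → V) (cΛ : T → V) (M N : V → V → ℤ),
  TDO Γ Λ cΓ cΛ M N → NoOdd Γ → Nice Λ → (∀ w, Mt Γ cΓ w → Mono M N w) → ∀ w, Mt Γ cΓ w →
  ∀ d : ℕ, ¬ Even d → 3 ≤ d → (oe Λ cΛ w d).ncard ≤ (oe Γ cΓ w d).ncard

/-- **AllBr.** Proof (from PhiIns). Suppose that `e0 ∈ E` is an edge `s(s, t)` and every `φ ∈ Phi Λ Q {e0}` has `φ s = φ t`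
(`Q` is everything). Then `Phi Λ Q {e0} = Phi Λ Q ∅`, and PhiIns (second claim, with `{e0}` and `E \ {e0}`) gives
`finrank (Phi Λ Q E) ≤ finrank (Phi Λ Q ∅) + (E.ncard - 1)`, a contradiction. -/
def AllBr : Prop := ∀ (T : Type) [Finite T] (Λ : LGraph T) (E : Set (Sym2 T)),
  Module.finrank ℂ (Phi Λ (fun _ => True) ∅) + E.ncard ≤
    Module.finrank ℂ (Phi Λ (fun _ => True) E) →
  ∀ s t, s(s, t) ∈ E → ∃ φ ∈ Phi Λ (fun _ => True) {s(s, t)}, φ s ≠ φ t

/-- **NoOddOf.** Proof. Let `p` be a cycle and `e ∈ p.edges` with odd label, `e = s(s, t)`. Let `φ` be as in the hypothesis. Some walk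
from `s` to `t` avoids `e` (`SimpleGraph.isBridge_iff_adj_and_forall_cycle_notMem` and `isBridge_iff`: `e` is not a bridge;
or rotate the cycle to `s` with `SimpleGraph.Walk.rotate`). `φ` is constant along it: contradiction. -/
def NoOddOf : Prop := ∀ (T : Type) (Λ : LGraph T), (∀ s t, (oddGraph Λ).Adj s t →
  ∃ φ ∈ Phi Λ (fun _ => True) {s(s, t)}, φ s ≠ φ t) → NoOdd Λ

/-- **TheoremF.** Proof (from TDOEx, TwistCorO, NiceExO, MonoEx, CntL, LocIneq, SingL, AllBr, NoOddOf). `TDO` from TDOEx,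
`Nice Λ`, `Mono M N w` for all `w` with `Mt Γ cΓ w`. Let `s, t` be an odd edge of `Λ`, `w = cΛ s = cΛ t`. If `¬ Mt Γ cΓ w` then
`s = t` by SingL: contradiction. Let `d` be the label (odd, `≥ 3`). CntL and LocIneq give the hypothesis of AllBr for
`E = oe Λ cΛ w d`, which contains `s(s, t)`. NoOddOf. -/
def TheoremF : Prop := ∀ (S T : Type) [Fintype S] [DecidableEq S] [Fintype T] [DecidableEq T]
  (Γ : LGraph S) (Λ : LGraph T), NoOdd Γ → ∀ (_ : Artin Γ ≃* Artin Λ), NoOdd Λ

end WGOdd
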