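import Pool.Agent.Lib.MP_107652_al.Odd.Spec

set_option autoImplicit false

open Finset

namespace WGOdd

open WGirth WGTwin WGOne WGEven WGBar

private theorem XEq_dir {V : Type} [Fintype V] (GA GB : SimpleGraph V) (kA kB : V → V → ℕ)
    (M : V → V → ℤ) (z y : V → ℂˣ) (P : V → Prop) (hy : ∀ v, y v = ∏ j, z j ^ M j v)
    (hz : ∀ v, P v → z v = 1) (w : V) (hw : P w) (hm0 : ∀ j, j ≠ w → M j w = 0)
    (hone : M w w * M w w = 1)
    (dom : ∀ v l, M l v ≠ 0 → ∀ j, GA.Adj v j → j = l ∨ GB.Adj j l)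
    (heis : ∀ a b, GA.Adj a b → ∀ i j, GB.Adj i j →
      (kB i j : ℤ) ∣ kA a b * (M i a * M j b - M j a * M i b))
    (hB : ∀ v, ¬ P v → GB.Adj w v → z v ^ kB w v = 1) :
    ∀ v, ¬ P v → GA.Adj w v → y v ^ kA w v = 1 := by
  intro v hv hwv
  rw [hy v, ← Finset.prod_pow]
  refine Finset.prod_eq_one fun j _ => ?_
  by_cases hj : P j
  · rw [hz j hj, one_zpow, one_pow]
  by_cases hm : M j v = 0
  · rw [hm, zpow_zero, one_pow]
  rcases dom v j hm w hwv.symm with h | h
  · exact absurd (h ▸ hw) hj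
  · have hjw : j ≠ w := fun e => hj (e ▸ hw)
    obtain ⟨c, hc⟩ := heis w v hwv w j h
    rw [hm0 j hjw, zero_mul, sub_zero] at hc
    have h1 : (M j v) * (kA w v : ℤ) = (kB w j : ℤ) * (c * M w w) := by
      have h2 : (M j v) * (kA w v : ℤ) = M w w * M w w * (M j v * kA w v) := by
        rw [hone, one_mul]
      rw [h2]
      calc M w w * M w w * (M j v * kA w v) = M w w * (kA w v * (M w w * M j v)) := by ring
        _ = M w w * ((kB w j : ℤ) * c) := by rw [hc]
        _ = _ := by ring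
    rw [← zpow_natCast, ← zpow_mul, h1, zpow_mul, zpow_natCast, hB j hj h, one_zpow]

private theorem XEq_sum {V : Type} (s : Finset V) (f : V → ℤ) (a : ℂˣ) :
    ∏ j ∈ s, a ^ f j = a ^ ∑ j ∈ s, f j := by
  classical
  induction s using Finset.induction_on with
  | empty => simp
  | insert b s hb ih => rw [Finset.prod_insert hb, Finset.sum_insert hb, ih, zpow_add]

private theorem XEq_pz {V : Type} [Fintype V] [DecidableEq V] (M N : V → V → ℤ)
    (mn : ∀ i j, ∑ v, M i v * N v j = if i = j then 1 else 0) (z : V → ℂˣ) (v : V) :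
    z v = ∏ j, pz M z j ^ N j v := by
  have h1 : ∀ j, pz M z j ^ N j v = ∏ i, z i ^ (M i j * N j v) := by
    intro j
    unfold pz
    rw [← Finset.prod_zpow]
    exact Finset.prod_congr rfl fun i _ => (zpow_mul _ _ _).symm
  rw [Finset.prod_congr rfl fun j _ => h1 j, Finset.prod_comm]
  have h2 : ∀ i, ∏ j, z i ^ (M i j * N j v) = z i ^ (if i = v then (1 : ℤ) else 0) := by
    intro i
    rw [← mn i v]
    exact XEq_sum _ _ _
  rw [Finset.prod_congr rfl fun i _ => h2 i]
  rw [Finset.prod_eq_single v]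
  · rw [if_pos rfl, zpow_one]
  · intro i _ hi
    rw [if_neg hi, zpow_zero]
  · intro h
    exact absurd (Finset.mem_univ _) h

theorem xEq : XEq := by
  intro S T V _ _ _ _ Γ Λ cΓ cΛ M N h P hP z hz w hw
  have hsq : M w w * M w w = 1 ∧ N w w * N w w = 1 := by
    have h1 := (hP w hw).one
    rcases Int.eq_one_or_neg_one_of_mul_eq_one h1 with h2 | h2
    · rw [h2, one_mul] at h1
      rw [h2, h1]; norm_num
    · rw [h2] at h1
      have h3 : N w w = -1 := by linarith
      rw [h2, h3]; norm_num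
  constructor
  · intro hA
    refine XEq_dir (bar Λ cΛ).graph (bar Γ cΓ).graph (half (bar Λ cΛ)) (half (bar Γ cΓ)) N
      (pz M z) z P (XEq_pz M N h.td.pre.mn z) ?_ w hw (hP w hw).n0 hsq.2 ?_ h.td.pre.heisN hA
    · intro v hv
      unfold pz
      refine Finset.prod_eq_one fun j _ => ?_
      by_cases hj : j = v
      · rw [hj, hz v hv, one_zpow]
      · rw [(hP v hv).m0 j hj, zpow_zero]
    · intro v l hl j hj
      exact h.td.domN l v hl j ((h.td.adj _ _).2 hj)
  · intro hB
    refine XEq_dir (bar Γ cΓ).graph (bar Λ cΛ).graph (half (bar Γ cΓ)) (half (bar Λ cΛ)) M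
      z (pz M z) P (fun _ => rfl) hz w hw (hP w hw).m0 hsq.1 ?_ h.td.pre.heisM hB
    intro v l hl j hj
    rcases h.td.domM v l hl j hj with h1 | h1
    · exact Or.inl h1
    · exact Or.inr ((h.td.adj _ _).1 h1)

end WGOdd
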